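import Pool.Agent.Helper55.TR.Tr
import Pool.Agent.Helper25.KW.K1

set_option autoImplicit false
set_option linter.unusedSectionVars false
set_option linter.unusedVariables false

/-!
# The refined T element in the abstract worlds (`2 a ≤ b`)
-/

namespace Helper55.TR

open Helper11.N1 Helper55.KE Helper12.TL Helper25.KW

/-- position of the dipole, class `κ > 0`; shift `w` -/
def DPR (a κ : ℤ) (w x r : ℝ) : Prop :=
  ((κ : ℝ) ≤ r ∧ 0 < x + w ∧ x + w + r < a ∧ (x < 0 ∨ (a : ℝ) - κ < x + r)) ∨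
  (-(a : ℝ) ≤ r ∧ 0 < x ∧ x + r < -κ ∧ (r ≤ -a + κ - 1 ∨ x + w < 0 ∨ 0 < x + w + r))

/-- position of the dipole, class `-κ < 0`; shift `w` -/
def DNR (a κ : ℤ) (w x r : ℝ) : Prop :=
  ((κ : ℝ) ≤ r ∧ 0 < x ∧ x + r < a ∧ (x + w < 0 ∨ (a : ℝ) - κ < x + w + r)) ∨
  (-(a : ℝ) ≤ r ∧ 0 < x + w ∧ x + w + r < -κ ∧ (r ≤ -a + κ - 1 ∨ x < 0 ∨ 0 < x + r))

/-- position of the dipole -/
def Dip (a c : ℤ) (w x r : ℝ) : Prop := (0 < c ∧ DPR a c w x r) ∨ (c < 0 ∧ DNR a (-c) w x r)

/-- the refined T element, base line `l` -/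
def TRF (p a b c J l ds : ℤ) (D : ℝ) (Cl : ℤ → ℤ → ℤ → ℤ → ℝ → Prop) : Prop :=
  2 * a ≤ b → ∃ (N X R : ℤ) (I : ℝ), Cl N 0 X R I ∧ 0 < N ∧ N < p ∧ N ≠ l ∧ N + l ≠ p ∧
    0 < I ∧ I < D ∧
    ((I < D - J ∧ Dip a c 0 (X + ds * I) R) ∨ (I < J ∧ Dip a c (ds * D) (-(X + ds * I)) (-R)))

/-- the refined T element, base line `p - 1` -/
def TRG (p a b c J l ds : ℤ) (D : ℝ) (Cl : ℤ → ℤ → ℤ → ℤ → ℝ → Prop) : Prop :=
  2 * a ≤ b → ∃ (N X R : ℤ) (I : ℝ), Cl N 0 X R I ∧ 0 < N ∧ N < p ∧ N ≠ l ∧ N + l ≠ p ∧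
    0 < I ∧ I < D ∧
    ((I < D - J ∧ Dip a c 0 (-(X + ds * I)) (-R)) ∨
      (D - J < I ∧ Dip a c (ds * D) (-(X + ds * I)) (-R)))

theorem dipP_real {q : ℕ} (hq : 0 < (q : ℝ)) {a κ w x r : ℤ} (h : DipP q a κ w x r) :
    DPR a κ ((w : ℝ) / q) ((x : ℝ) / q) r := by
  have hq' := hq.ne'
  have e1 : ∀ y : ℤ, ((y : ℝ) / q) * q = y := fun y => by field_simp
  rcases h with ⟨h1, h2, h3, h4⟩ | ⟨h1, h2, h3, h4⟩
  · left
    refine ⟨by exact_mod_cast h1, ?_, ?_, ?_⟩
    · have : (0 : ℝ) < (x : ℝ) + w := by exact_mod_cast h2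
      rw [← add_div]
      positivity
    · have : (x : ℝ) + w + r * q < a * q := by exact_mod_cast h3
      rw [← add_div]
      have h5 : ((x : ℝ) + w) / q < a - r := by
        rw [div_lt_iff₀ hq]
        linarith
      linarith
    · rcases h4 with h4 | h4
      · left
        have : (x : ℝ) < 0 := by exact_mod_cast h4
        exact div_neg_of_neg_of_pos this hq
      · right
        have : ((a : ℝ) - κ) * q < x + r * q := by exact_mod_cast h4
        have h5 : (a : ℝ) - κ - r < (x : ℝ) / q := by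
          rw [lt_div_iff₀ hq]
          linarith
        linarith
  · right
    refine ⟨by exact_mod_cast h1, ?_, ?_, ?_⟩
    · have : (0 : ℝ) < (x : ℝ) := by exact_mod_cast h2
      positivity
    · have : (x : ℝ) + r * q < -κ * q := by exact_mod_cast h3
      have h5 : (x : ℝ) / q < -κ - r := by
        rw [div_lt_iff₀ hq]
        linarith
      linarith
    · rcases h4 with h4 | h4 | h4
      · left
        exact_mod_cast (by omega : r ≤ -a + κ - 1)
      · right; left
        have : (x : ℝ) + w < 0 := by exact_mod_cast h4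
        rw [← add_div]
        exact div_neg_of_neg_of_pos this hq
      · right; right
        have : (0 : ℝ) < x + w + r * q := by exact_mod_cast h4
        have h5 : -(r : ℝ) < ((x : ℝ) + w) / q := by
          rw [lt_div_iff₀ hq]
          linarith
        rw [← add_div]
        linarith

theorem dipN_real {q : ℕ} (hq : 0 < (q : ℝ)) {a κ w x r : ℤ} (h : DipN q a κ w x r) :
    DNR a κ ((w : ℝ) / q) ((x : ℝ) / q) r := by
  rcases h with ⟨h1, h2, h3, h4⟩ | ⟨h1, h2, h3, h4⟩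
  · left
    refine ⟨by exact_mod_cast h1, ?_, ?_, ?_⟩
    · have : (0 : ℝ) < (x : ℝ) := by exact_mod_cast h2
      positivity
    · have : (x : ℝ) + r * q < a * q := by exact_mod_cast h3
      have h5 : (x : ℝ) / q < a - r := by
        rw [div_lt_iff₀ hq]
        linarith
      linarith
    · rcases h4 with h4 | h4
      · left
        have : (x : ℝ) + w < 0 := by exact_mod_cast h4
        rw [← add_div]
        exact div_neg_of_neg_of_pos this hq
      · right
        have : ((a : ℝ) - κ) * q < x + w + r * q := by exact_mod_cast h4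
        have h5 : (a : ℝ) - κ - r < ((x : ℝ) + w) / q := by
          rw [lt_div_iff₀ hq]
          linarith
        rw [← add_div]
        linarith
  · right
    refine ⟨by exact_mod_cast h1, ?_, ?_, ?_⟩
    · have : (0 : ℝ) < (x : ℝ) + w := by exact_mod_cast h2
      rw [← add_div]
      positivity
    · have : (x : ℝ) + w + r * q < -κ * q := by exact_mod_cast h3
      rw [← add_div]
      have h5 : ((x : ℝ) + w) / q < -κ - r := by
        rw [div_lt_iff₀ hq]
        linarith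
      linarith
    · rcases h4 with h4 | h4 | h4
      · left
        exact_mod_cast (by omega : r ≤ -a + κ - 1)
      · right; left
        have : (x : ℝ) < 0 := by exact_mod_cast h4
        exact div_neg_of_neg_of_pos this hq
      · right; right
        have : (0 : ℝ) < x + r * q := by exact_mod_cast h4
        have h5 : -(r : ℝ) < (x : ℝ) / q := by
          rw [lt_div_iff₀ hq]
          linarith
        linarith

section

variable {p q a b c : ℕ} [NeZero p] [NeZero q] {z : ZMod p → ZMod (p * q)} {i0 ρ : ZMod p}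
  {θ : ZMod (p * q)} {δ l : ℕ} {k : ℤ} {s ds J : ℤ}

/-- both classes -/
theorem trD (h : SG p q a b c z i0 ρ θ δ l k s ds J) {D dl : ℝ}
    (W : Base p a b k J ds l q D dl (ClS p q c ρ θ s ds)) (h2 : 2 * a ≤ b) (h2b : 2 * b < p)
    (hk0 : k ≠ 0) (hka : |k| < a) {n : ℕ} (hln : l ≤ n) (hn : n < p) :
    ∃ (f : ℕ) (x r : ℤ), f < p ∧ f ≠ n ∧ f + l ≠ n ∧ f ≠ n + l ∧ f + p ≠ n + l ∧
      (((f : ℤ) - n : ℤ) : ZMod (p * q)) * θ = (x : ZMod (p * q)) ∧
      (((f : ℤ) - n : ℤ) : ZMod p) * ρ = (r : ZMod p) ∧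
      Dip a k (if f < l then ds * D else 0) ((x : ℝ) / q) r := by
  have hqR := h.q0R
  have hD : (q : ℝ) * D = s * p := by
    have := W.cp.2.2
    push_cast at this
    linarith
  have ew : ∀ f : ℕ, (((if f < l then ds * s * p else 0 : ℤ) : ℤ) : ℝ) / q =
      if f < l then ds * D else 0 := by
    intro f
    by_cases hf : f < l
    · rw [if_pos hf, if_pos hf, div_eq_iff hqR.ne']
      push_cast
      linear_combination -(ds : ℝ) * hD
    · rw [if_neg hf, if_neg hf]
      simp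
  rcases lt_or_gt_of_ne hk0 with hk | hk
  · obtain ⟨κ, hκ⟩ : ∃ κ : ℕ, k = -(κ : ℤ) := ⟨k.natAbs, by omega⟩
    have hab : |k| = κ := by rw [hκ, abs_neg]; simp
    obtain ⟨f, x, r, g1, g2, g3, g4, g5, g6, g7, g8⟩ :=
      trN h hκ (by omega) (by rw [hab] at hka; exact_mod_cast hka) h2 h2b hln hn
    refine ⟨f, x, r, g1, g2, g3, g4, g5, g6, g7, Or.inr ⟨hk, ?_⟩⟩
    have := dipN_real hqR g8
    rw [ew] at this
    rw [hκ, neg_neg]
    exact this
  · obtain ⟨κ, hκ⟩ : ∃ κ : ℕ, k = (κ : ℤ) := ⟨k.natAbs, by omega⟩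
    have hab : |k| = κ := by rw [hκ]; simp
    obtain ⟨f, x, r, g1, g2, g3, g4, g5, g6, g7, g8⟩ :=
      trP h hκ (by omega) (by rw [hab] at hka; exact_mod_cast hka) h2 h2b hln hn
    refine ⟨f, x, r, g1, g2, g3, g4, g5, g6, g7, Or.inl ⟨hk, ?_⟩⟩
    have := dipP_real hqR g8
    rw [ew] at this
    rw [hκ]
    exact this

/-- `I` of an exact index -/
theorem iex (h : SG p q a b c z i0 ρ θ δ l k s ds J) {D dl : ℝ}
    (W : Base p a b k J ds l q D dl (ClS p q c ρ θ s ds)) {N X R : ℤ} {I : ℝ}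
    (hC : ClS p q c ρ θ s ds N 0 X R I) :
    (N < l → I < J) ∧ (N + l < p → I < D - J) ∧ (p < N + l → D - J < I) := by
  have hqR := h.q0R
  have hs : (2 : ℝ) ≤ s := by exact_mod_cast h.hs
  have hD : (q : ℝ) * D = s * p := by
    have := W.cp.2.2
    push_cast at this
    linarith
  have hJ : (q : ℝ) * J = l * s + ds * (1 - 2 * (c : ℝ)) := by
    have := h.hJ
    have h2 : ((l * s + ds * (1 - 2 * (c : ℤ)) : ℤ) : ℝ) = ((J * q : ℤ) : ℝ) := by rw [this]
    push_cast at h2
    linarith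
  have hI : (q : ℝ) * I = s * N := by
    have := hC.2.2
    push_cast at this
    linarith
  have he : -(1 : ℝ) ≤ ds * (1 - 2 * (c : ℝ)) ∧ ds * (1 - 2 * (c : ℝ)) ≤ 1 := by
    have hc := h.ls.hB.hc
    have hc' : c = 0 ∨ c = 1 := by omega
    rcases h.hds with h1 | h1 <;> rcases hc' with h2 | h2 <;> rw [h1, h2] <;> push_cast <;>
      constructor <;> norm_num
  refine ⟨fun h1 => ?_, fun h1 => ?_, fun h1 => ?_⟩
  · have h2 : (N : ℝ) + 1 ≤ l := by exact_mod_cast (by omega : N + 1 ≤ l)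
    have h3 : (q : ℝ) * I < q * J := by nlinarith
    exact lt_of_mul_lt_mul_left h3 hqR.le
  · have h2 : (N : ℝ) + l + 1 ≤ p := by exact_mod_cast (by omega : N + l + 1 ≤ p)
    have h3 : (q : ℝ) * I < q * (D - J) := by nlinarith
    exact lt_of_mul_lt_mul_left h3 hqR.le
  · have h2 : (p : ℝ) + 1 ≤ N + l := by exact_mod_cast (by omega : (p : ℤ) + 1 ≤ N + l)
    have h3 : (q : ℝ) * (D - J) < q * I := by nlinarith
    exact lt_of_mul_lt_mul_left h3 hqR.le

theorem trf (h : SG p q a b c z i0 ρ θ δ l k s ds J) {D dl : ℝ}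
    (W : Base p a b k J ds l q D dl (ClS p q c ρ θ s ds)) (h2b : 2 * b < p)
    (hk0 : k ≠ 0) (hka : |k| < a) : TRF p a b k J l ds D (ClS p q c ρ θ s ds) := by
  intro h2
  have h2' : 2 * a ≤ b := by exact_mod_cast h2
  have hl0 := h.ls.hl0
  have hlp := h.ls.hl
  obtain ⟨f, x, r, g1, g2, g3, g4, g5, g6, g7, g8⟩ := trD h W h2' h2b hk0 hka le_rfl hlp
  rcases lt_or_gt_of_ne g2 with hf | hf
  · rw [if_pos hf] at g8
    obtain ⟨X, I, hC, hxI⟩ := h.cex ((l : ℤ) - f) (-x) (-r) (by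
      push_cast at g6 ⊢
      linear_combination -g6) (by
      push_cast at g7 ⊢
      linear_combination -g7)
    have e1 : -((X : ℝ) + ds * I) = (x : ℝ) / q := by rw [hxI]; push_cast; ring
    refine ⟨_, X, _, I, hC, by omega, by omega, by omega, by omega,
      (W.pos0 hC).2 (by omega), (W.ltp0 hC).2 (by omega), Or.inr ⟨?_, ?_⟩⟩
    · exact (iex h W hC).1 (by omega)
    · rw [e1]
      push_cast
      rw [neg_neg]
      exact g8
  · rw [if_neg (by omega)] at g8
    obtain ⟨X, I, hC, hxI⟩ := h.cex ((f : ℤ) - l) x r (by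
      push_cast at g6 ⊢
      linear_combination g6) (by
      push_cast at g7 ⊢
      linear_combination g7)
    refine ⟨_, X, _, I, hC, by omega, by omega, by omega, by omega,
      (W.pos0 hC).2 (by omega), (W.ltp0 hC).2 (by omega), Or.inl ⟨?_, ?_⟩⟩
    · exact (iex h W hC).2.1 (by omega)
    · rw [hxI]
      exact g8

theorem trg (h : SG p q a b c z i0 ρ θ δ l k s ds J) {D dl : ℝ}
    (W : Base p a b k J ds l q D dl (ClS p q c ρ θ s ds)) (h2b : 2 * b < p)
    (hk0 : k ≠ 0) (hka : |k| < a) : TRG p a b k J l ds D (ClS p q c ρ θ s ds) := by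
  intro h2
  have h2' : 2 * a ≤ b := by exact_mod_cast h2
  have hl0 := h.ls.hl0
  have hlp := h.ls.hl
  obtain ⟨f, x, r, g1, g2, g3, g4, g5, g6, g7, g8⟩ :=
    trD h W h2' h2b hk0 hka (n := p - 1) (by omega) (by omega)
  have e0 : ((p - 1 : ℕ) : ℤ) = (p : ℤ) - 1 := by omega
  rw [e0] at g6 g7
  obtain ⟨X, I, hC, hxI⟩ := h.cex ((p : ℤ) - 1 - f) (-x) (-r) (by
    push_cast at g6 ⊢
    linear_combination -g6) (by
    push_cast at g7 ⊢
    linear_combination -g7)
  have e1 : -((X : ℝ) + ds * I) = (x : ℝ) / q := by rw [hxI]; push_cast; ring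
  obtain ⟨-, i2, i3⟩ := iex h W hC
  rcases Nat.lt_or_ge f l with hf | hf
  · rw [if_pos hf] at g8
    refine ⟨_, X, _, I, hC, by omega, by omega, by omega, by omega,
      (W.pos0 hC).2 (by omega), (W.ltp0 hC).2 (by omega), Or.inr ⟨?_, ?_⟩⟩
    · exact i3 (by omega)
    · rw [e1]
      push_cast
      rw [neg_neg]
      exact g8
  · rw [if_neg (by omega)] at g8
    refine ⟨_, X, _, I, hC, by omega, by omega, by omega, by omega,
      (W.pos0 hC).2 (by omega), (W.ltp0 hC).2 (by omega), Or.inl ⟨?_, ?_⟩⟩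
    · exact i2 (by omega)
    · rw [e1]
      push_cast
      rw [neg_neg]
      exact g8

end

end Helper55.TR
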