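import Pool.Agent.Helper55.TR.TRF
import Pool.Agent.Helper55.TR.Cls

set_option autoImplicit false
set_option linter.unusedSectionVars false
set_option linter.unusedVariables false

/-!
# The types of the refined T element
-/

namespace Helper55.TR

open Helper25.KG Helper25.KW Helper55.KE Helper11.CT

section

variable {p a b c J l q : ℤ} {D dl : ℝ} {Cl : ℤ → ℤ → ℤ → ℤ → ℝ → Prop}

theorem ne_int {ds : ℤ} (W : World p a b c J ds l q D dl Cl) {N X R : ℤ} {I : ℝ}
    (hk : KCl p l Cl N X R I) (m : ℤ) : I ≠ m := by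
  intro h
  have h1 := W.int hk.cl h
  have h2 := hk.N0
  have h3 := hk.Np
  have h4 := W.hpq
  rw [zero_mul, sub_zero] at h1
  have := Int.le_of_dvd h2 h1
  omega

theorem ne_D {ds : ℤ} (W : World p a b c J ds l q D dl Cl) {N X R : ℤ} {I : ℝ}
    (hk : KCl p l Cl N X R I) (m : ℤ) : I - D ≠ m := by
  have h2 := hk.N0
  have h3 := hk.Np
  have hl := W.hl
  exact W.nint hk.cl W.cp (by simp) h2 h3 (by omega) le_rfl (by omega) m

/-- `c > 0`, `ds = 1` -/
theorem el_1_1 (W : World p a b c J 1 l q D dl Cl) (hF : TRF p a b c J l 1 D Cl)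
    (h2 : 2 * a ≤ b) (hc : 0 < c) : ∃ (N X R : ℤ) (I : ℝ), KCl p l Cl N X R I ∧ 0 < I ∧ I < D ∧
    ((I < D - J ∧ 0 < (X : ℝ) + I ∧ (c : ℝ) ≤ R ∧ (a : ℝ) - c < X + I + R ∧
        (X : ℝ) + I + R < a) ∨
      (I < D - J ∧ 0 < (X : ℝ) + I ∧ -(a : ℝ) ≤ R ∧ (R : ℝ) ≤ -a + c - 1 ∧
        (X : ℝ) + I + R < -c) ∨
      (I < J ∧ (X : ℝ) + I < D ∧ (R : ℝ) ≤ -c ∧ D - a < (X : ℝ) + I + R ∧ 0 < (X : ℝ) + I) ∨
      (I < J ∧ (X : ℝ) + I < D ∧ (R : ℝ) ≤ -c ∧ D - a < (X : ℝ) + I + R ∧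
        (X : ℝ) + I + R < c - a ∧ (X : ℝ) + I < 0) ∨
      (I < J ∧ (X : ℝ) + I < 0 ∧ (R : ℝ) ≤ a ∧ (c : ℝ) < X + I + R ∧ (a : ℝ) - c + 1 ≤ R) ∨
      (I < J ∧ (X : ℝ) + I < 0 ∧ (R : ℝ) ≤ a ∧ (c : ℝ) < X + I + R ∧ (R : ℝ) ≤ a - c ∧
        (X : ℝ) + I + R < D)) := by
  obtain ⟨N, X, R, I, hC, n0, np, nl, npl, i0, iD, h⟩ := hF h2
  have hk : KCl p l Cl N X R I := ⟨hC, n0, np, nl, npl⟩
  refine ⟨N, X, R, I, hk, i0, iD, ?_⟩
  have hD : (0 : ℝ) < D := lt_trans i0 iD
  have ha : (0 : ℝ) < a := by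
    have := W.ha
    exact_mod_cast (by omega : (0 : ℤ) < a)
  have hca : (0 : ℝ) < c := by exact_mod_cast hc
  have hx0 : (X : ℝ) + I ≠ 0 := by
    intro h0
    exact ne_int W hk (-X) (by push_cast; linarith)
  have hRc : (R : ℝ) ≤ a - c ∨ (a : ℝ) - c + 1 ≤ R := by
    rcases le_or_gt R (a - c) with h1 | h1
    · left; exact_mod_cast h1
    · right; exact_mod_cast (by omega : a - c + 1 ≤ R)
  rcases h with ⟨hi, h⟩ | ⟨hi, h⟩ <;> rcases h with ⟨-, h⟩ | ⟨h0, -⟩
  · rcases h with ⟨g1, g2, g3, g4⟩ | ⟨g1, g2, g3, g4⟩ <;> push_cast at g1 g2 g3 g4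
    · left
      rcases g4 with g4 | g4
      · exfalso; linarith
      · exact ⟨hi, by linarith, by linarith, by linarith, by linarith⟩
    · right; left
      rcases g4 with g4 | g4 | g4
      · exact ⟨hi, by linarith, by linarith, by linarith, by linarith⟩
      · exfalso; linarith
      · exfalso; linarith
  · omega
  · rcases h with ⟨g1, g2, g3, g4⟩ | ⟨g1, g2, g3, g4⟩ <;> push_cast at g1 g2 g3 g4
    · rcases g4 with g4 | g4
      · right; right; left
        exact ⟨hi, by linarith, by linarith, by linarith, by linarith⟩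
      · rcases lt_or_gt_of_ne hx0 with h0 | h0
        · right; right; right; left
          exact ⟨hi, by linarith, by linarith, by linarith, by linarith, by linarith⟩
        · right; right; left
          exact ⟨hi, by linarith, by linarith, by linarith, by linarith⟩
    · rcases hRc with hR | hR
      · right; right; right; right; right
        rcases g4 with g4 | g4 | g4
        · exfalso; linarith
        · exfalso; linarith
        · exact ⟨hi, by linarith, by linarith, by linarith, by linarith, by linarith⟩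
      · right; right; right; right; left
        exact ⟨hi, by linarith, by linarith, by linarith, by linarith⟩
  · omega

/-- `c > 0`, `ds = -1` -/
theorem el_1_m1 (W : World p a b c J (-1) l q D dl Cl) (hF : TRF p a b c J l (-1) D Cl)
    (h2 : 2 * a ≤ b) (hc : 0 < c) : ∃ (N X R : ℤ) (I : ℝ), KCl p l Cl N X R I ∧ 0 < I ∧ I < D ∧
    ((I < D - J ∧ 0 < (X : ℝ) - I ∧ (c : ℝ) ≤ R ∧ (a : ℝ) - c < X - I + R ∧
        (X : ℝ) - I + R < a) ∨
      (I < D - J ∧ 0 < (X : ℝ) - I ∧ -(a : ℝ) ≤ R ∧ (R : ℝ) ≤ -a + c - 1 ∧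
        (X : ℝ) - I + R < -c) ∨
      (I < J ∧ (X : ℝ) - I < -D ∧ (R : ℝ) ≤ -c ∧ (X : ℝ) - I + R < c - a ∧
        -a - D < (X : ℝ) - I + R) ∨
      (I < J ∧ (X : ℝ) - I < 0 ∧ (R : ℝ) ≤ a ∧ (c : ℝ) < X - I + R ∧ (a : ℝ) - c + 1 ≤ R) ∨
      (I < J ∧ (X : ℝ) - I < 0 ∧ (R : ℝ) ≤ a ∧ (c : ℝ) < X - I + R ∧ (R : ℝ) ≤ a - c ∧
        -D < (X : ℝ) - I)) := by
  obtain ⟨N, X, R, I, hC, n0, np, nl, npl, i0, iD, h⟩ := hF h2
  have hk : KCl p l Cl N X R I := ⟨hC, n0, np, nl, npl⟩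
  refine ⟨N, X, R, I, hk, i0, iD, ?_⟩
  have hD : (0 : ℝ) < D := lt_trans i0 iD
  have ha : (0 : ℝ) < a := by
    have := W.ha
    exact_mod_cast (by omega : (0 : ℤ) < a)
  have hca : (0 : ℝ) < c := by exact_mod_cast hc
  have hRc : (R : ℝ) ≤ a - c ∨ (a : ℝ) - c + 1 ≤ R := by
    rcases le_or_gt R (a - c) with h1 | h1
    · left; exact_mod_cast h1
    · right; exact_mod_cast (by omega : a - c + 1 ≤ R)
  rcases h with ⟨hi, h⟩ | ⟨hi, h⟩ <;> rcases h with ⟨-, h⟩ | ⟨h0, -⟩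
  · rcases h with ⟨g1, g2, g3, g4⟩ | ⟨g1, g2, g3, g4⟩ <;> push_cast at g1 g2 g3 g4
    · left
      rcases g4 with g4 | g4
      · exfalso; linarith
      · exact ⟨hi, by linarith, by linarith, by linarith, by linarith⟩
    · right; left
      rcases g4 with g4 | g4 | g4
      · exact ⟨hi, by linarith, by linarith, by linarith, by linarith⟩
      · exfalso; linarith
      · exfalso; linarith
  · omega
  · rcases h with ⟨g1, g2, g3, g4⟩ | ⟨g1, g2, g3, g4⟩ <;> push_cast at g1 g2 g3 g4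
    · rcases g4 with g4 | g4
      · exfalso; linarith
      · right; right; left
        exact ⟨hi, by linarith, by linarith, by linarith, by linarith⟩
    · rcases hRc with hR | hR
      · right; right; right; right
        rcases g4 with g4 | g4 | g4
        · exfalso; linarith
        · exact ⟨hi, by linarith, by linarith, by linarith, by linarith, by linarith⟩
        · exfalso; linarith
      · right; right; right; left
        exact ⟨hi, by linarith, by linarith, by linarith, by linarith⟩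
  · omega

/-- `c < 0`, `ds = 1` -/
theorem el_m1_1 (W : World p a b c J 1 l q D dl Cl) (hF : TRF p a b c J l 1 D Cl)
    (h2 : 2 * a ≤ b) (hc : c < 0) : ∃ (N X R : ℤ) (I : ℝ), KCl p l Cl N X R I ∧ 0 < I ∧ I < D ∧
    ((I < D - J ∧ 0 < (X : ℝ) + I ∧ -(c : ℝ) ≤ R ∧ (a : ℝ) + c < X + I + R ∧
        (X : ℝ) + I + R < a) ∨
      (I < D - J ∧ 0 < (X : ℝ) + I ∧ -(a : ℝ) ≤ R ∧ (R : ℝ) ≤ -a - c - 1 ∧
        (X : ℝ) + I + R < c) ∨
      (I < J ∧ (X : ℝ) + I < 0 ∧ (R : ℝ) ≤ c ∧ -(a : ℝ) < X + I + R ∧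
        (X : ℝ) + I + R < D - a - c) ∨
      (I < J ∧ (X : ℝ) + I < D ∧ (R : ℝ) ≤ a ∧ D - c < (X : ℝ) + I + R ∧ 0 < (X : ℝ) + I) ∨
      (I < J ∧ (X : ℝ) + I < 0 ∧ (R : ℝ) ≤ a ∧ D - c < (X : ℝ) + I + R ∧
        (a : ℝ) + c + 1 ≤ R)) := by
  obtain ⟨N, X, R, I, hC, n0, np, nl, npl, i0, iD, h⟩ := hF h2
  have hk : KCl p l Cl N X R I := ⟨hC, n0, np, nl, npl⟩
  refine ⟨N, X, R, I, hk, i0, iD, ?_⟩
  have hD : (0 : ℝ) < D := lt_trans i0 iD
  have ha : (0 : ℝ) < a := by
    have := W.ha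
    exact_mod_cast (by omega : (0 : ℤ) < a)
  have hca : (c : ℝ) < 0 := by exact_mod_cast hc
  have hx0 : (X : ℝ) + I ≠ 0 := by
    intro h0
    exact ne_int W hk (-X) (by push_cast; linarith)
  rcases h with ⟨hi, h⟩ | ⟨hi, h⟩ <;> rcases h with ⟨h0, -⟩ | ⟨-, h⟩
  · omega
  · rcases h with ⟨g1, g2, g3, g4⟩ | ⟨g1, g2, g3, g4⟩ <;> push_cast at g1 g2 g3 g4
    · left
      rcases g4 with g4 | g4
      · exfalso; linarith
      · exact ⟨hi, by linarith, by linarith, by linarith, by linarith⟩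
    · right; left
      rcases g4 with g4 | g4 | g4
      · exact ⟨hi, by linarith, by linarith, by linarith, by linarith⟩
      · exfalso; linarith
      · exfalso; linarith
  · omega
  · rcases h with ⟨g1, g2, g3, g4⟩ | ⟨g1, g2, g3, g4⟩ <;> push_cast at g1 g2 g3 g4
    · rcases g4 with g4 | g4
      · exfalso; linarith
      · right; right; left
        exact ⟨hi, by linarith, by linarith, by linarith, by linarith⟩
    · rcases lt_or_gt_of_ne hx0 with h0 | h0
      · right; right; right; right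
        rcases g4 with g4 | g4 | g4
        · exact ⟨hi, by linarith, by linarith, by linarith, by linarith⟩
        · exfalso; linarith
        · exfalso; linarith
      · right; right; right; left
        exact ⟨hi, by linarith, by linarith, by linarith, by linarith⟩

/-- `c < 0`, `ds = -1` -/
theorem el_m1_m1 (W : World p a b c J (-1) l q D dl Cl) (hF : TRF p a b c J l (-1) D Cl)
    (h2 : 2 * a ≤ b) (hc : c < 0) : ∃ (N X R : ℤ) (I : ℝ), KCl p l Cl N X R I ∧ 0 < I ∧ I < D ∧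
    ((I < D - J ∧ 0 < (X : ℝ) - I ∧ -(c : ℝ) ≤ R ∧ (a : ℝ) + c < X - I + R ∧
        (X : ℝ) - I + R < a) ∨
      (I < D - J ∧ 0 < (X : ℝ) - I ∧ -(a : ℝ) ≤ R ∧ (R : ℝ) ≤ -a - c - 1 ∧
        (X : ℝ) - I + R < c) ∨
      (I < J ∧ (X : ℝ) - I < 0 ∧ (R : ℝ) ≤ c ∧ -(a : ℝ) < X - I + R ∧ -D < (X : ℝ) - I) ∨
      (I < J ∧ (X : ℝ) - I < -D ∧ (R : ℝ) ≤ c ∧ -(a : ℝ) < X - I + R ∧
        (X : ℝ) - I + R < -D - a - c) ∨
      (I < J ∧ (X : ℝ) - I < -D ∧ (R : ℝ) ≤ a ∧ -D - c < (X : ℝ) - I + R ∧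
        (X : ℝ) - I + R < 0) ∨
      (I < J ∧ (X : ℝ) - I < -D ∧ (R : ℝ) ≤ a ∧ -D - c < (X : ℝ) - I + R ∧
        (a : ℝ) + c + 1 ≤ R ∧ 0 < (X : ℝ) - I + R)) := by
  obtain ⟨N, X, R, I, hC, n0, np, nl, npl, i0, iD, h⟩ := hF h2
  have hk : KCl p l Cl N X R I := ⟨hC, n0, np, nl, npl⟩
  refine ⟨N, X, R, I, hk, i0, iD, ?_⟩
  have hD : (0 : ℝ) < D := lt_trans i0 iD
  have ha : (0 : ℝ) < a := by
    have := W.ha
    exact_mod_cast (by omega : (0 : ℤ) < a)
  have hca : (c : ℝ) < 0 := by exact_mod_cast hc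
  have hs0 : (X : ℝ) - I + R ≠ 0 := by
    intro h0
    exact ne_int W hk (X + R) (by push_cast; linarith)
  have hxD : (X : ℝ) - I ≠ -D := by
    intro h0
    exact ne_D W hk X (by linarith)
  rcases h with ⟨hi, h⟩ | ⟨hi, h⟩ <;> rcases h with ⟨h0, -⟩ | ⟨-, h⟩
  · omega
  · rcases h with ⟨g1, g2, g3, g4⟩ | ⟨g1, g2, g3, g4⟩ <;> push_cast at g1 g2 g3 g4
    · left
      rcases g4 with g4 | g4
      · exfalso; linarith
      · exact ⟨hi, by linarith, by linarith, by linarith, by linarith⟩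
    · right; left
      rcases g4 with g4 | g4 | g4
      · exact ⟨hi, by linarith, by linarith, by linarith, by linarith⟩
      · exfalso; linarith
      · exfalso; linarith
  · omega
  · rcases h with ⟨g1, g2, g3, g4⟩ | ⟨g1, g2, g3, g4⟩ <;> push_cast at g1 g2 g3 g4
    · rcases lt_or_gt_of_ne hxD with h0 | h0
      · right; right; right; left
        rcases g4 with g4 | g4
        · exfalso; linarith
        · exact ⟨hi, by linarith, by linarith, by linarith, by linarith⟩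
      · right; right; left
        exact ⟨hi, by linarith, by linarith, by linarith, by linarith⟩
    · rcases lt_or_gt_of_ne hs0 with h0 | h0
      · right; right; right; right; left
        exact ⟨hi, by linarith, by linarith, by linarith, by linarith⟩
      · right; right; right; right; right
        rcases g4 with g4 | g4 | g4
        · exact ⟨hi, by linarith, by linarith, by linarith, by linarith, by linarith⟩
        · exfalso; linarith
        · exfalso; linarith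

end

end Helper55.TR
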