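import Pool.Agent.Helper48.KY.One
import Pool.Agent.Helper11.CT.Val

set_option autoImplicit false
set_option linter.unusedVariables false

/-!
# Elements with a given abscissa
-/

namespace Helper55.TR

open Helper25.KW Helper55.KE Helper11.CT Helper48.KY

variable {p a b c J ds l q : ℤ} {D dl : ℝ} {Cl : ℤ → ℤ → ℤ → ℤ → ℝ → Prop}

/-- reduction of the row -/
theorem redR (W : Base p a b c J ds l q D dl Cl) {N X R : ℤ} {I : ℝ} (h : Cl N 0 X R I)
    (hn : ∀ Y : ℤ, Cl N 0 X Y I → p ≠ 2 * Y) : ∃ R', Cl N 0 X R' I ∧ -p < 2 * R' ∧ 2 * R' < p := by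
  have hp : 0 < p := by have := W.ha; have := W.h2a; omega
  have key : ∀ k : ℤ, Cl N 0 X (R + k * p) I := by
    intro k
    have h1 := W.add h (Base.smul W W.cR k)
    simpa using h1
  refine ⟨R + (-((2 * R + p) / (2 * p))) * p, key _, ?_, ?_⟩
  · have h1 := Int.emod_add_mul_ediv (2 * R + p) (2 * p)
    have h2 := Int.emod_nonneg (2 * R + p) (show 2 * p ≠ 0 by omega)
    have h3 := hn _ (key (-((2 * R + p) / (2 * p)) + 1))
    rcases eq_or_lt_of_le h2 with h4 | h4
    · exfalso
      apply h3
      nlinarith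
    · nlinarith
  · have h1 := Int.emod_add_mul_ediv (2 * R + p) (2 * p)
    have h2 := Int.emod_lt_of_pos (2 * R + p) (show 0 < 2 * p by omega)
    nlinarith

theorem two_row (W : Base p a b c J ds l q D dl Cl) {N X Y : ℤ} {I : ℝ} (h : Cl N 0 X Y I)
    (hY : p = 2 * Y) : p ∣ 2 * N := by
  have h1 := W.add h h
  have h2 := (W.dvd h1).2 ⟨1, by linarith⟩
  rwa [← two_mul] at h2

/-- an element with a given abscissa, or an element with abscissa `0` -/
theorem labB (W : Base p a b c J ds l q D dl Cl) (hA : Aux p a b ds D Cl) {B : ℤ} (h0 : 0 < B)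
    (hB : 2 * B < p) :
    (∃ N R I, UFac p B D Cl N R I) ∨ (∃ N R I, VFac p D Cl N R I) ∨ (∃ N R I, WFac p D Cl N R I) := by
  have hp : 0 < p := by have := W.ha; have := W.h2a; omega
  have hp5 : 5 ≤ p := by have := W.ha; have := W.h2a; omega
  obtain ⟨Xe, Re, Ie, he, hR0, hRp, h2I, hpI⟩ := oneE' W hA
  have hc := he.cl
  have key : ∀ (n : ℤ) (k : ℤ), Cl n 0 (n * Xe + k * p) (n * Re) (n * Ie) := by
    intro n k
    have h1 := W.add (Base.smul W hc n) (Base.smul W W.cX k)
    simpa using h1
  have hIe : 0 < Ie := he.I0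
  have hpR : (0 : ℝ) < p := by exact_mod_cast hp
  by_cases hg : Int.gcd Xe p = 1
  · left
    -- `n * Xe = B` modulo `p`
    obtain ⟨n, hn⟩ : ∃ n : ℤ, p ∣ n * Xe - B := by
      have h1 := Int.gcd_eq_gcd_ab Xe p
      rw [hg] at h1
      refine ⟨B * Int.gcdA Xe p, -(B * Int.gcdB Xe p), ?_⟩
      push_cast at h1
      linear_combination (-B) * h1
    set m := n % p with hm
    have hm0 := Int.emod_nonneg n hp.ne'
    have hmp := Int.emod_lt_of_pos n hp
    have hd : p ∣ m * Xe - B := by
      have h1 : p ∣ (n - m) := by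
        rw [hm]; exact Int.dvd_self_sub_emod
      have h2 : p ∣ (n - m) * Xe := h1.mul_right _
      have h3 := dvd_sub hn h2
      have e : n * Xe - B - (n - m) * Xe = m * Xe - B := by ring
      rwa [e] at h3
    have hmne : m ≠ 0 := by
      intro h
      rw [h] at hd
      simp only [zero_mul, zero_sub, dvd_neg] at hd
      have := Int.le_of_dvd h0 hd
      omega
    have hm1 : 0 < m := lt_of_le_of_ne hm0 (Ne.symm hmne)
    obtain ⟨k, hk⟩ := hd
    have h1 := key m (-k)
    have e1 : m * Xe + -k * p = B := by linarith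
    rw [e1] at h1
    obtain ⟨R', h2, h3, h4⟩ := redR W h1 (by
      intro Y hY hY2
      have h5 := two_row W hY hY2
      have h6 := W.dvX (W.add hY hY) (by rwa [two_mul] at h5)
      rw [← two_mul] at h6
      have := Int.le_of_dvd (by omega) h6
      omega)
    refine ⟨m, R', m * Ie, h2, hm1, hmp, ?_, ?_, h3, h4⟩
    · have : (0 : ℝ) < m := by exact_mod_cast hm1
      positivity
    · rw [← hpI]
      exact mul_lt_mul_of_pos_right (by exact_mod_cast hmp) hIe
  · right
    obtain ⟨g, hgd⟩ : ∃ g : ℤ, g = ((Int.gcd Xe p : ℕ) : ℤ) := ⟨_, rfl⟩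
    have hg1 : g ∣ Xe := by rw [hgd]; exact Int.gcd_dvd_left ..
    have hg2 : g ∣ p := by rw [hgd]; exact Int.gcd_dvd_right ..
    have hg0 : 0 < g := by
      have : 0 < Int.gcd Xe p := Int.gcd_pos_of_ne_zero_right _ hp.ne'
      rw [hgd]
      exact_mod_cast this
    have hgne : g ≠ 1 := by
      intro h
      apply hg
      rw [hgd] at h
      exact_mod_cast h
    obtain ⟨x, hx⟩ := hg1
    obtain ⟨N, hN⟩ := hg2
    have hN0 : 0 < N := by
      by_contra h
      have : N ≤ 0 := by omega
      nlinarith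
    have h1 := key N (-x)
    have e1 : N * Xe + -x * p = 0 := by rw [hx, hN]; ring
    rw [e1] at h1
    have hNR : (0 : ℝ) < N := by exact_mod_cast hN0
    have hg22 : 2 ≤ g := by omega
    have h2N : 2 * N ≤ p := by
      rw [hN]
      exact mul_le_mul_of_nonneg_right hg22 hN0.le
    rcases lt_or_eq_of_le h2N with h3 | h3
    · left
      obtain ⟨R', h4, h5, h6⟩ := redR W h1 (by
        intro Y hY hY2
        have h5 := two_row W hY hY2
        have := Int.le_of_dvd (by omega) h5
        omega)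
      refine ⟨N, R', N * Ie, h4, hN0, h3, by positivity, ?_, h5, h6⟩
      rw [← hpI]
      have h7 : (2 : ℝ) * N < p := by exact_mod_cast h3
      nlinarith
    · right
      have h7 : (2 : ℝ) * N = p := by exact_mod_cast h3
      -- the row is `p / 2`
      have h8 : p ∣ 2 * (N * Re) := by
        have h9 := (W.dvd (W.add h1 h1)).1 ⟨1, by linarith⟩
        rwa [← two_mul] at h9
      have h10 : ¬ p ∣ N * Re := by
        intro h
        have h11 := (W.dvd h1).2 h
        have := Int.le_of_dvd hN0 h11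
        omega
      have h12 : N ∣ N * Re := dvd_mul_right _ _
      have hodd : ¬ 2 ∣ Re := by
        intro h
        apply h10
        rw [← h3]
        obtain ⟨t, ht⟩ := h
        exact ⟨t, by rw [ht]; ring⟩
      obtain ⟨t, ht⟩ : ∃ t, Re = 2 * t + 1 := ⟨Re / 2, by omega⟩
      have h13 := W.add h1 (Base.smul W W.cR (-t))
      have e2 : N * Re + -t * p = N := by rw [ht, ← h3]; ring
      refine ⟨N, N, N * Ie, ?_, hN0, h3, by positivity, ?_, h3⟩
      · rw [e2] at h13
        simpa using h13
      · rw [← hpI, ← h7]; ring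

/-- a cluster `v` as an element with abscissa `0` -/
theorem ufV {N R : ℤ} {I : ℝ} (h : VFac p D Cl N R I) : UFac p 0 D Cl N R I :=
  ⟨h.cl, h.N0, by have := h.N0; have := h.Np; omega, h.I0, by
    have h1 := h.I0
    have h2 := h.ID
    linarith, h.R1, h.R2⟩

end Helper55.TR
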