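import Pool.Agent.Helper11.CT.Clo

set_option autoImplicit false

/-!
# Names of small integers
-/

namespace Helper55.TR.Nm

def n0 : ℤ := Int.ofNat (nat_lit 0)
def n1 : ℤ := Int.ofNat (nat_lit 1)
def n2 : ℤ := Int.ofNat (nat_lit 2)
def n3 : ℤ := Int.ofNat (nat_lit 3)
def n4 : ℤ := Int.ofNat (nat_lit 4)
def n5 : ℤ := Int.ofNat (nat_lit 5)
def n6 : ℤ := Int.ofNat (nat_lit 6)
def n7 : ℤ := Int.ofNat (nat_lit 7)
def n8 : ℤ := Int.ofNat (nat_lit 8)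
def n9 : ℤ := Int.ofNat (nat_lit 9)
def m1 : ℤ := Int.negSucc (nat_lit 0)
def m2 : ℤ := Int.negSucc (nat_lit 1)
def m3 : ℤ := Int.negSucc (nat_lit 2)
def m4 : ℤ := Int.negSucc (nat_lit 3)
def m5 : ℤ := Int.negSucc (nat_lit 4)
def m6 : ℤ := Int.negSucc (nat_lit 5)
def m7 : ℤ := Int.negSucc (nat_lit 6)
def m8 : ℤ := Int.negSucc (nat_lit 7)
def m9 : ℤ := Int.negSucc (nat_lit 8)

theorem n0c : ((n0 : ℤ) : ℝ) = 0 := by rw [show n0 = 0 from rfl]; norm_num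
theorem n1c : ((n1 : ℤ) : ℝ) = 1 := by rw [show n1 = 1 from rfl]; norm_num
theorem n2c : ((n2 : ℤ) : ℝ) = 2 := by rw [show n2 = 2 from rfl]; norm_num
theorem n3c : ((n3 : ℤ) : ℝ) = 3 := by rw [show n3 = 3 from rfl]; norm_num
theorem n4c : ((n4 : ℤ) : ℝ) = 4 := by rw [show n4 = 4 from rfl]; norm_num
theorem n5c : ((n5 : ℤ) : ℝ) = 5 := by rw [show n5 = 5 from rfl]; norm_num
theorem n6c : ((n6 : ℤ) : ℝ) = 6 := by rw [show n6 = 6 from rfl]; norm_num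
theorem n7c : ((n7 : ℤ) : ℝ) = 7 := by rw [show n7 = 7 from rfl]; norm_num
theorem n8c : ((n8 : ℤ) : ℝ) = 8 := by rw [show n8 = 8 from rfl]; norm_num
theorem n9c : ((n9 : ℤ) : ℝ) = 9 := by rw [show n9 = 9 from rfl]; norm_num
theorem m1c : ((m1 : ℤ) : ℝ) = -1 := by rw [show m1 = -1 from rfl]; norm_num
theorem m2c : ((m2 : ℤ) : ℝ) = -2 := by rw [show m2 = -2 from rfl]; norm_num
theorem m3c : ((m3 : ℤ) : ℝ) = -3 := by rw [show m3 = -3 from rfl]; norm_num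
theorem m4c : ((m4 : ℤ) : ℝ) = -4 := by rw [show m4 = -4 from rfl]; norm_num
theorem m5c : ((m5 : ℤ) : ℝ) = -5 := by rw [show m5 = -5 from rfl]; norm_num
theorem m6c : ((m6 : ℤ) : ℝ) = -6 := by rw [show m6 = -6 from rfl]; norm_num
theorem m7c : ((m7 : ℤ) : ℝ) = -7 := by rw [show m7 = -7 from rfl]; norm_num
theorem m8c : ((m8 : ℤ) : ℝ) = -8 := by rw [show m8 = -8 from rfl]; norm_num
theorem m9c : ((m9 : ℤ) : ℝ) = -9 := by rw [show m9 = -9 from rfl]; norm_num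

end Helper55.TR.Nm
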