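import Pool.Agent.Helper55.TR.Enc
import Pool.Agent.Helper55.TR.Cls4

set_option autoImplicit false
set_option linter.unusedSectionVars false
set_option linter.unusedSimpArgs false
set_option linter.unusedVariables false

/-!
# Closed cells in list form, further kinds
-/

noncomputable section

namespace Helper55.TR

open Helper25.KG Helper25.KW Helper55.KE Helper11.CT

/-- facts which always hold -/
def stdK (ds : ℤ) : List Con :=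
  [(true, [-1, 1]),
   (true, [-1, 0, 1]),
   (true, [0, -2, 0, 0, 1]),
   (true, [0, 0, -2, 0, 1]),
   (true, [0, 0, 0, 0, 0, 1]),
   (true, [0, 1, 0, -1]),
   (true, [0, 1, 0, 1]),
   (false, [0, 0, 0, 0, 0, -1, 0, 0, 1]),
   (false, [0, 0, 0, 0, 1, 0, 0, 0, -2]),
   (false, [0, 0, 0, 0, 0, 0, 0, 0, 0, 1]),
   (false, [0, 0, 0, 0, 0, 0, 0, 0, 1, -1]),
   (false, [0, 0, 1, 0, 0, 0, -1, 0, 0, Int.neg ds]),
   (false, [0, 0, 1, 0, 0, 0, 1, 0, 0, ds]),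
   (false, [0, 1, 0, 0, 0, 0, -1, -1, 0, Int.neg ds]),
   (false, [0, 1, 0, 0, 0, 0, 1, 1, 0, ds])]

theorem DC.stdK {ds p a b c J l q : ℤ} {D dl : ℝ} {Cl : ℤ → ℤ → ℤ → ℤ → ℝ → Prop}
    {N X R : ℤ} {I : ℝ} {Nu Xu Ru : ℤ} {Iu : ℝ}
    (h : DC ds p a b c J l q D dl Cl N X R I Nu Xu Ru Iu) :
    ∀ q ∈ stdK ds, hld (xv [1, a, b, c, p, J, X, R] [D, I]) q := by
  have g := G0.of h.W.toBase h.hc
  have kz := KF.of h.hK
  have g1 := g.a2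
  have g2 := g.b2
  have g3 := g.pa
  have g4 := g.pb
  have g5 := g.J1
  have g6 := g.JD
  have g7 := g.D2
  have g8 := g.ca
  have g9 := g.ca'
  have k1 := kz.I0
  have k2 := kz.ID
  have k3 := kz.z1
  have k4 := kz.z2
  have k5 := kz.s1
  have k6 := kz.s2
  have hn : ((Int.neg ds : ℤ) : ℝ) = -(ds : ℝ) := by
    show ((-ds : ℤ) : ℝ) = _
    push_cast
    ring
  intro q hq
  have key : ∀ q ∈ ([(true, [-1, 1]),
   (true, [-1, 0, 1]),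
   (true, [0, -2, 0, 0, 1]),
   (true, [0, 0, -2, 0, 1]),
   (true, [0, 0, 0, 0, 0, 1]),
   (true, [0, 1, 0, -1]),
   (true, [0, 1, 0, 1]),
   (false, [0, 0, 0, 0, 0, -1, 0, 0, 1]),
   (false, [0, 0, 0, 0, 1, 0, 0, 0, -2]),
   (false, [0, 0, 0, 0, 0, 0, 0, 0, 0, 1]),
   (false, [0, 0, 0, 0, 0, 0, 0, 0, 1, -1]),
   (false, [0, 0, 1, 0, 0, 0, -1, 0, 0, Int.neg ds]),
   (false, [0, 0, 1, 0, 0, 0, 1, 0, 0, ds]),
   (false, [0, 1, 0, 0, 0, 0, -1, -1, 0, Int.neg ds]),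
   (false, [0, 1, 0, 0, 0, 0, 1, 1, 0, ds])] : List Con),
       hld (xv [1, a, b, c, p, J, X, R] [D, I]) q := by
      simp only [List.forall_mem_cons, List.not_mem_nil, false_imp_iff, implies_true,
        and_true, hld, xv, evg_cons, evg_nil, List.map_cons, List.map_nil, List.cons_append,
        List.nil_append, if_true, if_false, Bool.false_eq_true, hn]
      push_cast
      refine ⟨by linarith, by linarith, by linarith, by linarith, by linarith, by linarith, by linarith, by linarith, by linarith, by linarith, by linarith, by linarith, by linarith, by linarith, by linarith⟩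
  exact key q hq

/-- class data -/
def KK (ds : ℤ) : Cls :=
  cK ds (kfM ds [0, 0, 0, 0, 0, 0, 1, 0, 0, ds] [0, 0, 0, 0, 0, 0, 1, 1, 0, ds] true)

theorem GK.of {ds : ℤ} {Br : ℤ → ℝ → (ℤ → ℤ → ℤ → ℤ → ℝ → Prop) → Prop} {Q : List Con}
    (h : Clo (KK ds) (GK ds Br) Q) : GK ds Br Q := by
  intro p a b c J l q D dl Cl N X R I Nu Xu Ru Iu C hB hQ
  have hg : gl (KK ds) = true := by
    rcases C.W.hds with ⟨rfl, _⟩ | ⟨rfl, _⟩ <;> decide +kernel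
  have hkf : ∀ kf ∈ kfM ds [0, 0, 0, 0, 0, 0, 1, 0, 0, ds] [0, 0, 0, 0, 0, 0, 1, 1, 0, ds] true,
      KOk p l Cl ds (xv [1, a, b, c, p, J, X, R] [D, I]) N kf := by
    refine kok_M (R := R) (X := X) (I := I) (dg := true) C.hM rfl ?_ ?_ ?_ ?_ ?_ ?_ <;>
      simp [xv] <;> ring
  refine (val_K C.W.toBase (KCl.of C.hK) _).closed C.W hg (Nk := N) (fun kf _ _ => ⟨_, rfl⟩)
    hkf (H := GK ds Br) ?_ h hQ
  intro Q' h1 h2
  exact h1 C hB h2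

theorem GK.sub {ds : ℤ} {Br : ℤ → ℝ → (ℤ → ℤ → ℤ → ℤ → ℝ → Prop) → Prop} {L Q : List Con}
    (h : GK ds Br L) (n : ℕ) (hs : sbi (stdK ds ++ Q) L n = true) : GK ds Br Q := by
  intro p a b c J l q D dl Cl N X R I Nu Xu Ru Iu C hB hQ
  exact h C hB (sbi_hld (app_hld C.stdK hQ) hs)

/-- lift -/
theorem liftKU {a b c p J X R Rv : ℤ} {D I Iv : ℝ} {Q : List Con}
    (hl : lle 10 Q = true)
    (h : ∀ q ∈ Q, hld (xv [1, a, b, c, p, J, X, R] [D, I]) q) :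
    ∀ q ∈ Q.map (insC 8), hld (xv [1, a, b, c, p, J, X, R, Rv] [D, I, Iv]) q := by
  intro q hq
  obtain ⟨c', hc', rfl⟩ := List.mem_map.1 hq
  have h1 := h c' hc'
  have h0 : c'.2.length ≤ 10 := by
    have := List.all_eq_true.1 hl c' hc'
    simpa using this
  have h2 : hld ([(1 : ℝ), a, b, c, p, J, X, R] ++ [D, I, Iv]) c' := by
    have h3 := hld_app (y := Iv) (x := [(1 : ℝ), a, b, c, p, J, X, R, D, I]) h0
      (by simpa [xv] using h1)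
    simpa using h3
  have h4 : hld ([(1 : ℝ), a, b, c, p, J, X, R] ++ (Rv : ℝ) :: [D, I, Iv])
      (insC 8 c') := hld_insC (x1 := [(1 : ℝ), a, b, c, p, J, X, R]) h2
  simpa [xv] using h4

/-- lift -/
theorem liftUE {a b c p J X R Rv Xe : ℤ} {D I Iv Ie : ℝ} {Q : List Con}
    (hl : lle 12 Q = true)
    (h : ∀ q ∈ Q, hld (xv [1, a, b, c, p, J, X, R, Rv] [D, I, Iv]) q) :
    ∀ q ∈ Q.map (insC 9), hld (xv [1, a, b, c, p, J, X, R, Rv, Xe] [D, I, Iv, Ie]) q := by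
  intro q hq
  obtain ⟨c', hc', rfl⟩ := List.mem_map.1 hq
  have h1 := h c' hc'
  have h0 : c'.2.length ≤ 12 := by
    have := List.all_eq_true.1 hl c' hc'
    simpa using this
  have h2 : hld ([(1 : ℝ), a, b, c, p, J, X, R, Rv] ++ [D, I, Iv, Ie]) c' := by
    have h3 := hld_app (y := Ie) (x := [(1 : ℝ), a, b, c, p, J, X, R, Rv, D, I, Iv]) h0
      (by simpa [xv] using h1)
    simpa using h3
  have h4 : hld ([(1 : ℝ), a, b, c, p, J, X, R, Rv] ++ (Xe : ℝ) :: [D, I, Iv, Ie])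
      (insC 9 c') := hld_insC (x1 := [(1 : ℝ), a, b, c, p, J, X, R, Rv]) h2
  simpa [xv] using h4

/-- admissible rows -/
def Rok (row : List ℤ) : Prop :=
  row = [1] ∨ row = [0, 0, 1, 1] ∨ row = [0, 0, 0, 1] ∨ row = [0, 1] ∨ row = [0, 0, 1]

theorem exR {p a b c J ds l q : ℤ} {D dl : ℝ} {Cl : ℤ → ℤ → ℤ → ℤ → ℝ → Prop}
    (W : World p a b c J ds l q D dl Cl) (hc : -a < c) (hb2 : 2 * a ≤ b)
    (hA : Aux p a b ds D Cl) {row : List ℤ} (hr : Rok row) :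
    ∃ N X I, EFac p ds D Cl (evg [1, a, b, c] row) N X I := by
  refine hA.ecl _ ?_
  have h1 := W.ha
  have h2 := W.h2a
  have h3 := W.hb
  have h4 := W.h2b
  have h5 := W.hc0
  have h6 := W.hca
  have h7 := W.hca'
  intro h
  have key : |evg [1, a, b, c] row| < p := by
    rcases hr with rfl | rfl | rfl | rfl | rfl <;> simp only [evg_cons, evg_nil] <;>
      push_cast <;> rw [abs_lt] <;> constructor <;> omega
  have h8 := Int.eq_zero_of_abs_lt_dvd h key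
  revert h8
  rcases hr with rfl | rfl | rfl | rfl | rfl <;> simp only [evg_cons, evg_nil] <;>
    push_cast <;> intro h8 <;> omega

/-- closed cell over the variables `1 a b c p J X R Rv | D I Iv` -/
def GU (ds : ℤ) (Br : ℤ → ℝ → (ℤ → ℤ → ℤ → ℤ → ℝ → Prop) → Prop) (Q : List Con) : Prop :=
  ∀ {p a b c J l q : ℤ} {D dl : ℝ} {Cl : ℤ → ℤ → ℤ → ℤ → ℝ → Prop} {N X R : ℤ} {I : ℝ}
    {Nu Xu Ru : ℤ} {Iu : ℝ}, DC ds p a b c J l q D dl Cl N X R I Nu Xu Ru Iu → Br p D Cl →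
    ∀ {Nv Rv : ℤ} {Iv : ℝ}, UFac p b D Cl Nv Rv Iv →
    (∀ q ∈ Q, hld (xv [1, a, b, c, p, J, X, R, Rv] [D, I, Iv]) q) → False

/-- facts which always hold -/
def stdU (ds : ℤ) : List Con :=
  [(false, [0, 0, 0, 0, 0, 0, 0, 0, 0, 0, 0, 1]),
   (false, [0, 0, 0, 0, 0, 0, 0, 0, 0, 1, 0, -1]),
   (true, [0, 0, 0, 0, 1, 0, 0, 0, 2]),
   (true, [0, 0, 0, 0, 1, 0, 0, 0, -2]),
   (true, [-1, 1]),
   (true, [-1, 0, 1]),
   (true, [0, -2, 0, 0, 1]),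
   (true, [0, 0, -2, 0, 1]),
   (true, [0, 0, 0, 0, 0, 1]),
   (true, [0, 1, 0, -1]),
   (true, [0, 1, 0, 1]),
   (false, [0, 0, 0, 0, 0, -1, 0, 0, 0, 1]),
   (false, [0, 0, 0, 0, 1, 0, 0, 0, 0, -2]),
   (false, [0, 0, 0, 0, 0, 0, 0, 0, 0, 0, 1]),
   (false, [0, 0, 0, 0, 0, 0, 0, 0, 0, 1, -1]),
   (false, [0, 0, 1, 0, 0, 0, -1, 0, 0, 0, Int.neg ds]),
   (false, [0, 0, 1, 0, 0, 0, 1, 0, 0, 0, ds]),
   (false, [0, 1, 0, 0, 0, 0, -1, -1, 0, 0, Int.neg ds]),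
   (false, [0, 1, 0, 0, 0, 0, 1, 1, 0, 0, ds])]

theorem DC.stdU {ds p a b c J l q : ℤ} {D dl : ℝ} {Cl : ℤ → ℤ → ℤ → ℤ → ℝ → Prop}
    {N X R : ℤ} {I : ℝ} {Nu Xu Ru : ℤ} {Iu : ℝ}
    (h : DC ds p a b c J l q D dl Cl N X R I Nu Xu Ru Iu)
    {Nv Rv : ℤ} {Iv : ℝ} (hu : UFac p b D Cl Nv Rv Iv) :
    ∀ q ∈ Helper55.TR.stdU ds, hld (xv [1, a, b, c, p, J, X, R, Rv] [D, I, Iv]) q := by
  have g := G0.of h.W.toBase h.hc
  have kz := KF.of h.hK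
  have g1 := g.a2
  have g2 := g.b2
  have g3 := g.pa
  have g4 := g.pb
  have g5 := g.J1
  have g6 := g.JD
  have g7 := g.D2
  have g8 := g.ca
  have g9 := g.ca'
  have k1 := kz.I0
  have k2 := kz.ID
  have k3 := kz.z1
  have k4 := kz.z2
  have k5 := kz.s1
  have k6 := kz.s2
  have hn : ((Int.neg ds : ℤ) : ℝ) = -(ds : ℝ) := by
    show ((-ds : ℤ) : ℝ) = _
    push_cast
    ring
  have i1 := hu.I0
  have i2 := hu.ID
  have i3 : -(p : ℝ) + 1 ≤ 2 * Rv := by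
    exact_mod_cast (by have := hu.R1; omega : -p + 1 ≤ 2 * Rv)
  have i4 : 2 * (Rv : ℝ) + 1 ≤ p := by
    exact_mod_cast (by have := hu.R2; omega : 2 * Rv + 1 ≤ p)
  intro q hq
  have key : ∀ q ∈ ([(false, [0, 0, 0, 0, 0, 0, 0, 0, 0, 0, 0, 1]),
   (false, [0, 0, 0, 0, 0, 0, 0, 0, 0, 1, 0, -1]),
   (true, [0, 0, 0, 0, 1, 0, 0, 0, 2]),
   (true, [0, 0, 0, 0, 1, 0, 0, 0, -2]),
   (true, [-1, 1]),
   (true, [-1, 0, 1]),
   (true, [0, -2, 0, 0, 1]),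
   (true, [0, 0, -2, 0, 1]),
   (true, [0, 0, 0, 0, 0, 1]),
   (true, [0, 1, 0, -1]),
   (true, [0, 1, 0, 1]),
   (false, [0, 0, 0, 0, 0, -1, 0, 0, 0, 1]),
   (false, [0, 0, 0, 0, 1, 0, 0, 0, 0, -2]),
   (false, [0, 0, 0, 0, 0, 0, 0, 0, 0, 0, 1]),
   (false, [0, 0, 0, 0, 0, 0, 0, 0, 0, 1, -1]),
   (false, [0, 0, 1, 0, 0, 0, -1, 0, 0, 0, Int.neg ds]),
   (false, [0, 0, 1, 0, 0, 0, 1, 0, 0, 0, ds]),
   (false, [0, 1, 0, 0, 0, 0, -1, -1, 0, 0, Int.neg ds]),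
   (false, [0, 1, 0, 0, 0, 0, 1, 1, 0, 0, ds])] : List Con),
       hld (xv [1, a, b, c, p, J, X, R, Rv] [D, I, Iv]) q := by
      simp only [List.forall_mem_cons, List.not_mem_nil, false_imp_iff, implies_true,
        and_true, hld, xv, evg_cons, evg_nil, List.map_cons, List.map_nil, List.cons_append,
        List.nil_append, if_true, if_false, Bool.false_eq_true, hn]
      push_cast
      refine ⟨by linarith, by linarith, by linarith, by linarith, by linarith, by linarith, by linarith, by linarith, by linarith, by linarith, by linarith, by linarith, by linarith, by linarith, by linarith, by linarith, by linarith, by linarith, by linarith⟩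
  exact key q hq

/-- class data -/
def KU (ds : ℤ) : Cls :=
  cU ds true (kfM ds [0, 0, 0, 0, 0, 0, 1, 0, 0, 0, ds] [0, 0, 0, 0, 0, 0, 1, 1, 0, 0, ds] true)

theorem GU.of {ds : ℤ} {Br : ℤ → ℝ → (ℤ → ℤ → ℤ → ℤ → ℝ → Prop) → Prop} {Q : List Con}
    (h : Clo (KU ds) (GU ds Br) Q) : GU ds Br Q := by
  intro p a b c J l q D dl Cl N X R I Nu Xu Ru Iu C hB Nv Rv Iv hu hQ
  have hg : gl (KU ds) = true := by
    rcases C.W.hds with ⟨rfl, _⟩ | ⟨rfl, _⟩ <;> rfl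
  have hkf : ∀ kf ∈ kfM ds [0, 0, 0, 0, 0, 0, 1, 0, 0, 0, ds] [0, 0, 0, 0, 0, 0, 1, 1, 0, 0, ds] true,
      KOk p l Cl ds (xv [1, a, b, c, p, J, X, R, Rv] [D, I, Iv]) N kf := by
    refine kok_M (R := R) (X := X) (I := I) (dg := true) C.hM rfl ?_ ?_ ?_ ?_ ?_ ?_ <;>
      simp [xv] <;> ring
  refine (val_U C.W.toBase (KCl.of C.hK) (UV.ofU hu) _).closed C.W hg (Nk := N) (fun kf _ _ => ⟨_, rfl⟩)
    hkf (H := GU ds Br) ?_ h hQ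
  intro Q' h1 h2
  exact h1 C hB hu h2

theorem GU.sub {ds : ℤ} {Br : ℤ → ℝ → (ℤ → ℤ → ℤ → ℤ → ℝ → Prop) → Prop} {L Q : List Con}
    (h : GU ds Br L) (n : ℕ) (hs : sbi (stdU ds ++ Q) L n = true) : GU ds Br Q := by
  intro p a b c J l q D dl Cl N X R I Nu Xu Ru Iu C hB Nv Rv Iv hu hQ
  exact h C hB hu (sbi_hld (app_hld (C.stdU hu) hQ) hs)

/-- closed cell over the variables `1 a b c p J X R Rv | D I Iv` -/
def GV (ds : ℤ) (Br : ℤ → ℝ → (ℤ → ℤ → ℤ → ℤ → ℝ → Prop) → Prop) (Q : List Con) : Prop :=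
  ∀ {p a b c J l q : ℤ} {D dl : ℝ} {Cl : ℤ → ℤ → ℤ → ℤ → ℝ → Prop} {N X R : ℤ} {I : ℝ}
    {Nu Xu Ru : ℤ} {Iu : ℝ}, DC ds p a b c J l q D dl Cl N X R I Nu Xu Ru Iu → Br p D Cl →
    ∀ {Nv Rv : ℤ} {Iv : ℝ}, VFac p D Cl Nv Rv Iv →
    (∀ q ∈ Q, hld (xv [1, a, b, c, p, J, X, R, Rv] [D, I, Iv]) q) → False

/-- facts which always hold -/
def stdV (ds : ℤ) : List Con :=
  [(false, [0, 0, 0, 0, 0, 0, 0, 0, 0, 0, 0, 1]),
   (false, [0, 0, 0, 0, 0, 0, 0, 0, 0, 1, 0, -2]),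
   (true, [0, 0, 0, 0, 1, 0, 0, 0, 2]),
   (true, [0, 0, 0, 0, 1, 0, 0, 0, -2]),
   (true, [-1, 1]),
   (true, [-1, 0, 1]),
   (true, [0, -2, 0, 0, 1]),
   (true, [0, 0, -2, 0, 1]),
   (true, [0, 0, 0, 0, 0, 1]),
   (true, [0, 1, 0, -1]),
   (true, [0, 1, 0, 1]),
   (false, [0, 0, 0, 0, 0, -1, 0, 0, 0, 1]),
   (false, [0, 0, 0, 0, 1, 0, 0, 0, 0, -2]),
   (false, [0, 0, 0, 0, 0, 0, 0, 0, 0, 0, 1]),
   (false, [0, 0, 0, 0, 0, 0, 0, 0, 0, 1, -1]),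
   (false, [0, 0, 1, 0, 0, 0, -1, 0, 0, 0, Int.neg ds]),
   (false, [0, 0, 1, 0, 0, 0, 1, 0, 0, 0, ds]),
   (false, [0, 1, 0, 0, 0, 0, -1, -1, 0, 0, Int.neg ds]),
   (false, [0, 1, 0, 0, 0, 0, 1, 1, 0, 0, ds])]

theorem DC.stdV {ds p a b c J l q : ℤ} {D dl : ℝ} {Cl : ℤ → ℤ → ℤ → ℤ → ℝ → Prop}
    {N X R : ℤ} {I : ℝ} {Nu Xu Ru : ℤ} {Iu : ℝ}
    (h : DC ds p a b c J l q D dl Cl N X R I Nu Xu Ru Iu)
    {Nv Rv : ℤ} {Iv : ℝ} (hu : VFac p D Cl Nv Rv Iv) :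
    ∀ q ∈ Helper55.TR.stdV ds, hld (xv [1, a, b, c, p, J, X, R, Rv] [D, I, Iv]) q := by
  have g := G0.of h.W.toBase h.hc
  have kz := KF.of h.hK
  have g1 := g.a2
  have g2 := g.b2
  have g3 := g.pa
  have g4 := g.pb
  have g5 := g.J1
  have g6 := g.JD
  have g7 := g.D2
  have g8 := g.ca
  have g9 := g.ca'
  have k1 := kz.I0
  have k2 := kz.ID
  have k3 := kz.z1
  have k4 := kz.z2
  have k5 := kz.s1
  have k6 := kz.s2
  have hn : ((Int.neg ds : ℤ) : ℝ) = -(ds : ℝ) := by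
    show ((-ds : ℤ) : ℝ) = _
    push_cast
    ring
  have i1 := hu.I0
  have i2 := hu.ID
  have i3 : -(p : ℝ) + 1 ≤ 2 * Rv := by
    exact_mod_cast (by have := hu.R1; omega : -p + 1 ≤ 2 * Rv)
  have i4 : 2 * (Rv : ℝ) + 1 ≤ p := by
    exact_mod_cast (by have := hu.R2; omega : 2 * Rv + 1 ≤ p)
  intro q hq
  have key : ∀ q ∈ ([(false, [0, 0, 0, 0, 0, 0, 0, 0, 0, 0, 0, 1]),
   (false, [0, 0, 0, 0, 0, 0, 0, 0, 0, 1, 0, -2]),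
   (true, [0, 0, 0, 0, 1, 0, 0, 0, 2]),
   (true, [0, 0, 0, 0, 1, 0, 0, 0, -2]),
   (true, [-1, 1]),
   (true, [-1, 0, 1]),
   (true, [0, -2, 0, 0, 1]),
   (true, [0, 0, -2, 0, 1]),
   (true, [0, 0, 0, 0, 0, 1]),
   (true, [0, 1, 0, -1]),
   (true, [0, 1, 0, 1]),
   (false, [0, 0, 0, 0, 0, -1, 0, 0, 0, 1]),
   (false, [0, 0, 0, 0, 1, 0, 0, 0, 0, -2]),
   (false, [0, 0, 0, 0, 0, 0, 0, 0, 0, 0, 1]),
   (false, [0, 0, 0, 0, 0, 0, 0, 0, 0, 1, -1]),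
   (false, [0, 0, 1, 0, 0, 0, -1, 0, 0, 0, Int.neg ds]),
   (false, [0, 0, 1, 0, 0, 0, 1, 0, 0, 0, ds]),
   (false, [0, 1, 0, 0, 0, 0, -1, -1, 0, 0, Int.neg ds]),
   (false, [0, 1, 0, 0, 0, 0, 1, 1, 0, 0, ds])] : List Con),
       hld (xv [1, a, b, c, p, J, X, R, Rv] [D, I, Iv]) q := by
      simp only [List.forall_mem_cons, List.not_mem_nil, false_imp_iff, implies_true,
        and_true, hld, xv, evg_cons, evg_nil, List.map_cons, List.map_nil, List.cons_append,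
        List.nil_append, if_true, if_false, Bool.false_eq_true, hn]
      push_cast
      refine ⟨by linarith, by linarith, by linarith, by linarith, by linarith, by linarith, by linarith, by linarith, by linarith, by linarith, by linarith, by linarith, by linarith, by linarith, by linarith, by linarith, by linarith, by linarith, by linarith⟩
  exact key q hq

/-- class data -/
def KV (ds : ℤ) : Cls :=
  cU ds false (kfM ds [0, 0, 0, 0, 0, 0, 1, 0, 0, 0, ds] [0, 0, 0, 0, 0, 0, 1, 1, 0, 0, ds] true)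

theorem GV.of {ds : ℤ} {Br : ℤ → ℝ → (ℤ → ℤ → ℤ → ℤ → ℝ → Prop) → Prop} {Q : List Con}
    (h : Clo (KV ds) (GV ds Br) Q) : GV ds Br Q := by
  intro p a b c J l q D dl Cl N X R I Nu Xu Ru Iu C hB Nv Rv Iv hu hQ
  have hg : gl (KV ds) = true := by
    rcases C.W.hds with ⟨rfl, _⟩ | ⟨rfl, _⟩ <;> rfl
  have hkf : ∀ kf ∈ kfM ds [0, 0, 0, 0, 0, 0, 1, 0, 0, 0, ds] [0, 0, 0, 0, 0, 0, 1, 1, 0, 0, ds] true,
      KOk p l Cl ds (xv [1, a, b, c, p, J, X, R, Rv] [D, I, Iv]) N kf := by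
    refine kok_M (R := R) (X := X) (I := I) (dg := true) C.hM rfl ?_ ?_ ?_ ?_ ?_ ?_ <;>
      simp [xv] <;> ring
  refine (val_U C.W.toBase (KCl.of C.hK) (UV.ofV hu) _).closed C.W hg (Nk := N) (fun kf _ _ => ⟨_, rfl⟩)
    hkf (H := GV ds Br) ?_ h hQ
  intro Q' h1 h2
  exact h1 C hB hu h2

theorem GV.sub {ds : ℤ} {Br : ℤ → ℝ → (ℤ → ℤ → ℤ → ℤ → ℝ → Prop) → Prop} {L Q : List Con}
    (h : GV ds Br L) (n : ℕ) (hs : sbi (stdV ds ++ Q) L n = true) : GV ds Br Q := by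
  intro p a b c J l q D dl Cl N X R I Nu Xu Ru Iu C hB Nv Rv Iv hu hQ
  exact h C hB hu (sbi_hld (app_hld (C.stdV hu) hQ) hs)

/-- closed cell over the variables `1 a b c p J X R Rv | D I Iv` -/
def GX (ds : ℤ) (Br : ℤ → ℝ → (ℤ → ℤ → ℤ → ℤ → ℝ → Prop) → Prop) (xu : List ℤ) (Q : List Con) : Prop :=
  ∀ {p a b c J l q : ℤ} {D dl : ℝ} {Cl : ℤ → ℤ → ℤ → ℤ → ℝ → Prop} {N X R : ℤ} {I : ℝ}
    {Nu Xu Ru : ℤ} {Iu : ℝ}, DC ds p a b c J l q D dl Cl N X R I Nu Xu Ru Iu → Br p D Cl →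
    ∀ {Nv Rv : ℤ} {Iv : ℝ}, UFac p (evg [1, a, b, c, p, J] xu) D Cl Nv Rv Iv →
    (∀ q ∈ Q, hld (xv [1, a, b, c, p, J, X, R, Rv] [D, I, Iv]) q) → False

/-- facts which always hold -/
def stdX (ds : ℤ) : List Con :=
  [(false, [0, 0, 0, 0, 0, 0, 0, 0, 0, 0, 0, 1]),
   (false, [0, 0, 0, 0, 0, 0, 0, 0, 0, 1, 0, -1]),
   (true, [0, 0, 0, 0, 1, 0, 0, 0, 2]),
   (true, [0, 0, 0, 0, 1, 0, 0, 0, -2]),
   (true, [-1, 1]),
   (true, [-1, 0, 1]),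
   (true, [0, -2, 0, 0, 1]),
   (true, [0, 0, -2, 0, 1]),
   (true, [0, 0, 0, 0, 0, 1]),
   (true, [0, 1, 0, -1]),
   (true, [0, 1, 0, 1]),
   (false, [0, 0, 0, 0, 0, -1, 0, 0, 0, 1]),
   (false, [0, 0, 0, 0, 1, 0, 0, 0, 0, -2]),
   (false, [0, 0, 0, 0, 0, 0, 0, 0, 0, 0, 1]),
   (false, [0, 0, 0, 0, 0, 0, 0, 0, 0, 1, -1]),
   (false, [0, 0, 1, 0, 0, 0, -1, 0, 0, 0, Int.neg ds]),
   (false, [0, 0, 1, 0, 0, 0, 1, 0, 0, 0, ds]),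
   (false, [0, 1, 0, 0, 0, 0, -1, -1, 0, 0, Int.neg ds]),
   (false, [0, 1, 0, 0, 0, 0, 1, 1, 0, 0, ds])]

theorem DC.stdX {ds p a b c J l q : ℤ} {D dl : ℝ} {Cl : ℤ → ℤ → ℤ → ℤ → ℝ → Prop}
    {N X R : ℤ} {I : ℝ} {Nu Xu Ru : ℤ} {Iu : ℝ}
    (h : DC ds p a b c J l q D dl Cl N X R I Nu Xu Ru Iu) {xu : List ℤ}
    {Nv Rv : ℤ} {Iv : ℝ} (hu : UFac p (evg [1, a, b, c, p, J] xu) D Cl Nv Rv Iv) :
    ∀ q ∈ Helper55.TR.stdX ds, hld (xv [1, a, b, c, p, J, X, R, Rv] [D, I, Iv]) q := by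
  have g := G0.of h.W.toBase h.hc
  have kz := KF.of h.hK
  have g1 := g.a2
  have g2 := g.b2
  have g3 := g.pa
  have g4 := g.pb
  have g5 := g.J1
  have g6 := g.JD
  have g7 := g.D2
  have g8 := g.ca
  have g9 := g.ca'
  have k1 := kz.I0
  have k2 := kz.ID
  have k3 := kz.z1
  have k4 := kz.z2
  have k5 := kz.s1
  have k6 := kz.s2
  have hn : ((Int.neg ds : ℤ) : ℝ) = -(ds : ℝ) := by
    show ((-ds : ℤ) : ℝ) = _
    push_cast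
    ring
  have i1 := hu.I0
  have i2 := hu.ID
  have i3 : -(p : ℝ) + 1 ≤ 2 * Rv := by
    exact_mod_cast (by have := hu.R1; omega : -p + 1 ≤ 2 * Rv)
  have i4 : 2 * (Rv : ℝ) + 1 ≤ p := by
    exact_mod_cast (by have := hu.R2; omega : 2 * Rv + 1 ≤ p)
  intro q hq
  have key : ∀ q ∈ ([(false, [0, 0, 0, 0, 0, 0, 0, 0, 0, 0, 0, 1]),
   (false, [0, 0, 0, 0, 0, 0, 0, 0, 0, 1, 0, -1]),
   (true, [0, 0, 0, 0, 1, 0, 0, 0, 2]),
   (true, [0, 0, 0, 0, 1, 0, 0, 0, -2]),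
   (true, [-1, 1]),
   (true, [-1, 0, 1]),
   (true, [0, -2, 0, 0, 1]),
   (true, [0, 0, -2, 0, 1]),
   (true, [0, 0, 0, 0, 0, 1]),
   (true, [0, 1, 0, -1]),
   (true, [0, 1, 0, 1]),
   (false, [0, 0, 0, 0, 0, -1, 0, 0, 0, 1]),
   (false, [0, 0, 0, 0, 1, 0, 0, 0, 0, -2]),
   (false, [0, 0, 0, 0, 0, 0, 0, 0, 0, 0, 1]),
   (false, [0, 0, 0, 0, 0, 0, 0, 0, 0, 1, -1]),
   (false, [0, 0, 1, 0, 0, 0, -1, 0, 0, 0, Int.neg ds]),
   (false, [0, 0, 1, 0, 0, 0, 1, 0, 0, 0, ds]),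
   (false, [0, 1, 0, 0, 0, 0, -1, -1, 0, 0, Int.neg ds]),
   (false, [0, 1, 0, 0, 0, 0, 1, 1, 0, 0, ds])] : List Con),
       hld (xv [1, a, b, c, p, J, X, R, Rv] [D, I, Iv]) q := by
      simp only [List.forall_mem_cons, List.not_mem_nil, false_imp_iff, implies_true,
        and_true, hld, xv, evg_cons, evg_nil, List.map_cons, List.map_nil, List.cons_append,
        List.nil_append, if_true, if_false, Bool.false_eq_true, hn]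
      push_cast
      refine ⟨by linarith, by linarith, by linarith, by linarith, by linarith, by linarith, by linarith, by linarith, by linarith, by linarith, by linarith, by linarith, by linarith, by linarith, by linarith, by linarith, by linarith, by linarith, by linarith⟩
  exact key q hq

/-- class data -/
def KX (ds : ℤ) (xu : List ℤ) : Cls :=
  cX ds xu (kfM ds [0, 0, 0, 0, 0, 0, 1, 0, 0, 0, ds] [0, 0, 0, 0, 0, 0, 1, 1, 0, 0, ds] true)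

theorem GX.of {ds : ℤ} {Br : ℤ → ℝ → (ℤ → ℤ → ℤ → ℤ → ℝ → Prop) → Prop} {xu : List ℤ} {Q : List Con} (hx : Xok xu)
    (h : Clo (KX ds xu) (GX ds Br xu) Q) : GX ds Br xu Q := by
  intro p a b c J l q D dl Cl N X R I Nu Xu Ru Iu C hB Nv Rv Iv hu hQ
  have hg : gl (KX ds xu) = true := by
    rcases C.W.hds with ⟨rfl, _⟩ | ⟨rfl, _⟩ <;> rfl
  have hkf : ∀ kf ∈ kfM ds [0, 0, 0, 0, 0, 0, 1, 0, 0, 0, ds] [0, 0, 0, 0, 0, 0, 1, 1, 0, 0, ds] true,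
      KOk p l Cl ds (xv [1, a, b, c, p, J, X, R, Rv] [D, I, Iv]) N kf := by
    refine kok_M (R := R) (X := X) (I := I) (dg := true) C.hM rfl ?_ ?_ ?_ ?_ ?_ ?_ <;>
      simp [xv] <;> ring
  refine (val_X C.W.toBase (KCl.of C.hK) hu (xu := xu) (by rcases hx with rfl | rfl | rfl | rfl <;> simp) (by rcases hx with rfl | rfl | rfl | rfl <;> simp) _).closed C.W hg (Nk := N) (fun kf _ _ => ⟨_, rfl⟩)
    hkf (H := GX ds Br xu) ?_ h hQ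
  intro Q' h1 h2
  exact h1 C hB hu h2

theorem GX.sub {ds : ℤ} {Br : ℤ → ℝ → (ℤ → ℤ → ℤ → ℤ → ℝ → Prop) → Prop} {xu : List ℤ} {L Q : List Con}
    (h : GX ds Br xu L) (n : ℕ) (hs : sbi (stdX ds ++ Q) L n = true) : GX ds Br xu Q := by
  intro p a b c J l q D dl Cl N X R I Nu Xu Ru Iu C hB Nv Rv Iv hu hQ
  exact h C hB hu (sbi_hld (app_hld (C.stdX hu) hQ) hs)

/-- closed cell over the variables `1 a b c p J X R Rv Xe | D I Iv Ie` -/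
def GUE (ds : ℤ) (Br : ℤ → ℝ → (ℤ → ℤ → ℤ → ℤ → ℝ → Prop) → Prop) (row : List ℤ) (Q : List Con) : Prop :=
  ∀ {p a b c J l q : ℤ} {D dl : ℝ} {Cl : ℤ → ℤ → ℤ → ℤ → ℝ → Prop} {N X R : ℤ} {I : ℝ}
    {Nu Xu Ru : ℤ} {Iu : ℝ}, DC ds p a b c J l q D dl Cl N X R I Nu Xu Ru Iu → Br p D Cl →
    ∀ {Nv Rv : ℤ} {Iv : ℝ} {Ne Xe : ℤ} {Ie : ℝ}, UFac p b D Cl Nv Rv Iv → EFac p ds D Cl (evg [1, a, b, c] row) Ne Xe Ie →
    (∀ q ∈ Q, hld (xv [1, a, b, c, p, J, X, R, Rv, Xe] [D, I, Iv, Ie]) q) → False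

/-- facts which always hold -/
def stdUE (ds : ℤ) : List Con :=
  [(false, [0, 0, 0, 0, 0, 0, 0, 0, 0, 0, 0, 0, 0, 1]),
   (false, [0, 0, 0, 0, 0, 0, 0, 0, 0, 0, 1, 0, 0, -1]),
   (false, [0, 0, 0, 0, 0, 0, 0, 0, 0, 1, 0, 0, 0, ds]),
   (false, [0, 0, 0, 0, 1, 0, 0, 0, 0, -1, 0, 0, 0, Int.neg ds]),
   (false, [0, 0, 0, 0, 0, 0, 0, 0, 0, 0, 0, 0, 1]),
   (false, [0, 0, 0, 0, 0, 0, 0, 0, 0, 0, 1, 0, -1]),
   (true, [0, 0, 0, 0, 1, 0, 0, 0, 2]),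
   (true, [0, 0, 0, 0, 1, 0, 0, 0, -2]),
   (true, [-1, 1]),
   (true, [-1, 0, 1]),
   (true, [0, -2, 0, 0, 1]),
   (true, [0, 0, -2, 0, 1]),
   (true, [0, 0, 0, 0, 0, 1]),
   (true, [0, 1, 0, -1]),
   (true, [0, 1, 0, 1]),
   (false, [0, 0, 0, 0, 0, -1, 0, 0, 0, 0, 1]),
   (false, [0, 0, 0, 0, 1, 0, 0, 0, 0, 0, -2]),
   (false, [0, 0, 0, 0, 0, 0, 0, 0, 0, 0, 0, 1]),
   (false, [0, 0, 0, 0, 0, 0, 0, 0, 0, 0, 1, -1]),
   (false, [0, 0, 1, 0, 0, 0, -1, 0, 0, 0, 0, Int.neg ds]),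
   (false, [0, 0, 1, 0, 0, 0, 1, 0, 0, 0, 0, ds]),
   (false, [0, 1, 0, 0, 0, 0, -1, -1, 0, 0, 0, Int.neg ds]),
   (false, [0, 1, 0, 0, 0, 0, 1, 1, 0, 0, 0, ds])]

theorem DC.stdUE {ds p a b c J l q : ℤ} {D dl : ℝ} {Cl : ℤ → ℤ → ℤ → ℤ → ℝ → Prop}
    {N X R : ℤ} {I : ℝ} {Nu Xu Ru : ℤ} {Iu : ℝ}
    (h : DC ds p a b c J l q D dl Cl N X R I Nu Xu Ru Iu) {row : List ℤ}
    {Nv Rv : ℤ} {Iv : ℝ} {Ne Xe : ℤ} {Ie : ℝ} (hu : UFac p b D Cl Nv Rv Iv) (he : EFac p ds D Cl (evg [1, a, b, c] row) Ne Xe Ie) :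
    ∀ q ∈ Helper55.TR.stdUE ds, hld (xv [1, a, b, c, p, J, X, R, Rv, Xe] [D, I, Iv, Ie]) q := by
  have g := G0.of h.W.toBase h.hc
  have kz := KF.of h.hK
  have g1 := g.a2
  have g2 := g.b2
  have g3 := g.pa
  have g4 := g.pb
  have g5 := g.J1
  have g6 := g.JD
  have g7 := g.D2
  have g8 := g.ca
  have g9 := g.ca'
  have k1 := kz.I0
  have k2 := kz.ID
  have k3 := kz.z1
  have k4 := kz.z2
  have k5 := kz.s1
  have k6 := kz.s2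
  have hn : ((Int.neg ds : ℤ) : ℝ) = -(ds : ℝ) := by
    show ((-ds : ℤ) : ℝ) = _
    push_cast
    ring
  have i1 := hu.I0
  have i2 := hu.ID
  have i3 : -(p : ℝ) + 1 ≤ 2 * Rv := by
    exact_mod_cast (by have := hu.R1; omega : -p + 1 ≤ 2 * Rv)
  have i4 : 2 * (Rv : ℝ) + 1 ≤ p := by
    exact_mod_cast (by have := hu.R2; omega : 2 * Rv + 1 ≤ p)
  have e1 := he.I0
  have e2 := he.ID
  have e3 := he.x0
  have e4 := he.xp
  intro q hq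
  have key : ∀ q ∈ ([(false, [0, 0, 0, 0, 0, 0, 0, 0, 0, 0, 0, 0, 0, 1]),
   (false, [0, 0, 0, 0, 0, 0, 0, 0, 0, 0, 1, 0, 0, -1]),
   (false, [0, 0, 0, 0, 0, 0, 0, 0, 0, 1, 0, 0, 0, ds]),
   (false, [0, 0, 0, 0, 1, 0, 0, 0, 0, -1, 0, 0, 0, Int.neg ds]),
   (false, [0, 0, 0, 0, 0, 0, 0, 0, 0, 0, 0, 0, 1]),
   (false, [0, 0, 0, 0, 0, 0, 0, 0, 0, 0, 1, 0, -1]),
   (true, [0, 0, 0, 0, 1, 0, 0, 0, 2]),
   (true, [0, 0, 0, 0, 1, 0, 0, 0, -2]),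
   (true, [-1, 1]),
   (true, [-1, 0, 1]),
   (true, [0, -2, 0, 0, 1]),
   (true, [0, 0, -2, 0, 1]),
   (true, [0, 0, 0, 0, 0, 1]),
   (true, [0, 1, 0, -1]),
   (true, [0, 1, 0, 1]),
   (false, [0, 0, 0, 0, 0, -1, 0, 0, 0, 0, 1]),
   (false, [0, 0, 0, 0, 1, 0, 0, 0, 0, 0, -2]),
   (false, [0, 0, 0, 0, 0, 0, 0, 0, 0, 0, 0, 1]),
   (false, [0, 0, 0, 0, 0, 0, 0, 0, 0, 0, 1, -1]),
   (false, [0, 0, 1, 0, 0, 0, -1, 0, 0, 0, 0, Int.neg ds]),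
   (false, [0, 0, 1, 0, 0, 0, 1, 0, 0, 0, 0, ds]),
   (false, [0, 1, 0, 0, 0, 0, -1, -1, 0, 0, 0, Int.neg ds]),
   (false, [0, 1, 0, 0, 0, 0, 1, 1, 0, 0, 0, ds])] : List Con),
       hld (xv [1, a, b, c, p, J, X, R, Rv, Xe] [D, I, Iv, Ie]) q := by
      simp only [List.forall_mem_cons, List.not_mem_nil, false_imp_iff, implies_true,
        and_true, hld, xv, evg_cons, evg_nil, List.map_cons, List.map_nil, List.cons_append,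
        List.nil_append, if_true, if_false, Bool.false_eq_true, hn]
      push_cast
      refine ⟨by linarith, by linarith, by linarith, by linarith, by linarith, by linarith, by linarith, by linarith, by linarith, by linarith, by linarith, by linarith, by linarith, by linarith, by linarith, by linarith, by linarith, by linarith, by linarith, by linarith, by linarith, by linarith, by linarith⟩
  exact key q hq

/-- class data -/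
def KUE (ds : ℤ) (row : List ℤ) : Cls :=
  cUE ds true row (kfM ds [0, 0, 0, 0, 0, 0, 1, 0, 0, 0, 0, ds] [0, 0, 0, 0, 0, 0, 1, 1, 0, 0, 0, ds] true)

theorem GUE.of {ds : ℤ} {Br : ℤ → ℝ → (ℤ → ℤ → ℤ → ℤ → ℝ → Prop) → Prop} {row : List ℤ} {Q : List Con} (hr : Rok row)
    (h : Clo (KUE ds row) (GUE ds Br row) Q) : GUE ds Br row Q := by
  intro p a b c J l q D dl Cl N X R I Nu Xu Ru Iu C hB Nv Rv Iv Ne Xe Ie hu he hQ
  have hg : gl (KUE ds row) = true := by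
    rcases C.W.hds with ⟨rfl, _⟩ | ⟨rfl, _⟩ <;> rfl
  have hkf : ∀ kf ∈ kfM ds [0, 0, 0, 0, 0, 0, 1, 0, 0, 0, 0, ds] [0, 0, 0, 0, 0, 0, 1, 1, 0, 0, 0, ds] true,
      KOk p l Cl ds (xv [1, a, b, c, p, J, X, R, Rv, Xe] [D, I, Iv, Ie]) N kf := by
    refine kok_M (R := R) (X := X) (I := I) (dg := true) C.hM rfl ?_ ?_ ?_ ?_ ?_ ?_ <;>
      simp [xv] <;> ring
  refine (val_UE C.W.toBase (KCl.of C.hK) (UV.ofU hu) he (row := row) (by rcases hr with rfl | rfl | rfl | rfl | rfl <;> simp) (by rcases hr with rfl | rfl | rfl | rfl | rfl <;> simp) _).closed C.W hg (Nk := N) (fun kf _ _ => ⟨_, rfl⟩)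
    hkf (H := GUE ds Br row) ?_ h hQ
  intro Q' h1 h2
  exact h1 C hB hu he h2

theorem GUE.sub {ds : ℤ} {Br : ℤ → ℝ → (ℤ → ℤ → ℤ → ℤ → ℝ → Prop) → Prop} {row : List ℤ} {L Q : List Con}
    (h : GUE ds Br row L) (n : ℕ) (hs : sbi (stdUE ds ++ Q) L n = true) : GUE ds Br row Q := by
  intro p a b c J l q D dl Cl N X R I Nu Xu Ru Iu C hB Nv Rv Iv Ne Xe Ie hu he hQ
  exact h C hB hu he (sbi_hld (app_hld (C.stdUE hu he) hQ) hs)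

/-- closed cell over the variables `1 a b c p J X R Rv Xe | D I Iv Ie` -/
def GVE (ds : ℤ) (Br : ℤ → ℝ → (ℤ → ℤ → ℤ → ℤ → ℝ → Prop) → Prop) (row : List ℤ) (Q : List Con) : Prop :=
  ∀ {p a b c J l q : ℤ} {D dl : ℝ} {Cl : ℤ → ℤ → ℤ → ℤ → ℝ → Prop} {N X R : ℤ} {I : ℝ}
    {Nu Xu Ru : ℤ} {Iu : ℝ}, DC ds p a b c J l q D dl Cl N X R I Nu Xu Ru Iu → Br p D Cl →
    ∀ {Nv Rv : ℤ} {Iv : ℝ} {Ne Xe : ℤ} {Ie : ℝ}, VFac p D Cl Nv Rv Iv → EFac p ds D Cl (evg [1, a, b, c] row) Ne Xe Ie →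
    (∀ q ∈ Q, hld (xv [1, a, b, c, p, J, X, R, Rv, Xe] [D, I, Iv, Ie]) q) → False

/-- facts which always hold -/
def stdVE (ds : ℤ) : List Con :=
  [(false, [0, 0, 0, 0, 0, 0, 0, 0, 0, 0, 0, 0, 0, 1]),
   (false, [0, 0, 0, 0, 0, 0, 0, 0, 0, 0, 1, 0, 0, -1]),
   (false, [0, 0, 0, 0, 0, 0, 0, 0, 0, 1, 0, 0, 0, ds]),
   (false, [0, 0, 0, 0, 1, 0, 0, 0, 0, -1, 0, 0, 0, Int.neg ds]),
   (false, [0, 0, 0, 0, 0, 0, 0, 0, 0, 0, 0, 0, 1]),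
   (false, [0, 0, 0, 0, 0, 0, 0, 0, 0, 0, 1, 0, -2]),
   (true, [0, 0, 0, 0, 1, 0, 0, 0, 2]),
   (true, [0, 0, 0, 0, 1, 0, 0, 0, -2]),
   (true, [-1, 1]),
   (true, [-1, 0, 1]),
   (true, [0, -2, 0, 0, 1]),
   (true, [0, 0, -2, 0, 1]),
   (true, [0, 0, 0, 0, 0, 1]),
   (true, [0, 1, 0, -1]),
   (true, [0, 1, 0, 1]),
   (false, [0, 0, 0, 0, 0, -1, 0, 0, 0, 0, 1]),
   (false, [0, 0, 0, 0, 1, 0, 0, 0, 0, 0, -2]),
   (false, [0, 0, 0, 0, 0, 0, 0, 0, 0, 0, 0, 1]),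
   (false, [0, 0, 0, 0, 0, 0, 0, 0, 0, 0, 1, -1]),
   (false, [0, 0, 1, 0, 0, 0, -1, 0, 0, 0, 0, Int.neg ds]),
   (false, [0, 0, 1, 0, 0, 0, 1, 0, 0, 0, 0, ds]),
   (false, [0, 1, 0, 0, 0, 0, -1, -1, 0, 0, 0, Int.neg ds]),
   (false, [0, 1, 0, 0, 0, 0, 1, 1, 0, 0, 0, ds])]

theorem DC.stdVE {ds p a b c J l q : ℤ} {D dl : ℝ} {Cl : ℤ → ℤ → ℤ → ℤ → ℝ → Prop}
    {N X R : ℤ} {I : ℝ} {Nu Xu Ru : ℤ} {Iu : ℝ}
    (h : DC ds p a b c J l q D dl Cl N X R I Nu Xu Ru Iu) {row : List ℤ}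
    {Nv Rv : ℤ} {Iv : ℝ} {Ne Xe : ℤ} {Ie : ℝ} (hu : VFac p D Cl Nv Rv Iv) (he : EFac p ds D Cl (evg [1, a, b, c] row) Ne Xe Ie) :
    ∀ q ∈ Helper55.TR.stdVE ds, hld (xv [1, a, b, c, p, J, X, R, Rv, Xe] [D, I, Iv, Ie]) q := by
  have g := G0.of h.W.toBase h.hc
  have kz := KF.of h.hK
  have g1 := g.a2
  have g2 := g.b2
  have g3 := g.pa
  have g4 := g.pb
  have g5 := g.J1
  have g6 := g.JD
  have g7 := g.D2
  have g8 := g.ca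
  have g9 := g.ca'
  have k1 := kz.I0
  have k2 := kz.ID
  have k3 := kz.z1
  have k4 := kz.z2
  have k5 := kz.s1
  have k6 := kz.s2
  have hn : ((Int.neg ds : ℤ) : ℝ) = -(ds : ℝ) := by
    show ((-ds : ℤ) : ℝ) = _
    push_cast
    ring
  have i1 := hu.I0
  have i2 := hu.ID
  have i3 : -(p : ℝ) + 1 ≤ 2 * Rv := by
    exact_mod_cast (by have := hu.R1; omega : -p + 1 ≤ 2 * Rv)
  have i4 : 2 * (Rv : ℝ) + 1 ≤ p := by
    exact_mod_cast (by have := hu.R2; omega : 2 * Rv + 1 ≤ p)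
  have e1 := he.I0
  have e2 := he.ID
  have e3 := he.x0
  have e4 := he.xp
  intro q hq
  have key : ∀ q ∈ ([(false, [0, 0, 0, 0, 0, 0, 0, 0, 0, 0, 0, 0, 0, 1]),
   (false, [0, 0, 0, 0, 0, 0, 0, 0, 0, 0, 1, 0, 0, -1]),
   (false, [0, 0, 0, 0, 0, 0, 0, 0, 0, 1, 0, 0, 0, ds]),
   (false, [0, 0, 0, 0, 1, 0, 0, 0, 0, -1, 0, 0, 0, Int.neg ds]),
   (false, [0, 0, 0, 0, 0, 0, 0, 0, 0, 0, 0, 0, 1]),
   (false, [0, 0, 0, 0, 0, 0, 0, 0, 0, 0, 1, 0, -2]),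
   (true, [0, 0, 0, 0, 1, 0, 0, 0, 2]),
   (true, [0, 0, 0, 0, 1, 0, 0, 0, -2]),
   (true, [-1, 1]),
   (true, [-1, 0, 1]),
   (true, [0, -2, 0, 0, 1]),
   (true, [0, 0, -2, 0, 1]),
   (true, [0, 0, 0, 0, 0, 1]),
   (true, [0, 1, 0, -1]),
   (true, [0, 1, 0, 1]),
   (false, [0, 0, 0, 0, 0, -1, 0, 0, 0, 0, 1]),
   (false, [0, 0, 0, 0, 1, 0, 0, 0, 0, 0, -2]),
   (false, [0, 0, 0, 0, 0, 0, 0, 0, 0, 0, 0, 1]),
   (false, [0, 0, 0, 0, 0, 0, 0, 0, 0, 0, 1, -1]),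
   (false, [0, 0, 1, 0, 0, 0, -1, 0, 0, 0, 0, Int.neg ds]),
   (false, [0, 0, 1, 0, 0, 0, 1, 0, 0, 0, 0, ds]),
   (false, [0, 1, 0, 0, 0, 0, -1, -1, 0, 0, 0, Int.neg ds]),
   (false, [0, 1, 0, 0, 0, 0, 1, 1, 0, 0, 0, ds])] : List Con),
       hld (xv [1, a, b, c, p, J, X, R, Rv, Xe] [D, I, Iv, Ie]) q := by
      simp only [List.forall_mem_cons, List.not_mem_nil, false_imp_iff, implies_true,
        and_true, hld, xv, evg_cons, evg_nil, List.map_cons, List.map_nil, List.cons_append,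
        List.nil_append, if_true, if_false, Bool.false_eq_true, hn]
      push_cast
      refine ⟨by linarith, by linarith, by linarith, by linarith, by linarith, by linarith, by linarith, by linarith, by linarith, by linarith, by linarith, by linarith, by linarith, by linarith, by linarith, by linarith, by linarith, by linarith, by linarith, by linarith, by linarith, by linarith, by linarith⟩
  exact key q hq

/-- class data -/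
def KVE (ds : ℤ) (row : List ℤ) : Cls :=
  cUE ds false row (kfM ds [0, 0, 0, 0, 0, 0, 1, 0, 0, 0, 0, ds] [0, 0, 0, 0, 0, 0, 1, 1, 0, 0, 0, ds] true)

theorem GVE.of {ds : ℤ} {Br : ℤ → ℝ → (ℤ → ℤ → ℤ → ℤ → ℝ → Prop) → Prop} {row : List ℤ} {Q : List Con} (hr : Rok row)
    (h : Clo (KVE ds row) (GVE ds Br row) Q) : GVE ds Br row Q := by
  intro p a b c J l q D dl Cl N X R I Nu Xu Ru Iu C hB Nv Rv Iv Ne Xe Ie hu he hQ
  have hg : gl (KVE ds row) = true := by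
    rcases C.W.hds with ⟨rfl, _⟩ | ⟨rfl, _⟩ <;> rfl
  have hkf : ∀ kf ∈ kfM ds [0, 0, 0, 0, 0, 0, 1, 0, 0, 0, 0, ds] [0, 0, 0, 0, 0, 0, 1, 1, 0, 0, 0, ds] true,
      KOk p l Cl ds (xv [1, a, b, c, p, J, X, R, Rv, Xe] [D, I, Iv, Ie]) N kf := by
    refine kok_M (R := R) (X := X) (I := I) (dg := true) C.hM rfl ?_ ?_ ?_ ?_ ?_ ?_ <;>
      simp [xv] <;> ring
  refine (val_UE C.W.toBase (KCl.of C.hK) (UV.ofV hu) he (row := row) (by rcases hr with rfl | rfl | rfl | rfl | rfl <;> simp) (by rcases hr with rfl | rfl | rfl | rfl | rfl <;> simp) _).closed C.W hg (Nk := N) (fun kf _ _ => ⟨_, rfl⟩)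
    hkf (H := GVE ds Br row) ?_ h hQ
  intro Q' h1 h2
  exact h1 C hB hu he h2

theorem GVE.sub {ds : ℤ} {Br : ℤ → ℝ → (ℤ → ℤ → ℤ → ℤ → ℝ → Prop) → Prop} {row : List ℤ} {L Q : List Con}
    (h : GVE ds Br row L) (n : ℕ) (hs : sbi (stdVE ds ++ Q) L n = true) : GVE ds Br row Q := by
  intro p a b c J l q D dl Cl N X R I Nu Xu Ru Iu C hB Nv Rv Iv Ne Xe Ie hu he hQ
  exact h C hB hu he (sbi_hld (app_hld (C.stdVE hu he) hQ) hs)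

/-- closed cell over the variables `1 a b c p J X R Rv Xe | D I Iv Ie` -/
def GXE (ds : ℤ) (Br : ℤ → ℝ → (ℤ → ℤ → ℤ → ℤ → ℝ → Prop) → Prop) (xu row : List ℤ) (Q : List Con) : Prop :=
  ∀ {p a b c J l q : ℤ} {D dl : ℝ} {Cl : ℤ → ℤ → ℤ → ℤ → ℝ → Prop} {N X R : ℤ} {I : ℝ}
    {Nu Xu Ru : ℤ} {Iu : ℝ}, DC ds p a b c J l q D dl Cl N X R I Nu Xu Ru Iu → Br p D Cl →
    ∀ {Nv Rv : ℤ} {Iv : ℝ} {Ne Xe : ℤ} {Ie : ℝ}, UFac p (evg [1, a, b, c, p, J] xu) D Cl Nv Rv Iv → EFac p ds D Cl (evg [1, a, b, c] row) Ne Xe Ie →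
    (∀ q ∈ Q, hld (xv [1, a, b, c, p, J, X, R, Rv, Xe] [D, I, Iv, Ie]) q) → False

/-- facts which always hold -/
def stdXE (ds : ℤ) : List Con :=
  [(false, [0, 0, 0, 0, 0, 0, 0, 0, 0, 0, 0, 0, 0, 1]),
   (false, [0, 0, 0, 0, 0, 0, 0, 0, 0, 0, 1, 0, 0, -1]),
   (false, [0, 0, 0, 0, 0, 0, 0, 0, 0, 1, 0, 0, 0, ds]),
   (false, [0, 0, 0, 0, 1, 0, 0, 0, 0, -1, 0, 0, 0, Int.neg ds]),
   (false, [0, 0, 0, 0, 0, 0, 0, 0, 0, 0, 0, 0, 1]),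
   (false, [0, 0, 0, 0, 0, 0, 0, 0, 0, 0, 1, 0, -1]),
   (true, [0, 0, 0, 0, 1, 0, 0, 0, 2]),
   (true, [0, 0, 0, 0, 1, 0, 0, 0, -2]),
   (true, [-1, 1]),
   (true, [-1, 0, 1]),
   (true, [0, -2, 0, 0, 1]),
   (true, [0, 0, -2, 0, 1]),
   (true, [0, 0, 0, 0, 0, 1]),
   (true, [0, 1, 0, -1]),
   (true, [0, 1, 0, 1]),
   (false, [0, 0, 0, 0, 0, -1, 0, 0, 0, 0, 1]),
   (false, [0, 0, 0, 0, 1, 0, 0, 0, 0, 0, -2]),
   (false, [0, 0, 0, 0, 0, 0, 0, 0, 0, 0, 0, 1]),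
   (false, [0, 0, 0, 0, 0, 0, 0, 0, 0, 0, 1, -1]),
   (false, [0, 0, 1, 0, 0, 0, -1, 0, 0, 0, 0, Int.neg ds]),
   (false, [0, 0, 1, 0, 0, 0, 1, 0, 0, 0, 0, ds]),
   (false, [0, 1, 0, 0, 0, 0, -1, -1, 0, 0, 0, Int.neg ds]),
   (false, [0, 1, 0, 0, 0, 0, 1, 1, 0, 0, 0, ds])]

theorem DC.stdXE {ds p a b c J l q : ℤ} {D dl : ℝ} {Cl : ℤ → ℤ → ℤ → ℤ → ℝ → Prop}
    {N X R : ℤ} {I : ℝ} {Nu Xu Ru : ℤ} {Iu : ℝ}
    (h : DC ds p a b c J l q D dl Cl N X R I Nu Xu Ru Iu) {xu row : List ℤ}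
    {Nv Rv : ℤ} {Iv : ℝ} {Ne Xe : ℤ} {Ie : ℝ} (hu : UFac p (evg [1, a, b, c, p, J] xu) D Cl Nv Rv Iv) (he : EFac p ds D Cl (evg [1, a, b, c] row) Ne Xe Ie) :
    ∀ q ∈ Helper55.TR.stdXE ds, hld (xv [1, a, b, c, p, J, X, R, Rv, Xe] [D, I, Iv, Ie]) q := by
  have g := G0.of h.W.toBase h.hc
  have kz := KF.of h.hK
  have g1 := g.a2
  have g2 := g.b2
  have g3 := g.pa
  have g4 := g.pb
  have g5 := g.J1
  have g6 := g.JD
  have g7 := g.D2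
  have g8 := g.ca
  have g9 := g.ca'
  have k1 := kz.I0
  have k2 := kz.ID
  have k3 := kz.z1
  have k4 := kz.z2
  have k5 := kz.s1
  have k6 := kz.s2
  have hn : ((Int.neg ds : ℤ) : ℝ) = -(ds : ℝ) := by
    show ((-ds : ℤ) : ℝ) = _
    push_cast
    ring
  have i1 := hu.I0
  have i2 := hu.ID
  have i3 : -(p : ℝ) + 1 ≤ 2 * Rv := by
    exact_mod_cast (by have := hu.R1; omega : -p + 1 ≤ 2 * Rv)
  have i4 : 2 * (Rv : ℝ) + 1 ≤ p := by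
    exact_mod_cast (by have := hu.R2; omega : 2 * Rv + 1 ≤ p)
  have e1 := he.I0
  have e2 := he.ID
  have e3 := he.x0
  have e4 := he.xp
  intro q hq
  have key : ∀ q ∈ ([(false, [0, 0, 0, 0, 0, 0, 0, 0, 0, 0, 0, 0, 0, 1]),
   (false, [0, 0, 0, 0, 0, 0, 0, 0, 0, 0, 1, 0, 0, -1]),
   (false, [0, 0, 0, 0, 0, 0, 0, 0, 0, 1, 0, 0, 0, ds]),
   (false, [0, 0, 0, 0, 1, 0, 0, 0, 0, -1, 0, 0, 0, Int.neg ds]),
   (false, [0, 0, 0, 0, 0, 0, 0, 0, 0, 0, 0, 0, 1]),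
   (false, [0, 0, 0, 0, 0, 0, 0, 0, 0, 0, 1, 0, -1]),
   (true, [0, 0, 0, 0, 1, 0, 0, 0, 2]),
   (true, [0, 0, 0, 0, 1, 0, 0, 0, -2]),
   (true, [-1, 1]),
   (true, [-1, 0, 1]),
   (true, [0, -2, 0, 0, 1]),
   (true, [0, 0, -2, 0, 1]),
   (true, [0, 0, 0, 0, 0, 1]),
   (true, [0, 1, 0, -1]),
   (true, [0, 1, 0, 1]),
   (false, [0, 0, 0, 0, 0, -1, 0, 0, 0, 0, 1]),
   (false, [0, 0, 0, 0, 1, 0, 0, 0, 0, 0, -2]),
   (false, [0, 0, 0, 0, 0, 0, 0, 0, 0, 0, 0, 1]),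
   (false, [0, 0, 0, 0, 0, 0, 0, 0, 0, 0, 1, -1]),
   (false, [0, 0, 1, 0, 0, 0, -1, 0, 0, 0, 0, Int.neg ds]),
   (false, [0, 0, 1, 0, 0, 0, 1, 0, 0, 0, 0, ds]),
   (false, [0, 1, 0, 0, 0, 0, -1, -1, 0, 0, 0, Int.neg ds]),
   (false, [0, 1, 0, 0, 0, 0, 1, 1, 0, 0, 0, ds])] : List Con),
       hld (xv [1, a, b, c, p, J, X, R, Rv, Xe] [D, I, Iv, Ie]) q := by
      simp only [List.forall_mem_cons, List.not_mem_nil, false_imp_iff, implies_true,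
        and_true, hld, xv, evg_cons, evg_nil, List.map_cons, List.map_nil, List.cons_append,
        List.nil_append, if_true, if_false, Bool.false_eq_true, hn]
      push_cast
      refine ⟨by linarith, by linarith, by linarith, by linarith, by linarith, by linarith, by linarith, by linarith, by linarith, by linarith, by linarith, by linarith, by linarith, by linarith, by linarith, by linarith, by linarith, by linarith, by linarith, by linarith, by linarith, by linarith, by linarith⟩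
  exact key q hq

/-- class data -/
def KXE (ds : ℤ) (xu row : List ℤ) : Cls :=
  cXE ds xu row (kfM ds [0, 0, 0, 0, 0, 0, 1, 0, 0, 0, 0, ds] [0, 0, 0, 0, 0, 0, 1, 1, 0, 0, 0, ds] true)

theorem GXE.of {ds : ℤ} {Br : ℤ → ℝ → (ℤ → ℤ → ℤ → ℤ → ℝ → Prop) → Prop} {xu row : List ℤ} {Q : List Con} (hx : Xok xu) (hr : Rok row)
    (h : Clo (KXE ds xu row) (GXE ds Br xu row) Q) : GXE ds Br xu row Q := by
  intro p a b c J l q D dl Cl N X R I Nu Xu Ru Iu C hB Nv Rv Iv Ne Xe Ie hu he hQ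
  have hg : gl (KXE ds xu row) = true := by
    rcases C.W.hds with ⟨rfl, _⟩ | ⟨rfl, _⟩ <;> rfl
  have hkf : ∀ kf ∈ kfM ds [0, 0, 0, 0, 0, 0, 1, 0, 0, 0, 0, ds] [0, 0, 0, 0, 0, 0, 1, 1, 0, 0, 0, ds] true,
      KOk p l Cl ds (xv [1, a, b, c, p, J, X, R, Rv, Xe] [D, I, Iv, Ie]) N kf := by
    refine kok_M (R := R) (X := X) (I := I) (dg := true) C.hM rfl ?_ ?_ ?_ ?_ ?_ ?_ <;>
      simp [xv] <;> ring
  refine (val_XE C.W.toBase (KCl.of C.hK) hu he (xu := xu) (row := row) (by rcases hr with rfl | rfl | rfl | rfl | rfl <;> simp) (by rcases hr with rfl | rfl | rfl | rfl | rfl <;> simp) (by rcases hx with rfl | rfl | rfl | rfl <;> simp) (by rcases hx with rfl | rfl | rfl | rfl <;> simp) _).closed C.W hg (Nk := N) (fun kf _ _ => ⟨_, rfl⟩)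
    hkf (H := GXE ds Br xu row) ?_ h hQ
  intro Q' h1 h2
  exact h1 C hB hu he h2

theorem GXE.sub {ds : ℤ} {Br : ℤ → ℝ → (ℤ → ℤ → ℤ → ℤ → ℝ → Prop) → Prop} {xu row : List ℤ} {L Q : List Con}
    (h : GXE ds Br xu row L) (n : ℕ) (hs : sbi (stdXE ds ++ Q) L n = true) : GXE ds Br xu row Q := by
  intro p a b c J l q D dl Cl N X R I Nu Xu Ru Iu C hB Nv Rv Iv Ne Xe Ie hu he hQ
  exact h C hB hu he (sbi_hld (app_hld (C.stdXE hu he) hQ) hs)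

theorem GK.u {ds : ℤ} {L Q : List Con} (h : GU ds BrU L) (n : ℕ)
    (hs : (lle 10 Q && sbi (Helper55.TR.stdU ds ++ Q.map (insC 8)) L n) = true) : GK ds BrU Q := by
  intro p a b c J l q D dl Cl N X R I Nu Xu Ru Iu C hB hQ
  obtain ⟨h1, h2⟩ := Bool.and_eq_true_iff.1 hs
  obtain ⟨Nv, Rv, Iv, hu⟩ := exb C.W C.hA hB b (by simp)
  exact h C hB hu (sbi_hld (app_hld (C.stdU hu) (liftKU h1 hQ)) h2)

theorem GK.v {ds : ℤ} {L Q : List Con} (h : GV ds BrV L) (n : ℕ)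
    (hs : (lle 10 Q && sbi (Helper55.TR.stdV ds ++ Q.map (insC 8)) L n) = true) : GK ds BrV Q := by
  intro p a b c J l q D dl Cl N X R I Nu Xu Ru Iu C hB hQ
  obtain ⟨h1, h2⟩ := Bool.and_eq_true_iff.1 hs
  obtain ⟨Nv, Rv, Iv, hu⟩ := hB
  exact h C ⟨_, _, _, hu⟩ hu (sbi_hld (app_hld (C.stdV hu) (liftKU h1 hQ)) h2)

theorem GK.x1 {ds : ℤ} {L Q : List Con} (h : GX ds BrU [1] L) (n : ℕ)
    (hs : (lle 10 Q && sbi (Helper55.TR.stdX ds ++ Q.map (insC 8)) L n) = true) : GK ds BrU Q := by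
  intro p a b c J l q D dl Cl N X R I Nu Xu Ru Iu C hB hQ
  obtain ⟨h1, h2⟩ := Bool.and_eq_true_iff.1 hs
  obtain ⟨Nv, Rv, Iv, hu⟩ := ex1 C.W C.hA hB _ rfl
  exact h C hB hu (sbi_hld (app_hld (C.stdX hu) (liftKU h1 hQ)) h2)

theorem GK.xJ {ds : ℤ} {L Q : List Con} (h : GX ds BrU [0, 0, 0, 0, 0, 1] L) (n : ℕ)
    (hs : (lle 10 Q && sbi (Helper55.TR.stdX ds ++ Q.map (insC 8)) L n) = true) : GK ds BrU Q := by
  intro p a b c J l q D dl Cl N X R I Nu Xu Ru Iu C hB hQ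
  obtain ⟨h1, h2⟩ := Bool.and_eq_true_iff.1 hs
  obtain ⟨Nv, Rv, Iv, hu⟩ := exJ C.W C.hA hB _ rfl
  exact h C hB hu (sbi_hld (app_hld (C.stdX hu) (liftKU h1 hQ)) h2)

theorem GU.e {ds : ℤ} {Br : ℤ → ℝ → (ℤ → ℤ → ℤ → ℤ → ℝ → Prop) → Prop} {row : List ℤ} {L Q : List Con}
    (h : GUE ds Br row L) (n : ℕ) (hr : Rok row)
    (hs : (lle 12 Q && sbi (Helper55.TR.stdUE ds ++ Q.map (insC 9)) L n) = true) :
    GU ds Br Q := by
  intro p a b c J l q D dl Cl N X R I Nu Xu Ru Iu C hB Nv Rv Iv hu hQ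
  obtain ⟨h1, h2⟩ := Bool.and_eq_true_iff.1 hs
  obtain ⟨Ne, Xe, Ie, he⟩ := exR C.W C.hc C.hb2 C.hA hr
  exact h C hB hu he (sbi_hld (app_hld (C.stdUE hu he) (liftUE h1 hQ)) h2)

theorem GV.e {ds : ℤ} {Br : ℤ → ℝ → (ℤ → ℤ → ℤ → ℤ → ℝ → Prop) → Prop} {row : List ℤ} {L Q : List Con}
    (h : GVE ds Br row L) (n : ℕ) (hr : Rok row)
    (hs : (lle 12 Q && sbi (Helper55.TR.stdVE ds ++ Q.map (insC 9)) L n) = true) :
    GV ds Br Q := by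
  intro p a b c J l q D dl Cl N X R I Nu Xu Ru Iu C hB Nv Rv Iv hu hQ
  obtain ⟨h1, h2⟩ := Bool.and_eq_true_iff.1 hs
  obtain ⟨Ne, Xe, Ie, he⟩ := exR C.W C.hc C.hb2 C.hA hr
  exact h C hB hu he (sbi_hld (app_hld (C.stdVE hu he) (liftUE h1 hQ)) h2)

theorem GX.e {ds : ℤ} {Br : ℤ → ℝ → (ℤ → ℤ → ℤ → ℤ → ℝ → Prop) → Prop} {xu : List ℤ} {row : List ℤ} {L Q : List Con}
    (h : GXE ds Br xu row L) (n : ℕ) (hr : Rok row)
    (hs : (lle 12 Q && sbi (Helper55.TR.stdXE ds ++ Q.map (insC 9)) L n) = true) :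
    GX ds Br xu Q := by
  intro p a b c J l q D dl Cl N X R I Nu Xu Ru Iu C hB Nv Rv Iv hu hQ
  obtain ⟨h1, h2⟩ := Bool.and_eq_true_iff.1 hs
  obtain ⟨Ne, Xe, Ie, he⟩ := exR C.W C.hc C.hb2 C.hA hr
  exact h C hB hu he (sbi_hld (app_hld (C.stdXE hu he) (liftUE h1 hQ)) h2)

end Helper55.TR
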