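import Pool.Agent.Helper12.TL.TLem

set_option autoImplicit false
set_option linter.unusedSectionVars false

/-!
# The triangle at a merged line, corners paired into dipoles

The corners are paired row shifted by `t`, so that the corners of a merged line cancel in pairs
outside the merged line itself.
-/

namespace Helper55.TR

open Helper11.N1 Helper55.KE Helper12.TL

section

variable {p q a b : ℕ} [NeZero p] [NeZero q] {z : ZMod p → ZMod (p * q)}

/-- one term of the shifted sum -/
noncomputable def dt (q a b : ℕ) (z : ZMod p → ZMod (p * q)) (X : ZMod (p * q)) (W : ZMod p)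
    (S : ZMod (p * q)) (t j : ZMod p) : ℤ :=
  open Classical in
    ((if tri q X W S (z j) j then (1 : ℤ) else 0) -
      (if tri q X W S (z j) (j + a) then 1 else 0) -
      (if tri q X W S (z (j - t) - b * q) (j - t + b) then 1 else 0) +
      (if tri q X W S (z (j - t) - b * q) (j - t + a + b) then 1 else 0))

theorem ff_shift (X : ZMod (p * q)) (W : ZMod p) (S : ZMod (p * q)) (t : ZMod p) :
    FF q a b z X W S = ∑ j : ZMod p, dt q a b z X W S t j := by
  classical
  unfold FF dt
  simp only [Finset.sum_add_distrib, Finset.sum_sub_distrib]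
  have h1 := Equiv.sum_comp (Equiv.subRight t)
    (fun j => if tri q X W S (z j - b * q) (j + b) then (1 : ℤ) else 0)
  have h2 := Equiv.sum_comp (Equiv.subRight t)
    (fun j => if tri q X W S (z j - b * q) (j + a + b) then (1 : ℤ) else 0)
  simp only [Equiv.subRight_apply] at h1 h2
  rw [h1, h2]

theorem sum_one {s : ZMod p → ℤ} {i : ZMod p} (hi : 2 ≤ s i)
    (h : ∀ m, m ≠ i → 0 ≤ s m) : 2 ≤ ∑ m, s m := by
  classical
  have h1 : ∑ m : ZMod p, (if m = i then (2 : ℤ) else 0) = 2 := by
    rw [Finset.sum_ite_eq']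
    simp
  rw [← h1]
  apply Finset.sum_le_sum
  intro m _
  by_cases hmi : m = i
  · subst hmi
    rw [if_pos rfl]
    omega
  · rw [if_neg hmi]
    exact h m hmi

/-- inner pair of the sign `+` -/
theorem dip_pos (hP : Par p q a b) (hqp : p < q) {X : ZMod (p * q)} {c κ : ℕ} (hc : c ≤ 1)
    (hκ : 1 ≤ κ) (hκa : κ ≤ a) (hb : a < b + κ) {jn t : ZMod p} (ht : t = (b : ZMod p) + κ)
    (hn : z jn = X + (c : ZMod (p * q)))
    (hm : z (jn - t) = X + ((1 - c : ℕ) : ZMod (p * q)) +
      (b : ZMod (p * q)) * (q : ZMod (p * q)))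
    (hF : |FF q a b z X jn (X + e p q jn + ((q * (a - κ) + 2 : ℕ) : ZMod (p * q)))| ≤ 1) :
    ∃ j : ZMod p, j ≠ jn ∧
      ((tri q X jn (X + e p q jn + ((q * (a - κ) + 2 : ℕ) : ZMod (p * q)))
          (z (j - t) - b * q) (j - t + b) ∧
        ¬ tri q X jn (X + e p q jn + ((q * (a - κ) + 2 : ℕ) : ZMod (p * q))) (z j) j) ∨
      (tri q X jn (X + e p q jn + ((q * (a - κ) + 2 : ℕ) : ZMod (p * q))) (z j) (j + a) ∧
        ¬ tri q X jn (X + e p q jn + ((q * (a - κ) + 2 : ℕ) : ZMod (p * q)))
          (z (j - t) - b * q) (j - t + a + b))) := by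
  by_contra hcon
  push Not at hcon
  have ha := hP.ha
  have hb2 := hP.hb
  have hab := hP.hab
  obtain ⟨d, hd⟩ : ∃ d : ℕ, a = d + κ := ⟨a - κ, by omega⟩
  have e0 : a - κ = d := by omega
  rw [e0] at hcon hF
  have hT : q * d + 2 < p * q := by
    have : q * (d + 1) ≤ q * p := Nat.mul_le_mul_left _ (by omega)
    nlinarith
  set S := X + e p q jn + ((q * d + 2 : ℕ) : ZMod (p * q)) with hS
  have hr : jn - t + (b : ZMod p) + (κ : ZMod p) = jn := by rw [ht]; ring
  have key : 2 ≤ FF q a b z X jn S := by
    rw [ff_shift X jn S t]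
    apply sum_one (i := jn)
    · -- the merged line
      have t1 : tri q X jn S (z jn) jn := by
        rw [hS, tri_iff X jn hT (r := 0) (m := c) hn (by nlinarith) (by simp) (by omega)]
        nlinarith
      have t2 : ¬ tri q X jn S (z jn) (jn + a) := by
        rw [hS, tri_iff X jn hT (r := a) (m := c) hn (by nlinarith) rfl (by omega)]
        have : q * (d + 1) ≤ q * a := Nat.mul_le_mul_left _ (by omega)
        nlinarith
      have t3 : ¬ tri q X jn S (z (jn - t) - b * q) (jn - t + b) := by
        rw [hS, tri_iff X jn hT (r := p - κ) (m := 1 - c) ?_ ?_ ?_ (by omega)]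
        · have h1 : q * (d + 1) ≤ q * (p - κ) := Nat.mul_le_mul_left _ (by omega)
          have h5 : q * (d + 1) = q * d + q := by ring
          omega
        · rw [hm]; ring
        · have h1 : 2 * q ≤ p * q := Nat.mul_le_mul_right _ (by omega)
          omega
        · conv_rhs => rw [← hr]
          rw [Nat.cast_sub (by omega)]
          rw [ZMod.natCast_self]
          ring
      have t4 : tri q X jn S (z (jn - t) - b * q) (jn - t + a + b) := by
        rw [hS, tri_iff X jn hT (r := d) (m := 1 - c) ?_ ?_ ?_ (by omega)]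
        · omega
        · rw [hm]; ring
        · have h1 : 2 * q ≤ p * q := Nat.mul_le_mul_right _ (by omega)
          omega
        · conv_rhs => rw [← hr]
          rw [hd]
          push_cast
          ring
      unfold dt
      rw [if_pos t1, if_neg t2, if_neg t3, if_pos t4]
      norm_num
    · intro j h1
      obtain ⟨h3, h4⟩ := hcon j h1
      unfold dt
      by_cases g1 : tri q X jn S (z j) j <;> by_cases g2 : tri q X jn S (z j) (j + a) <;>
        by_cases g3 : tri q X jn S (z (j - t) - b * q) (j - t + b) <;>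
        by_cases g4 : tri q X jn S (z (j - t) - b * q) (j - t + a + b) <;>
        simp only [g1, g2, g3, g4, if_true, if_false] <;> first | omega | (exfalso; tauto)
  have := abs_le.1 hF
  omega

/-- inner pair of the sign `-` -/
theorem dip_neg (hP : Par p q a b) (hqp : p < q) {X : ZMod (p * q)} {c κ : ℕ} (hc : c ≤ 1)
    (hκ : 1 ≤ κ) (hκa : κ ≤ a) {jn t : ZMod p} (ht : t = (b : ZMod p) - κ)
    (hn : z jn = X + (c : ZMod (p * q)))
    (hm : z (jn - t) = X + ((1 - c : ℕ) : ZMod (p * q)) +
      (b : ZMod (p * q)) * (q : ZMod (p * q)))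
    (hF : |FF q a b z X (jn + κ) (X + e p q (jn + κ) +
      ((q * (a - κ) + 2 : ℕ) : ZMod (p * q)))| ≤ 1) :
    ∃ j : ZMod p, j ≠ jn ∧
      ((tri q X (jn + κ) (X + e p q (jn + κ) + ((q * (a - κ) + 2 : ℕ) : ZMod (p * q))) (z j) j ∧
        ¬ tri q X (jn + κ) (X + e p q (jn + κ) + ((q * (a - κ) + 2 : ℕ) : ZMod (p * q)))
          (z (j - t) - b * q) (j - t + b)) ∨
      (tri q X (jn + κ) (X + e p q (jn + κ) + ((q * (a - κ) + 2 : ℕ) : ZMod (p * q)))
          (z (j - t) - b * q) (j - t + a + b) ∧
        ¬ tri q X (jn + κ) (X + e p q (jn + κ) + ((q * (a - κ) + 2 : ℕ) : ZMod (p * q)))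
          (z j) (j + a))) := by
  by_contra hcon
  push Not at hcon
  have ha := hP.ha
  have hb2 := hP.hb
  have hab := hP.hab
  obtain ⟨d, hd⟩ : ∃ d : ℕ, a = d + κ := ⟨a - κ, by omega⟩
  have e0 : a - κ = d := by omega
  rw [e0] at hcon hF
  have hT : q * d + 2 < p * q := by
    have : q * (d + 1) ≤ q * p := Nat.mul_le_mul_left _ (by omega)
    nlinarith
  set W := jn + (κ : ZMod p) with hW
  have hnW : jn = W - (κ : ZMod p) := by rw [hW]; ring
  have hr : jn - t + (b : ZMod p) = W := by rw [ht, hW]; ring
  set S := X + e p q W + ((q * d + 2 : ℕ) : ZMod (p * q)) with hS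
  have key : 2 ≤ ∑ j : ZMod p, - dt q a b z X W S t j := by
    apply sum_one (i := jn)
    · have t1 : ¬ tri q X W S (z jn) jn := by
        rw [hS, tri_iff X W hT (r := p - κ) (m := c) hn (by nlinarith) ?_ (by omega)]
        · have h1 : q * (d + 1) ≤ q * (p - κ) := Nat.mul_le_mul_left _ (by omega)
          have h5 : q * (d + 1) = q * d + q := by ring
          omega
        · rw [hnW, Nat.cast_sub (by omega), ZMod.natCast_self]
          ring
      have t2 : tri q X W S (z jn) (jn + a) := by
        rw [hS, tri_iff X W hT (r := d) (m := c) hn (by nlinarith) ?_ (by omega)]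
        · omega
        · rw [hnW, hd]
          push_cast
          ring
      have t3 : tri q X W S (z (jn - t) - b * q) (jn - t + b) := by
        rw [hS, tri_iff X W hT (r := 0) (m := 1 - c) ?_ ?_ ?_ (by omega)]
        · omega
        · rw [hm]; ring
        · have h1 : 2 * q ≤ p * q := Nat.mul_le_mul_right _ (by omega)
          omega
        · rw [hr]
          simp
      have t4 : ¬ tri q X W S (z (jn - t) - b * q) (jn - t + a + b) := by
        rw [hS, tri_iff X W hT (r := a) (m := 1 - c) ?_ ?_ ?_ (by omega)]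
        · have : q * (d + 1) ≤ q * a := Nat.mul_le_mul_left _ (by omega)
          have h5 : q * (d + 1) = q * d + q := by ring
          omega
        · rw [hm]; ring
        · have h1 : 2 * q ≤ p * q := Nat.mul_le_mul_right _ (by omega)
          omega
        · conv_rhs => rw [← hr]
          ring
      unfold dt
      rw [if_neg t1, if_pos t2, if_pos t3, if_neg t4]
      norm_num
    · intro j h1
      obtain ⟨h3, h4⟩ := hcon j h1
      unfold dt
      by_cases g1 : tri q X W S (z j) j <;> by_cases g2 : tri q X W S (z j) (j + a) <;>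
        by_cases g3 : tri q X W S (z (j - t) - b * q) (j - t + b) <;>
        by_cases g4 : tri q X W S (z (j - t) - b * q) (j - t + a + b) <;>
        simp only [g1, g2, g3, g4, if_true, if_false] <;> first | omega | (exfalso; tauto)
  rw [Finset.sum_neg_distrib, ← ff_shift X W S t] at key
  have := abs_le.1 hF
  omega

end

end Helper55.TR
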