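import Pool.Agent.Helper55.TR.Cls3
import Pool.Agent.Helper11.CT.Clo
import Pool.Agent.Helper25.KW.S1I
import Pool.Agent.Helper55.TR.Lab

set_option autoImplicit false
set_option linter.unusedSectionVars false
set_option linter.unusedSimpArgs false
set_option linter.unusedVariables false

/-!
# Closed cells in list form
-/

noncomputable section

namespace Helper55.TR

open Helper25.KG Helper25.KW Helper55.KE Helper11.CT

def beqB : Bool → Bool → Bool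
  | true, b => b
  | false, b => !b

theorem beqB_eq {a b : Bool} (h : beqB a b = true) : a = b := by
  cases a <;> cases b <;> simp_all [beqB]

def ceq (c d : Con) : Bool := beqB c.1 d.1 && leq c.2 d.2

theorem ceq_hld {x : List ℝ} {c d : Con} (h : ceq c d = true) (hd : hld x d) : hld x c := by
  obtain ⟨c1, c2⟩ := c
  obtain ⟨d1, d2⟩ := d
  simp only [ceq, Bool.and_eq_true] at h
  obtain ⟨h1, h2⟩ := h
  have h3 := beqB_eq h1
  have h4 := leq_ev _ _ h2 x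
  subst h3
  simp only [hld] at hd ⊢
  rw [h4]
  exact hd

/-- the members of `L` are the members of `S` with the indices given by the digits of `n` -/
def sbi (S : List Con) : List Con → ℕ → Bool
  | [], _ => true
  | c :: L, n => (match drp (Nat.mod n 1024) S with
      | [] => false
      | d :: _ => ceq c d) && sbi S L (Nat.div n 1024)

theorem drp_cons (n : ℕ) (S : List Con) :
    drp (n + 1) S = match S with | [] => [] | _ :: T => drp n T := by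
  cases S with
  | nil => rfl
  | cons c T => rfl

theorem drp_mem {d : Con} : ∀ (n : ℕ) {S T : List Con}, drp n S = d :: T → d ∈ S := by
  intro n
  induction n with
  | zero =>
    intro S T h
    have h1 : S = d :: T := h
    rw [h1]
    exact List.mem_cons_self
  | succ n ih =>
    intro S T h
    rw [drp_cons] at h
    cases S with
    | nil => exact absurd h (by simp)
    | cons c S => exact List.mem_cons_of_mem _ (ih h)

theorem sbi_hld {x : List ℝ} {S : List Con} (hS : ∀ c ∈ S, hld x c) : ∀ {L : List Con} {n : ℕ},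
    sbi S L n = true → ∀ c ∈ L, hld x c := by
  intro L
  induction L with
  | nil => intro n h c hc; exact absurd hc (by simp)
  | cons c L ih =>
    intro n h
    simp only [sbi, Bool.and_eq_true] at h
    obtain ⟨h1, h2⟩ := h
    have h3 : hld x c := by
      cases h4 : drp (Nat.mod n 1024) S with
      | nil => rw [h4] at h1; exact absurd h1 (by simp)
      | cons d T =>
        rw [h4] at h1
        exact ceq_hld h1 (hS d (drp_mem _ h4))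
    intro d hd
    rcases List.mem_cons.1 hd with rfl | hd
    · exact h3
    · exact ih h2 d hd

theorem app_hld {x : List ℝ} {S Q : List Con} (hS : ∀ c ∈ S, hld x c) (hQ : ∀ c ∈ Q, hld x c) :
    ∀ c ∈ S ++ Q, hld x c := by
  intro c hc
  rcases List.mem_append.1 hc with h | h
  · exact hS c h
  · exact hQ c h

/-- the region of the second cluster, variables `1 a b c p J X R Xu Ru | D I Iu` -/
def trow (ds : ℤ) : List Con :=
  if ds = 1 then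
    [(false, [0, 0, 0, 0, 0, 0, 0, 0, 0, 0, 0, 0, 1]),
     (false, [0, 0, 0, 0, 0, 0, 0, 0, 0, 0, 1, 0, -1]),
     (false, [0, 0, 0, 0, 0, -1, 0, 0, 0, 0, 1, 0, -1]),
     (false, [0, 0, 0, 0, 0, 0, 0, 0, 1, 0, 0, 0, 1]),
     (true, [1, 1, 0, 0, 0, 0, 0, 0, 0, 1]),
     (true, [0, -1, 0, -1, 0, 0, 0, 0, 0, -1]),
     (false, [0, 0, 0, 1, 0, 0, 0, 0, -1, -1, 0, 0, -1])]
  else
    [(false, [0, 0, 0, 0, 0, 0, 0, 0, 0, 0, 0, 0, 1]),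
     (false, [0, 0, 0, 0, 0, 0, 0, 0, 0, 0, 1, 0, -1]),
     (false, [0, 0, 0, 0, 0, -1, 0, 0, 0, 0, 1, 0, -1]),
     (false, [0, 0, 0, 0, 0, 0, 0, 0, 1, 0, 0, 0, -1]),
     (true, [1, 1, 0, 0, 0, 0, 0, 0, 0, 1]),
     (true, [0, -1, 0, 1, 0, 0, 0, 0, 0, -1]),
     (false, [0, 0, 0, -1, 0, 0, 0, 0, -1, -1, 0, 0, 1])]

/-- the setting -/
structure DC (ds p a b c J l q : ℤ) (D dl : ℝ) (Cl : ℤ → ℤ → ℤ → ℤ → ℝ → Prop)
    (N X R : ℤ) (I : ℝ) (Nu Xu Ru : ℤ) (Iu : ℝ) : Prop where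
  W : World p a b c J ds l q D dl Cl
  hc : -a < c
  hb2 : 2 * a ≤ b
  hA : Aux p a b ds D Cl
  hK : KGF p a b ds D (P1 l p) Cl N X R I
  hM : KMin p a b ds (P1 l p) Cl N (a + (ds : ℤ) * (X + (ds : ℤ) * I + R))
  hT : KCl p l Cl Nu Xu Ru Iu
  t : ∀ q ∈ trow ds, hld (xv [1, a, b, c, p, J, X, R, Xu, Ru] [D, I, Iu]) q

/-- no element with abscissa `0` -/
def BrU (p : ℤ) (D : ℝ) (Cl : ℤ → ℤ → ℤ → ℤ → ℝ → Prop) : Prop :=
  (∀ {N R : ℤ} {I : ℝ}, VFac p D Cl N R I → False) ∧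
    (∀ {N R : ℤ} {I : ℝ}, WFac p D Cl N R I → False)

def BrV (p : ℤ) (D : ℝ) (Cl : ℤ → ℤ → ℤ → ℤ → ℝ → Prop) : Prop :=
  ∃ N R I, VFac p D Cl N R I

/-- no condition -/
def BrN (_ : ℤ) (_ : ℝ) (_ : ℤ → ℤ → ℤ → ℤ → ℝ → Prop) : Prop := True

theorem brU {p : ℤ} {D : ℝ} {Cl : ℤ → ℤ → ℤ → ℤ → ℝ → Prop}
    (hV : ∀ {N R : ℤ} {I : ℝ}, VFac p D Cl N R I → False)
    (hW : ∀ {N R : ℤ} {I : ℝ}, WFac p D Cl N R I → False) : BrU p D Cl := ⟨hV, hW⟩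

theorem brV {p : ℤ} {D : ℝ} {Cl : ℤ → ℤ → ℤ → ℤ → ℝ → Prop} {N R : ℤ} {I : ℝ}
    (hv : VFac p D Cl N R I) : BrV p D Cl := ⟨_, _, _, hv⟩

theorem brN {p : ℤ} {D : ℝ} {Cl : ℤ → ℤ → ℤ → ℤ → ℝ → Prop} : BrN p D Cl := trivial

theorem DC.mA {p a b c J l q : ℤ} {D dl : ℝ} {Cl : ℤ → ℤ → ℤ → ℤ → ℝ → Prop}
    (W : World p a b c J (-1) l q D dl Cl) (hc : -a < c) (hb2 : 2 * a ≤ b) (hA : Aux p a b (-1) D Cl)
    {N X R : ℤ} {I : ℝ} (hK : KGF p a b (-1) D (P1 l p) Cl N X R I)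
    (hM : KMin p a b (-1) (P1 l p) Cl N (a + (-1 : ℤ) * (X + (-1 : ℤ) * I + R)))
    {Nu Xu Ru : ℤ} {Iu : ℝ} (hT : KCl p l Cl Nu Xu Ru Iu)
    (t0 : 0 < Iu)
    (t1 : 0 < D - Iu)
    (t2 : 0 < -(J : ℝ) + D - Iu)
    (t3 : 0 < (Xu : ℝ) - Iu)
    (t4 : 1 ≤ 1 + (a : ℝ) + (Ru : ℝ))
    (t5 : 1 ≤ -(a : ℝ) + (c : ℝ) - (Ru : ℝ))
    (t6 : 0 < -(c : ℝ) - (Xu : ℝ) - (Ru : ℝ) + Iu) :
    DC (-1) p a b c J l q D dl Cl N X R I Nu Xu Ru Iu := by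
  refine ⟨W, hc, hb2, hA, hK, hM, hT, ?_⟩
  have e : trow (-1) = [(false, [0, 0, 0, 0, 0, 0, 0, 0, 0, 0, 0, 0, 1]),
     (false, [0, 0, 0, 0, 0, 0, 0, 0, 0, 0, 1, 0, -1]),
     (false, [0, 0, 0, 0, 0, -1, 0, 0, 0, 0, 1, 0, -1]),
     (false, [0, 0, 0, 0, 0, 0, 0, 0, 1, 0, 0, 0, -1]),
     (true, [1, 1, 0, 0, 0, 0, 0, 0, 0, 1]),
     (true, [0, -1, 0, 1, 0, 0, 0, 0, 0, -1]),
     (false, [0, 0, 0, -1, 0, 0, 0, 0, -1, -1, 0, 0, 1])] := rfl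
  rw [e]
  simp only [List.forall_mem_cons, List.not_mem_nil, false_imp_iff, implies_true,
    and_true, hld, xv, evg_cons, evg_nil, List.map_cons, List.map_nil, List.cons_append,
    List.nil_append, if_true, if_false, Bool.false_eq_true]
  push_cast
  refine ⟨by linarith, by linarith, by linarith, by linarith, by linarith, by linarith,
    by linarith⟩

theorem DC.mB {p a b c J l q : ℤ} {D dl : ℝ} {Cl : ℤ → ℤ → ℤ → ℤ → ℝ → Prop}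
    (W : World p a b c J 1 l q D dl Cl) (hc : -a < c) (hb2 : 2 * a ≤ b) (hA : Aux p a b 1 D Cl)
    {N X R : ℤ} {I : ℝ} (hK : KGF p a b 1 D (P1 l p) Cl N X R I)
    (hM : KMin p a b 1 (P1 l p) Cl N (a + (1 : ℤ) * (X + (1 : ℤ) * I + R)))
    {Nu Xu Ru : ℤ} {Iu : ℝ} (hT : KCl p l Cl Nu Xu Ru Iu)
    (t0 : 0 < Iu)
    (t1 : 0 < D - Iu)
    (t2 : 0 < -(J : ℝ) + D - Iu)
    (t3 : 0 < (Xu : ℝ) + Iu)
    (t4 : 1 ≤ 1 + (a : ℝ) + (Ru : ℝ))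
    (t5 : 1 ≤ -(a : ℝ) - (c : ℝ) - (Ru : ℝ))
    (t6 : 0 < (c : ℝ) - (Xu : ℝ) - (Ru : ℝ) - Iu) :
    DC 1 p a b c J l q D dl Cl N X R I Nu Xu Ru Iu := by
  refine ⟨W, hc, hb2, hA, hK, hM, hT, ?_⟩
  have e : trow 1 = [(false, [0, 0, 0, 0, 0, 0, 0, 0, 0, 0, 0, 0, 1]),
     (false, [0, 0, 0, 0, 0, 0, 0, 0, 0, 0, 1, 0, -1]),
     (false, [0, 0, 0, 0, 0, -1, 0, 0, 0, 0, 1, 0, -1]),
     (false, [0, 0, 0, 0, 0, 0, 0, 0, 1, 0, 0, 0, 1]),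
     (true, [1, 1, 0, 0, 0, 0, 0, 0, 0, 1]),
     (true, [0, -1, 0, -1, 0, 0, 0, 0, 0, -1]),
     (false, [0, 0, 0, 1, 0, 0, 0, 0, -1, -1, 0, 0, -1])] := rfl
  rw [e]
  simp only [List.forall_mem_cons, List.not_mem_nil, false_imp_iff, implies_true,
    and_true, hld, xv, evg_cons, evg_nil, List.map_cons, List.map_nil, List.cons_append,
    List.nil_append, if_true, if_false, Bool.false_eq_true]
  push_cast
  refine ⟨by linarith, by linarith, by linarith, by linarith, by linarith, by linarith,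
    by linarith⟩

/-- closed cell over the variables `1 a b c p J X R | D I` -/
def GK (ds : ℤ) (Br : ℤ → ℝ → (ℤ → ℤ → ℤ → ℤ → ℝ → Prop) → Prop) (Q : List Con) : Prop :=
  ∀ {p a b c J l q : ℤ} {D dl : ℝ} {Cl : ℤ → ℤ → ℤ → ℤ → ℝ → Prop} {N X R : ℤ} {I : ℝ}
    {Nu Xu Ru : ℤ} {Iu : ℝ}, DC ds p a b c J l q D dl Cl N X R I Nu Xu Ru Iu → Br p D Cl →
    (∀ q ∈ Q, hld (xv [1, a, b, c, p, J, X, R] [D, I]) q) → False

/-- closed cell over the variables `1 a b c p J X R Xu Ru | D I Iu` -/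
def GT (ds : ℤ) (Br : ℤ → ℝ → (ℤ → ℤ → ℤ → ℤ → ℝ → Prop) → Prop) (Q : List Con) : Prop :=
  ∀ {p a b c J l q : ℤ} {D dl : ℝ} {Cl : ℤ → ℤ → ℤ → ℤ → ℝ → Prop} {N X R : ℤ} {I : ℝ}
    {Nu Xu Ru : ℤ} {Iu : ℝ}, DC ds p a b c J l q D dl Cl N X R I Nu Xu Ru Iu → Br p D Cl →
    (∀ q ∈ Q, hld (xv [1, a, b, c, p, J, X, R, Xu, Ru] [D, I, Iu]) q) → False

/-- closed cell over the variables `1 a b c p J X R Xu Ru Rh | D I Iu Ih` -/
def GH (ds : ℤ) (Br : ℤ → ℝ → (ℤ → ℤ → ℤ → ℤ → ℝ → Prop) → Prop) (xh : List ℤ)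
    (Q : List Con) : Prop :=
  ∀ {p a b c J l q : ℤ} {D dl : ℝ} {Cl : ℤ → ℤ → ℤ → ℤ → ℝ → Prop} {N X R : ℤ} {I : ℝ}
    {Nu Xu Ru : ℤ} {Iu : ℝ}, DC ds p a b c J l q D dl Cl N X R I Nu Xu Ru Iu → Br p D Cl →
    ∀ {Nh Rh : ℤ} {Ih : ℝ},
    UFac p (evg [1, a, b, c, p, J, X, R, Xu, Ru, Rh] xh) D Cl Nh Rh Ih →
    (∀ q ∈ Q, hld (xv [1, a, b, c, p, J, X, R, Xu, Ru, Rh] [D, I, Iu, Ih]) q) → False

/-- facts which always hold -/
def stdT (ds : ℤ) : List Con :=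
  [(true, [-1, 1]), (true, [-1, 0, 1]), (true, [0, -2, 0, 0, 1]), (true, [0, 0, -2, 0, 1]),
   (true, [0, 0, 0, 0, 0, 1]), (true, [0, 1, 0, -1]), (true, [0, 1, 0, 1]),
   (false, [0, 0, 0, 0, 0, -1, 0, 0, 0, 0, 1]),
   (false, [0, 0, 0, 0, 1, 0, 0, 0, 0, 0, -2]),
   (false, [0, 0, 0, 0, 0, 0, 0, 0, 0, 0, 0, 1]),
   (false, [0, 0, 0, 0, 0, 0, 0, 0, 0, 0, 1, -1]),
   (false, [0, 0, 1, 0, 0, 0, -1, 0, 0, 0, 0, Int.neg ds]),
   (false, [0, 0, 1, 0, 0, 0, 1, 0, 0, 0, 0, ds]),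
   (false, [0, 1, 0, 0, 0, 0, -1, -1, 0, 0, 0, Int.neg ds]),
   (false, [0, 1, 0, 0, 0, 0, 1, 1, 0, 0, 0, ds])] ++ trow ds

theorem DC.std {ds p a b c J l q : ℤ} {D dl : ℝ} {Cl : ℤ → ℤ → ℤ → ℤ → ℝ → Prop}
    {N X R : ℤ} {I : ℝ} {Nu Xu Ru : ℤ} {Iu : ℝ}
    (h : DC ds p a b c J l q D dl Cl N X R I Nu Xu Ru Iu) :
    ∀ q ∈ stdT ds, hld (xv [1, a, b, c, p, J, X, R, Xu, Ru] [D, I, Iu]) q := by
  have g := G0.of h.W.toBase h.hc
  have kz := KF.of h.hK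
  have g1 := g.a2
  have g2 := g.b2
  have g3 := g.pa
  have g4 := g.pb
  have g5 := g.J1
  have g6 := g.JD
  have g7 := g.D2
  have g8 := g.ca
  have g9 := g.ca'
  have k1 := kz.I0
  have k2 := kz.ID
  have k3 := kz.z1
  have k4 := kz.z2
  have k5 := kz.s1
  have k6 := kz.s2
  have hn : ((Int.neg ds : ℤ) : ℝ) = -(ds : ℝ) := by
    show ((-ds : ℤ) : ℝ) = _
    push_cast
    ring
  intro q hq
  rcases List.mem_append.1 hq with hq | hq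
  · have key : ∀ q ∈ ([(true, [-1, 1]), (true, [-1, 0, 1]), (true, [0, -2, 0, 0, 1]), (true, [0, 0, -2, 0, 1]),
     (true, [0, 0, 0, 0, 0, 1]), (true, [0, 1, 0, -1]), (true, [0, 1, 0, 1]),
     (false, [0, 0, 0, 0, 0, -1, 0, 0, 0, 0, 1]),
     (false, [0, 0, 0, 0, 1, 0, 0, 0, 0, 0, -2]),
     (false, [0, 0, 0, 0, 0, 0, 0, 0, 0, 0, 0, 1]),
     (false, [0, 0, 0, 0, 0, 0, 0, 0, 0, 0, 1, -1]),
     (false, [0, 0, 1, 0, 0, 0, -1, 0, 0, 0, 0, Int.neg ds]),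
     (false, [0, 0, 1, 0, 0, 0, 1, 0, 0, 0, 0, ds]),
     (false, [0, 1, 0, 0, 0, 0, -1, -1, 0, 0, 0, Int.neg ds]),
     (false, [0, 1, 0, 0, 0, 0, 1, 1, 0, 0, 0, ds])] : List Con),
       hld (xv [1, a, b, c, p, J, X, R, Xu, Ru] [D, I, Iu]) q := by
      simp only [List.forall_mem_cons, List.not_mem_nil, false_imp_iff, implies_true,
        and_true, hld, xv, evg_cons, evg_nil, List.map_cons, List.map_nil, List.cons_append,
        List.nil_append, if_true, if_false, Bool.false_eq_true, hn]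
      push_cast
      refine ⟨by linarith, by linarith, by linarith, by linarith, by linarith, by linarith,
        by linarith, by linarith, by linarith, by linarith, by linarith, by linarith, by linarith,
        by linarith, by linarith⟩
    exact key q hq
  · exact h.t q hq

/-- facts which always hold -/
def stdH (ds : ℤ) : List Con :=
  [(false, [0, 0, 0, 0, 0, 0, 0, 0, 0, 0, 0, 0, 0, 0, 1]),
   (false, [0, 0, 0, 0, 0, 0, 0, 0, 0, 0, 0, 1, 0, 0, -1]),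
   (true, [0, 0, 0, 0, 1, 0, 0, 0, 0, 0, 2]),
   (true, [0, 0, 0, 0, 1, 0, 0, 0, 0, 0, -2]),
   (true, [-1, 1]),
   (true, [-1, 0, 1]),
   (true, [0, -2, 0, 0, 1]),
   (true, [0, 0, -2, 0, 1]),
   (true, [0, 0, 0, 0, 0, 1]),
   (true, [0, 1, 0, -1]),
   (true, [0, 1, 0, 1]),
   (false, [0, 0, 0, 0, 0, -1, 0, 0, 0, 0, 0, 1]),
   (false, [0, 0, 0, 0, 1, 0, 0, 0, 0, 0, 0, -2]),
   (false, [0, 0, 0, 0, 0, 0, 0, 0, 0, 0, 0, 0, 1]),
   (false, [0, 0, 0, 0, 0, 0, 0, 0, 0, 0, 0, 1, -1]),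
   (false, [0, 0, 1, 0, 0, 0, -1, 0, 0, 0, 0, 0, Int.neg ds]),
   (false, [0, 0, 1, 0, 0, 0, 1, 0, 0, 0, 0, 0, ds]),
   (false, [0, 1, 0, 0, 0, 0, -1, -1, 0, 0, 0, 0, Int.neg ds]),
   (false, [0, 1, 0, 0, 0, 0, 1, 1, 0, 0, 0, 0, ds])] ++
  (if ds = 1 then
    [(false, [0, 0, 0, 0, 0, 0, 0, 0, 0, 0, 0, 0, 0, 1]),
   (false, [0, 0, 0, 0, 0, 0, 0, 0, 0, 0, 0, 1, 0, -1]),
   (false, [0, 0, 0, 0, 0, -1, 0, 0, 0, 0, 0, 1, 0, -1]),
   (false, [0, 0, 0, 0, 0, 0, 0, 0, 1, 0, 0, 0, 0, 1]),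
   (true, [1, 1, 0, 0, 0, 0, 0, 0, 0, 1]),
   (true, [0, -1, 0, -1, 0, 0, 0, 0, 0, -1]),
   (false, [0, 0, 0, 1, 0, 0, 0, 0, -1, -1, 0, 0, 0, -1])]
  else
    [(false, [0, 0, 0, 0, 0, 0, 0, 0, 0, 0, 0, 0, 0, 1]),
   (false, [0, 0, 0, 0, 0, 0, 0, 0, 0, 0, 0, 1, 0, -1]),
   (false, [0, 0, 0, 0, 0, -1, 0, 0, 0, 0, 0, 1, 0, -1]),
   (false, [0, 0, 0, 0, 0, 0, 0, 0, 1, 0, 0, 0, 0, -1]),
   (true, [1, 1, 0, 0, 0, 0, 0, 0, 0, 1]),
   (true, [0, -1, 0, 1, 0, 0, 0, 0, 0, -1]),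
   (false, [0, 0, 0, -1, 0, 0, 0, 0, -1, -1, 0, 0, 0, 1])])

theorem stdH_eq {ds : ℤ} (h : ds = 1 ∨ ds = -1) : stdH ds =
    [(false, [0, 0, 0, 0, 0, 0, 0, 0, 0, 0, 0, 0, 0, 0, 1]),
     (false, [0, 0, 0, 0, 0, 0, 0, 0, 0, 0, 0, 1, 0, 0, -1]),
     (true, [0, 0, 0, 0, 1, 0, 0, 0, 0, 0, 2]),
     (true, [0, 0, 0, 0, 1, 0, 0, 0, 0, 0, -2])] ++ (stdT ds).map (insC 10) := by
  rcases h with rfl | rfl <;> rfl

theorem evg_app {x : List ℝ} {y : ℝ} : ∀ {e : List ℤ}, e.length ≤ x.length →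
    evg (x ++ [y]) e = evg x e := by
  induction x with
  | nil =>
    intro e he
    cases e with
    | nil => simp
    | cons c e => simp at he
  | cons z x ih =>
    intro e he
    cases e with
    | nil => simp
    | cons c e =>
      simp only [List.cons_append, evg_cons]
      rw [ih (by simpa using he)]

/-- length test -/
def lle (n : ℕ) (L : List Con) : Bool := L.all fun c => c.2.length ≤ n

theorem hld_app {x : List ℝ} {y : ℝ} {c : Con} (hc : c.2.length ≤ x.length) (h : hld x c) :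
    hld (x ++ [y]) c := by
  simp only [hld] at h ⊢
  rw [evg_app hc]
  exact h

/-- lift from `GK` to `GT` -/
theorem liftKT {a b c p J X R Xu Ru : ℤ} {D I Iu : ℝ} {Q : List Con}
    (hl : lle 10 Q = true)
    (h : ∀ q ∈ Q, hld (xv [1, a, b, c, p, J, X, R] [D, I]) q) :
    ∀ q ∈ Q.map (fun c => insC 8 (insC 8 c)),
      hld (xv [1, a, b, c, p, J, X, R, Xu, Ru] [D, I, Iu]) q := by
  intro q hq
  obtain ⟨c', hc', rfl⟩ := List.mem_map.1 hq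
  have h1 := h c' hc'
  have h0 : c'.2.length ≤ 10 := by
    have := List.all_eq_true.1 hl c' hc'
    simpa using this
  have h2 : hld ([(1 : ℝ), a, b, c, p, J, X, R] ++ [D, I, Iu]) c' := by
    have h3 := hld_app (y := Iu) (x := [(1 : ℝ), a, b, c, p, J, X, R, D, I]) h0
      (by simpa [xv] using h1)
    simpa using h3
  have h4 := hld_insC (y := (Ru : ℝ)) h2
  have h5 : hld ([(1 : ℝ), a, b, c, p, J, X, R] ++ (Xu : ℝ) :: [(Ru : ℝ), D, I, Iu])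
      (insC 8 (insC 8 c')) := hld_insC (x1 := [(1 : ℝ), a, b, c, p, J, X, R]) h4
  simpa [xv] using h5

/-- lift from `GT` to `GH` -/
theorem liftTH {a b c p J X R Xu Ru Rh : ℤ} {D I Iu Ih : ℝ} {Q : List Con}
    (hl : lle 13 Q = true)
    (h : ∀ q ∈ Q, hld (xv [1, a, b, c, p, J, X, R, Xu, Ru] [D, I, Iu]) q) :
    ∀ q ∈ Q.map (insC 10),
      hld (xv [1, a, b, c, p, J, X, R, Xu, Ru, Rh] [D, I, Iu, Ih]) q := by
  intro q hq
  obtain ⟨c', hc', rfl⟩ := List.mem_map.1 hq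
  have h1 := h c' hc'
  have h0 : c'.2.length ≤ 13 := by
    have := List.all_eq_true.1 hl c' hc'
    simpa using this
  have h2 : hld ([(1 : ℝ), a, b, c, p, J, X, R, Xu, Ru] ++ [D, I, Iu, Ih]) c' := by
    have h3 := hld_app (y := Ih) (x := [(1 : ℝ), a, b, c, p, J, X, R, Xu, Ru, D, I, Iu]) h0
      (by simpa [xv] using h1)
    simpa using h3
  have h4 : hld ([(1 : ℝ), a, b, c, p, J, X, R, Xu, Ru] ++ (Rh : ℝ) :: [D, I, Iu, Ih])
      (insC 10 c') := hld_insC (x1 := [(1 : ℝ), a, b, c, p, J, X, R, Xu, Ru]) h2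
  simpa [xv] using h4

theorem DC.stdH {ds p a b c J l q : ℤ} {D dl : ℝ} {Cl : ℤ → ℤ → ℤ → ℤ → ℝ → Prop}
    {N X R : ℤ} {I : ℝ} {Nu Xu Ru : ℤ} {Iu : ℝ}
    (h : DC ds p a b c J l q D dl Cl N X R I Nu Xu Ru Iu) {B : ℤ} {Nh Rh : ℤ} {Ih : ℝ}
    (hh : UFac p B D Cl Nh Rh Ih) :
    ∀ q ∈ stdH ds, hld (xv [1, a, b, c, p, J, X, R, Xu, Ru, Rh] [D, I, Iu, Ih]) q := by
  intro q hq
  have hds0 := h.W.hds
  rw [stdH_eq (by rcases hds0 with ⟨h1, _⟩ | ⟨h1, _⟩ <;> simp [h1])] at hq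
  rcases List.mem_append.1 hq with hq | hq
  · have i1 := hh.I0
    have i2 := hh.ID
    have i3 : -(p : ℝ) + 1 ≤ 2 * Rh := by
      exact_mod_cast (by have := hh.R1; omega : -p + 1 ≤ 2 * Rh)
    have i4 : 2 * (Rh : ℝ) + 1 ≤ p := by
      exact_mod_cast (by have := hh.R2; omega : 2 * Rh + 1 ≤ p)
    have key : ∀ q ∈ ([(false, [0, 0, 0, 0, 0, 0, 0, 0, 0, 0, 0, 0, 0, 0, 1]),
       (false, [0, 0, 0, 0, 0, 0, 0, 0, 0, 0, 0, 1, 0, 0, -1]),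
       (true, [0, 0, 0, 0, 1, 0, 0, 0, 0, 0, 2]),
       (true, [0, 0, 0, 0, 1, 0, 0, 0, 0, 0, -2])] : List Con),
       hld (xv [1, a, b, c, p, J, X, R, Xu, Ru, Rh] [D, I, Iu, Ih]) q := by
      simp only [List.forall_mem_cons, List.not_mem_nil, false_imp_iff, implies_true,
        and_true, hld, xv, evg_cons, evg_nil, List.map_cons, List.map_nil, List.cons_append,
        List.nil_append, if_true, if_false, Bool.false_eq_true]
      push_cast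
      refine ⟨by linarith, by linarith, by linarith, by linarith⟩
    exact key q hq
  · refine liftTH ?_ h.std q hq
    have hds := h.W.hds
    rcases hds with ⟨rfl, _⟩ | ⟨rfl, _⟩ <;> decide +kernel

/-- class data -/
def KT (ds : ℤ) : Cls :=
  cT ds (kfM ds [0, 0, 0, 0, 0, 0, 1, 0, 0, 0, 0, ds] [0, 0, 0, 0, 0, 0, 1, 1, 0, 0, 0, ds] true)

/-- class data -/
def KH (ds : ℤ) (xh : List ℤ) : Cls :=
  cTH ds xh (kfM ds [0, 0, 0, 0, 0, 0, 1, 0, 0, 0, 0, 0, ds] [0, 0, 0, 0, 0, 0, 1, 1, 0, 0, 0, 0, ds]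
    true)

theorem GT.of {ds : ℤ} {Br : ℤ → ℝ → (ℤ → ℤ → ℤ → ℤ → ℝ → Prop) → Prop} {Q : List Con}
    (h : Clo (KT ds) (GT ds Br) Q) : GT ds Br Q := by
  intro p a b c J l q D dl Cl N X R I Nu Xu Ru Iu C hB hQ
  have hg : gl (KT ds) = true := by
    rcases C.W.hds with ⟨rfl, _⟩ | ⟨rfl, _⟩ <;> decide +kernel
  have hkf : ∀ kf ∈ kfM ds [0, 0, 0, 0, 0, 0, 1, 0, 0, 0, 0, ds] [0, 0, 0, 0, 0, 0, 1, 1, 0, 0, 0, ds] true,
      KOk p l Cl ds (xv [1, a, b, c, p, J, X, R, Xu, Ru] [D, I, Iu]) N kf := by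
    refine kok_M (R := R) (X := X) (I := I) (dg := true) C.hM rfl ?_ ?_ ?_ ?_ ?_ ?_ <;>
      simp [xv] <;> ring
  refine (val_T C.W.toBase (KCl.of C.hK) C.hT _).closed C.W hg (Nk := N) (fun kf _ _ => ⟨_, rfl⟩)
    hkf (H := GT ds Br) ?_ h hQ
  intro Q' h1 h2
  exact h1 C hB h2

theorem GT.sub {ds : ℤ} {Br : ℤ → ℝ → (ℤ → ℤ → ℤ → ℤ → ℝ → Prop) → Prop} {L Q : List Con}
    (h : GT ds Br L) (n : ℕ) (hs : sbi (stdT ds ++ Q) L n = true) : GT ds Br Q := by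
  intro p a b c J l q D dl Cl N X R I Nu Xu Ru Iu C hB hQ
  exact h C hB (sbi_hld (app_hld C.std hQ) hs)

/-- admissible labels -/
def Xok (xh : List ℤ) : Prop :=
  xh = [0, 0, 1] ∨ xh = [1] ∨ xh = [0, 0, 0, 0, 0, 1] ∨ xh = []

theorem GH.of {ds : ℤ} {Br : ℤ → ℝ → (ℤ → ℤ → ℤ → ℤ → ℝ → Prop) → Prop} {xh : List ℤ}
    {Q : List Con} (hx : Xok xh)
    (h : Clo (KH ds xh) (GH ds Br xh) Q) : GH ds Br xh Q := by
  intro p a b c J l q D dl Cl N X R I Nu Xu Ru Iu C hB Nh Rh Ih hh hQ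
  have hg : gl (KH ds xh) = true := by
    rcases C.W.hds with ⟨rfl, _⟩ | ⟨rfl, _⟩ <;> rcases hx with rfl | rfl | rfl | rfl <;> decide +kernel
  have hkf : ∀ kf ∈ kfM ds [0, 0, 0, 0, 0, 0, 1, 0, 0, 0, 0, 0, ds]
        [0, 0, 0, 0, 0, 0, 1, 1, 0, 0, 0, 0, ds] true,
      KOk p l Cl ds (xv [1, a, b, c, p, J, X, R, Xu, Ru, Rh] [D, I, Iu, Ih]) N kf := by
    refine kok_M (R := R) (X := X) (I := I) (dg := true) C.hM rfl ?_ ?_ ?_ ?_ ?_ ?_ <;>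
      simp [xv] <;> ring
  refine (val_TH C.W.toBase (KCl.of C.hK) C.hT hh rfl ?_ _).closed C.W hg (Nk := N)
    (fun kf _ _ => ⟨_, rfl⟩) hkf (H := GH ds Br xh) ?_ h hQ
  · rcases hx with rfl | rfl | rfl | rfl <;> simp
  · intro Q' h1 h2
    exact h1 C hB hh h2

theorem GH.sub {ds : ℤ} {Br : ℤ → ℝ → (ℤ → ℤ → ℤ → ℤ → ℝ → Prop) → Prop} {xh : List ℤ}
    {L Q : List Con}
    (h : GH ds Br xh L) (n : ℕ) (hs : sbi (Helper55.TR.stdH ds ++ Q) L n = true) :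
    GH ds Br xh Q := by
  intro p a b c J l q D dl Cl N X R I Nu Xu Ru Iu C hB Nh Rh Ih hh hQ
  exact h C hB hh (sbi_hld (app_hld (C.stdH hh) hQ) hs)

/-- from an element with the given abscissa -/
theorem GT.lab {ds : ℤ} {Br : ℤ → ℝ → (ℤ → ℤ → ℤ → ℤ → ℝ → Prop) → Prop} {xh : List ℤ}
    {L Q : List Con} (h : GH ds Br xh L) (n : ℕ)
    (hs : (lle 13 Q && sbi (Helper55.TR.stdH ds ++ Q.map (insC 10)) L n) = true)
    (hx : Xok xh)
    (hex : ∀ {p a b c J l q : ℤ} {D dl : ℝ} {Cl : ℤ → ℤ → ℤ → ℤ → ℝ → Prop}, World p a b c J ds l q D dl Cl →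
      Aux p a b ds D Cl → Br p D Cl → ∀ B, B = evg [1, a, b, c, p, J] xh →
      ∃ N R I, UFac p B D Cl N R I) : GT ds Br Q := by
  intro p a b c J l q D dl Cl N X R I Nu Xu Ru Iu C hB hQ
  obtain ⟨h1, h2⟩ := Bool.and_eq_true_iff.1 hs
  obtain ⟨Nh, Rh, Ih, hh⟩ := hex C.W C.hA hB _ rfl
  have e : evg [1, a, b, c, p, J] xh = evg [1, a, b, c, p, J, X, R, Xu, Ru, Rh] xh := by
    rcases hx with rfl | rfl | rfl | rfl <;> simp
  rw [e] at hh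
  exact h C hB hh (sbi_hld (app_hld (C.stdH hh) (liftTH h1 hQ)) h2)

theorem exb {p a b c J ds l q : ℤ} {D dl : ℝ} {Cl : ℤ → ℤ → ℤ → ℤ → ℝ → Prop}
    (W : World p a b c J ds l q D dl Cl) (hA : Aux p a b ds D Cl) (hB : BrU p D Cl) (B : ℤ)
    (h : B = evg [1, a, b, c, p, J] [0, 0, 1]) : ∃ N R I, UFac p B D Cl N R I := by
  have : B = b := by simpa using h
  subst this
  rcases hA.uvw with h | ⟨N', R', I', h⟩ | ⟨⟨N', R', I', h⟩, -⟩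
  · exact h
  · exact (hB.1 h).elim
  · exact (hB.2 h).elim

theorem ex1 {p a b c J ds l q : ℤ} {D dl : ℝ} {Cl : ℤ → ℤ → ℤ → ℤ → ℝ → Prop}
    (W : World p a b c J ds l q D dl Cl) (hA : Aux p a b ds D Cl) (hB : BrU p D Cl) (B : ℤ)
    (h : B = evg [1, a, b, c, p, J] [1]) : ∃ N R I, UFac p B D Cl N R I := by
  have : B = 1 := by simpa using h
  subst this
  rcases labB W.toBase hA (B := 1) (by norm_num)
    (by have := W.ha; have := W.h2a; omega) with h | ⟨N', R', I', h⟩ | ⟨N', R', I', h⟩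
  · exact h
  · exact (hB.1 h).elim
  · exact (hB.2 h).elim

theorem exJ {p a b c J ds l q : ℤ} {D dl : ℝ} {Cl : ℤ → ℤ → ℤ → ℤ → ℝ → Prop}
    (W : World p a b c J ds l q D dl Cl) (hA : Aux p a b ds D Cl) (hB : BrU p D Cl) (B : ℤ)
    (h : B = evg [1, a, b, c, p, J] [0, 0, 0, 0, 0, 1]) : ∃ N R I, UFac p B D Cl N R I := by
  have : B = J := by simpa using h
  subst this
  rcases labB W.toBase hA (B := B) (by have := W.hJ; omega) (by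
      have h1 := W.hJD
      have h2 := W.hD
      have h3 : (2 : ℝ) * B < p := by linarith
      exact_mod_cast h3) with h | ⟨N', R', I', h⟩ | ⟨N', R', I', h⟩
  · exact h
  · exact (hB.1 h).elim
  · exact (hB.2 h).elim

theorem ex0 {p a b c J ds l q : ℤ} {D dl : ℝ} {Cl : ℤ → ℤ → ℤ → ℤ → ℝ → Prop}
    (W : World p a b c J ds l q D dl Cl) (hA : Aux p a b ds D Cl) (hB : BrV p D Cl) (B : ℤ)
    (h : B = evg [1, a, b, c, p, J] []) : ∃ N R I, UFac p B D Cl N R I := by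
  have : B = 0 := by simpa using h
  subst this
  obtain ⟨N', R', I', h⟩ := hB
  exact ⟨_, _, _, ufV h⟩

theorem GT.lb {ds : ℤ} {L Q : List Con} (h : GH ds BrU [0, 0, 1] L) (n : ℕ)
    (hs : (lle 13 Q && sbi (Helper55.TR.stdH ds ++ Q.map (insC 10)) L n) = true) : GT ds BrU Q :=
  GT.lab h n hs (Or.inl rfl) (fun W hA hB B hB' => exb W hA hB B hB')

theorem GT.l1 {ds : ℤ} {L Q : List Con} (h : GH ds BrU [1] L) (n : ℕ)
    (hs : (lle 13 Q && sbi (Helper55.TR.stdH ds ++ Q.map (insC 10)) L n) = true) : GT ds BrU Q :=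
  GT.lab h n hs (Or.inr (Or.inl rfl)) (fun W hA hB B hB' => ex1 W hA hB B hB')

theorem GT.lJ {ds : ℤ} {L Q : List Con} (h : GH ds BrU [0, 0, 0, 0, 0, 1] L) (n : ℕ)
    (hs : (lle 13 Q && sbi (Helper55.TR.stdH ds ++ Q.map (insC 10)) L n) = true) : GT ds BrU Q :=
  GT.lab h n hs (Or.inr (Or.inr (Or.inl rfl))) (fun W hA hB B hB' => exJ W hA hB B hB')

theorem GT.l0 {ds : ℤ} {L Q : List Con} (h : GH ds BrV [] L) (n : ℕ)
    (hs : (lle 13 Q && sbi (Helper55.TR.stdH ds ++ Q.map (insC 10)) L n) = true) : GT ds BrV Q :=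
  GT.lab h n hs (Or.inr (Or.inr (Or.inr rfl))) (fun W hA hB B hB' => ex0 W hA hB B hB')

/-- the second cluster -/
theorem GK.t {ds : ℤ} {Br : ℤ → ℝ → (ℤ → ℤ → ℤ → ℤ → ℝ → Prop) → Prop} {L Q : List Con}
    (h : GT ds Br L) (n : ℕ)
    (hs : (lle 10 Q && sbi (stdT ds ++ Q.map (fun c => insC 8 (insC 8 c))) L n) = true) :
    GK ds Br Q := by
  intro p a b c J l q D dl Cl N X R I Nu Xu Ru Iu C hB hQ
  obtain ⟨h1, h2⟩ := Bool.and_eq_true_iff.1 hs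
  exact h C hB (sbi_hld (app_hld C.std (liftKT h1 hQ)) h2)

end Helper55.TR
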