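import Pool.Agent.Helper55.TR.Dip
import Pool.Agent.Helper25.KW.W1

set_option autoImplicit false
set_option linter.unusedSectionVars false

/-!
# The dipole of the triangle in coordinates
-/

namespace Helper55.TR

open Helper11.N1 Helper55.KE Helper12.TL Helper25.KW

/-- position of a dipole relative to the merged line, class `κ > 0`; `w` is the shift of the left
corners -/
def DipP (q a κ w x r : ℤ) : Prop :=
  (κ ≤ r ∧ 0 < x + w ∧ x + w + r * q < a * q ∧ (x < 0 ∨ (a - κ) * q < x + r * q)) ∨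
  (-a ≤ r ∧ 0 < x ∧ x + r * q < -κ * q ∧ (r < -a + κ ∨ x + w < 0 ∨ 0 < x + w + r * q))

/-- position of a dipole relative to the merged line, class `-κ < 0` -/
def DipN (q a κ w x r : ℤ) : Prop :=
  (κ ≤ r ∧ 0 < x ∧ x + r * q < a * q ∧ (x + w < 0 ∨ (a - κ) * q < x + w + r * q)) ∨
  (-a ≤ r ∧ 0 < x + w ∧ x + w + r * q < -κ * q ∧ (r < -a + κ ∨ x < 0 ∨ 0 < x + r * q))

section

variable {p q a b c : ℕ} [NeZero p] [NeZero q] {z : ZMod p → ZMod (p * q)} {i0 ρ : ZMod p}
  {θ : ZMod (p * q)} {δ l : ℕ} {k : ℤ} {s ds J : ℤ}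

theorem out1 (X : ZMod (p * q)) (W : ZMod p) {T : ℕ} (hT : T < p * q) {P' : ZMod (p * q)}
    {J' : ZMod p} {o' v' : ℤ} (hP : P' = X + (o' : ZMod (p * q)))
    (hJ : J' = W + (v' : ZMod p)) (ho : 0 ≤ o') (ho2 : o' < p * q) (hv : 0 ≤ v') (hv2 : v' < p)
    (hout : ¬ tri q X W (X + e p q W + (T : ZMod (p * q))) P' J') :
    (T : ℤ) ≤ o' + q * v' := by
  obtain ⟨m, rfl⟩ := Int.eq_ofNat_of_zero_le ho
  obtain ⟨r, rfl⟩ := Int.eq_ofNat_of_zero_le hv
  rw [tri_iff X W hT (m := m) (r := r) (by rw [hP]; simp) (by exact_mod_cast ho2)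
    (by rw [hJ]; simp) (by exact_mod_cast hv2)] at hout
  push Not at hout
  exact_mod_cast hout

theorem in1 (X : ZMod (p * q)) (W : ZMod p) {T : ℕ} (hT : T < p * q) {P' : ZMod (p * q)}
    {J' : ZMod p} (hin : tri q X W (X + e p q W + (T : ZMod (p * q))) P' J') :
    ∃ o v : ℕ, P' = X + (o : ZMod (p * q)) ∧ J' = W + (v : ZMod p) ∧ v < p ∧ o + q * v < T := by
  refine ⟨off X P', (J' - W).val, (off_spec _ _).symm, ?_, ZMod.val_lt _, ?_⟩
  · rw [ZMod.natCast_zmod_val]
    ring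
  · unfold tri at hin
    rwa [off_nat _ hT] at hin

/-- an integer in `(0, p)` is not zero modulo `p` -/
theorem nz {t : ℤ} (h0 : 0 < t) (h1 : t < p) : ((t : ℤ) : ZMod p) ≠ 0 := by
  intro h
  have := (ZMod.intCast_zmod_eq_zero_iff_dvd _ _).1 h
  have := Int.le_of_dvd h0 this
  omega

/-- the data at the base line `n` -/
theorem sgBase (h : SG p q a b c z i0 ρ θ δ l k s ds J) {n f : ℕ} (hln : l ≤ n) (hn : n < p)
    (hf : f < p) :
    z (i0 + (f : ZMod p) * ρ) = bx q c z (i0 + (n : ZMod p) * ρ) + (c : ZMod (p * q)) +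
      (((f : ℤ) - n : ℤ) : ZMod (p * q)) * θ ∧
    z (i0 + (f : ZMod p) * ρ - ((k + b : ℤ) : ZMod p)) - (b : ZMod (p * q)) * (q : ZMod (p * q)) =
      bx q c z (i0 + (n : ZMod p) * ρ) + ((1 - c : ℕ) : ZMod (p * q)) +
      (((f : ℤ) - n : ℤ) : ZMod (p * q)) * θ +
      (((if f < l then ds * s * p else 0) : ℤ) : ZMod (p * q)) := by
  have hls := h.ls
  have h1 := hls.hAP.2 f hf
  have h2 := hls.hAP.2 n hn
  have h3 := hls.castc
  have h4 := hls.hxl
  constructor
  · unfold bx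
    rw [h1, h2]
    push_cast
    ring
  · have hpθ := mul_p_lift (p := p) h.hθ
    by_cases hfl : f < l
    · rw [if_pos hfl]
      have e1 : i0 + (f : ZMod p) * ρ - ((k + b : ℤ) : ZMod p) =
          i0 + ((f + p - l : ℕ) : ZMod p) * ρ := by
        rw [← hls.hrl, Nat.cast_sub (by have := hls.hl; omega)]
        push_cast
        rw [ZMod.natCast_self]
        ring
      rw [e1, hls.hAP.2 (f + p - l) (by omega), Nat.cast_sub (by have := hls.hl; omega)]
      unfold bx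
      rw [h2]
      push_cast at h3 h4 hpθ ⊢
      linear_combination hpθ - h4 + h3
    · rw [if_neg hfl]
      have e1 : i0 + (f : ZMod p) * ρ - ((k + b : ℤ) : ZMod p) =
          i0 + ((f - l : ℕ) : ZMod p) * ρ := by
        rw [← hls.hrl, Nat.cast_sub (by omega)]
        ring
      rw [e1, hls.hAP.2 (f - l) (by omega), Nat.cast_sub (by omega)]
      unfold bx
      rw [h2]
      push_cast at h3 h4 ⊢
      linear_combination h3 - h4

/-- residues of the right corners -/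
theorem twoA (h : SG p q a b c z i0 ρ θ δ l k s ds J) {n f : ℕ} (hln : l ≤ n) (hn : n < p)
    (hf : f < p) (h1 : f ≠ n) (h2 : f + l ≠ n) {o : ℕ}
    (ho : z (i0 + (f : ZMod p) * ρ) = bx q c z (i0 + (n : ZMod p) * ρ) + (o : ZMod (p * q))) :
    2 ≤ o % q := by
  have hls := h.ls
  have hzm : z (i0 + ((n - l : ℕ) : ZMod p) * ρ) = bx q c z (i0 + (n : ZMod p) * ρ) +
      ((1 - c : ℕ) : ZMod (p * q)) + (b : ZMod (p * q)) * (q : ZMod (p * q)) := by
    have h1 := hls.mg hn (by omega) (hls.mgl hln)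
    rw [← h1]
    unfold byy
    ring
  refine two_le hls.hG hls.hB.hc (jn := i0 + (n : ZMod p) * ρ) ?_ hzm
    (ap_ne hls.hAP hf hn h1) (ap_ne hls.hAP hf (by omega) (by omega)) (o := o) ?_
  · unfold bx
    ring
  · rw [ho, map_add, map_natCast]

/-- residues of the left corners -/
theorem twoC (h : SG p q a b c z i0 ρ θ δ l k s ds J) {n f : ℕ} (hln : l ≤ n) (hn : n < p)
    (hf : f < p) (h1 : f ≠ n) (h2 : f ≠ n + l) (h3 : f + p ≠ n + l) {o : ℕ}
    (ho : z (i0 + (f : ZMod p) * ρ - ((k + b : ℤ) : ZMod p)) -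
      (b : ZMod (p * q)) * (q : ZMod (p * q)) =
      bx q c z (i0 + (n : ZMod p) * ρ) + (o : ZMod (p * q))) :
    2 ≤ o % q := by
  have hls := h.ls
  have hlp := hls.hl
  have hzm : z (i0 + ((n - l : ℕ) : ZMod p) * ρ) = bx q c z (i0 + (n : ZMod p) * ρ) +
      ((1 - c : ℕ) : ZMod (p * q)) + (b : ZMod (p * q)) * (q : ZMod (p * q)) := by
    have h1 := hls.mg hn (by omega) (hls.mgl hln)
    rw [← h1]
    unfold byy
    ring
  obtain ⟨g, hg, hgn, hgl, hge⟩ : ∃ g : ℕ, g < p ∧ g ≠ n ∧ g ≠ n - l ∧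
      i0 + (f : ZMod p) * ρ - ((k + b : ℤ) : ZMod p) = i0 + (g : ZMod p) * ρ := by
    by_cases hfl : f < l
    · refine ⟨f + p - l, by omega, by omega, by omega, ?_⟩
      rw [← hls.hrl, Nat.cast_sub (by omega)]
      push_cast
      rw [ZMod.natCast_self]
      ring
    · refine ⟨f - l, by omega, by omega, by omega, ?_⟩
      rw [← hls.hrl, Nat.cast_sub (by omega)]
      ring
  rw [hge] at ho
  refine two_le hls.hG hls.hB.hc (jn := i0 + (n : ZMod p) * ρ) ?_ hzm
    (ap_ne hls.hAP hg hn hgn) (ap_ne hls.hAP hg (by omega) hgl) (o := o) ?_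
  · unfold bx
    ring
  · have := congrArg (res p q) ho
    rw [map_sub, res_mul_q, sub_zero, map_add, map_natCast] at this
    exact this

end

end Helper55.TR
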