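import Pool.Agent.Helper55.TR.Ext

set_option autoImplicit false
set_option linter.unusedSectionVars false

/-!
# The refined T-lemma, integer form (`2 a ≤ b`)
-/

namespace Helper55.TR

open Helper11.N1 Helper55.KE Helper12.TL Helper25.KW

section

variable {p q a b c : ℕ} [NeZero p] [NeZero q] {z : ZMod p → ZMod (p * q)} {i0 ρ : ZMod p}
  {θ : ZMod (p * q)} {δ l : ℕ} {k : ℤ} {s ds J : ℤ}

/-- bounds of the shift -/
theorem shift_bd (h : SG p q a b c z i0 ρ θ δ l k s ds J) (f : ℕ) {w : ℤ}
    (hw : w = if f < l then ds * s * p else 0) :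
    (f < l → w = ds * s * p) ∧ (¬ f < l → w = 0) ∧ 2 * |w| < p * q := by
  have hs := h.hs
  have h2s := h.h2s
  have hpq := h.ls.hpq
  have hl := h.ls.hl
  have hp0 : (0 : ℤ) < p := by omega
  refine ⟨fun h1 => by rw [hw, if_pos h1], fun h1 => by rw [hw, if_neg h1], ?_⟩
  rw [hw]
  by_cases h1 : f < l
  · rw [if_pos h1]
    have h3 : |ds * s * (p : ℤ)| = s * p := by
      have hp1 : |(p : ℤ)| = p := abs_of_pos hp0
      have hs1 : |s| = s := abs_of_nonneg (by omega)
      rcases h.hds with h4 | h4 <;> rw [h4, abs_mul, abs_mul, hs1, hp1] <;> simp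
    rw [h3]
    nlinarith
  · rw [if_neg h1, abs_zero]
    nlinarith

theorem trP (h : SG p q a b c z i0 ρ θ δ l k s ds J) {κ : ℕ} (hk : k = κ) (hκ : 1 ≤ κ)
    (hκa : κ < a) (h2 : 2 * a ≤ b) (h2b : 2 * b < p) {n : ℕ} (hln : l ≤ n) (hn : n < p) :
    ∃ (f : ℕ) (x r : ℤ), f < p ∧ f ≠ n ∧ f + l ≠ n ∧ f ≠ n + l ∧ f + p ≠ n + l ∧
      (((f : ℤ) - n : ℤ) : ZMod (p * q)) * θ = (x : ZMod (p * q)) ∧
      (((f : ℤ) - n : ℤ) : ZMod p) * ρ = (r : ZMod p) ∧
      DipP q a κ (if f < l then ds * s * p else 0) x r := by
  have hls := h.ls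
  have hP := hls.hP
  have ha := hP.ha
  have hb2 := hP.hb
  have hab := hP.hab
  have hc := hls.hB.hc
  have hpq := hls.hpq
  have hlp := hls.hl
  set jn := i0 + (n : ZMod p) * ρ with hjn
  set X := bx q c z jn with hX
  have hX0 : rp p q X = 0 := bx_rp hls.hB jn
  set t : ZMod p := ((k + b : ℤ) : ZMod p) with ht
  have ht1 : t = (b : ZMod p) + κ := by rw [ht, hk]; push_cast; ring
  have hzn : z jn = X + (c : ZMod (p * q)) := by
    rw [hX]; unfold bx; ring
  have hzm : z (jn - t) = X + ((1 - c : ℕ) : ZMod (p * q)) +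
      (b : ZMod (p * q)) * (q : ZMod (p * q)) := by
    have h1 := hls.mg hn (by omega) (hls.mgl hln)
    have h3 : jn - t = i0 + ((n - l : ℕ) : ZMod p) * ρ := by
      rw [hjn, ht, ← hls.hrl, Nat.cast_sub hln]
      ring
    rw [hX, ← h1, h3]
    unfold byy
    ring
  obtain ⟨j, hj, hdip⟩ := dip_pos hP hpq hc hκ hκa.le (by omega) ht1 hzn hzm (hls.hF _ _ _ hX0)
  obtain ⟨f, hf, rfl⟩ := ap_row hls.hAP j
  have hfn : f ≠ n := by
    rintro rfl
    exact hj rfl
  obtain ⟨zA, zC⟩ := sgBase h hln hn hf
  rw [← hjn, ← hX] at zA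
  rw [← hjn, ← hX, ← ht] at zC
  obtain ⟨w, hw⟩ : ∃ w : ℤ, w = if f < l then ds * s * p else 0 := ⟨_, rfl⟩
  rw [← hw] at zC
  obtain ⟨-, hw2, hw3⟩ := shift_bd h f hw
  have hT : q * (a - κ) + 2 < p * q := by
    have h5 : q * (a - κ + 1) ≤ q * p := Nat.mul_le_mul_left _ (by omega)
    have h6 : q * (a - κ + 1) = q * (a - κ) + q := by ring
    have h7 : q * p = p * q := Nat.mul_comm _ _
    omega
  -- the row of `f` relative to `n`
  have hrho : (((f : ℤ) - n : ℤ) : ZMod p) * ρ = i0 + (f : ZMod p) * ρ - jn := by
    rw [hjn]; push_cast; ring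
  have hrl := hls.hrl
  rw [← ht] at hrl
  -- large bound
  have hbig : (q : ℤ) * (a - κ) + 2 + |w| + 2 < p * q := by
    have e1 : (4 * a : ℤ) < p := by omega
    have e2 : (q : ℤ) * (4 * a) ≤ q * (p - 1) := mul_le_mul_of_nonneg_left (by omega) (by omega)
    have e3 : (q : ℤ) * (a - κ) ≤ q * a := mul_le_mul_of_nonneg_left (by omega) (by omega)
    have e4 : (9 : ℤ) ≤ p := by omega
    have e5 : (9 : ℤ) * q ≤ p * q := mul_le_mul_of_nonneg_right e4 (by omega)
    have e6 : (q : ℤ) * (p - 1) = p * q - q := by ring
    have e7 : (q : ℤ) * (4 * a) = 4 * (q * a) := by ring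
    omega
  have habs1 := neg_abs_le w
  have habs2 := le_abs_self w
  -- the special dipoles are excluded by their rows
  have hspec : ∀ (v : ℕ), v ≤ a - κ →
      (i0 + (f : ZMod p) * ρ - t + b = jn + (v : ZMod p) ∨
        i0 + (f : ZMod p) * ρ + a = jn + (v : ZMod p)) →
      f + l ≠ n ∧ f ≠ n + l ∧ f + p ≠ n + l := by
    intro v hv hor
    have key : ∀ ε : ℤ, (ε = 1 ∨ ε = -1) → i0 + (f : ZMod p) * ρ = jn + (ε : ZMod p) * t →
        False := by
      intro ε hε he
      rcases hor with h3 | h3
      · rw [he, ht1] at h3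
        rcases hε with rfl | rfl
        · apply nz (p := p) (t := (b : ℤ) - v) (by omega) (by omega)
          push_cast at h3 ⊢
          linear_combination h3
        · apply nz (p := p) (t := (b : ℤ) + 2 * κ + v) (by omega) (by omega)
          push_cast at h3 ⊢
          linear_combination -h3
      · rw [he, ht1] at h3
        rcases hε with rfl | rfl
        · apply nz (p := p) (t := (b : ℤ) + κ + a - v) (by omega) (by omega)
          push_cast at h3 ⊢
          linear_combination h3
        · apply nz (p := p) (t := (b : ℤ) + κ - a + v) (by omega) (by omega)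
          push_cast at h3 ⊢
          linear_combination -h3
    refine ⟨fun h4 => key (-1) (Or.inr rfl) ?_, fun h4 => key 1 (Or.inl rfl) ?_,
      fun h4 => key 1 (Or.inl rfl) ?_⟩
    · rw [hjn, ← h4, ← hrl]
      push_cast
      ring
    · rw [hjn, h4, ← hrl]
      push_cast
      ring
    · have h5 : (f : ZMod p) = (n : ZMod p) + (l : ZMod p) := by
        have := congrArg (fun t : ℕ => (t : ZMod p)) h4
        simpa using this
      rw [hjn, h5, ← hrl]
      push_cast
      ring
  have hq4 : 2 < q := by omega
  rcases hdip with ⟨hin, hout⟩ | ⟨hin, hout⟩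
  · -- a left corner is inside
    obtain ⟨o, v, ho, hv, hvp, hov⟩ := in1 X jn hT hin
    have hva : v ≤ a - κ := by
      by_contra h3
      have h4 : q * (a - κ + 1) ≤ q * v := Nat.mul_le_mul_left _ (by omega)
      have h5 : q * (a - κ + 1) = q * (a - κ) + q := by ring
      omega
    obtain ⟨g1, g2, g3⟩ := hspec v hva (Or.inl hv)
    have h5 := twoC h hln hn hf hfn g2 g3 (o := o) ho
    obtain ⟨h6, h7⟩ := box_lt h5 hov
    have h8 : o % q ≤ o := Nat.mod_le _ _
    refine ⟨f, (o : ℤ) - (1 - c) - w, (v : ℤ) + κ, hf, hfn, g1, g2, g3, ?_, ?_, ?_⟩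
    · rw [ho] at zC
      push_cast [Nat.cast_sub hc] at zC ⊢
      linear_combination -zC
    · rw [hrho]
      push_cast
      linear_combination hv + ht1
    · rw [← hw]
      left
      rw [Nat.cast_sub hκa.le] at h7
      have e1 : (q : ℤ) * ((a : ℤ) - κ - v) = a * q - κ * q - v * q := by ring
      rw [e1] at h7
      refine ⟨by omega, by omega, ?_, ?_⟩
      · have e2 : ((v : ℤ) + κ) * q = v * q + κ * q := by ring
        rw [e2]
        omega
      · by_cases hx : (o : ℤ) - (1 - c) - w + c < 0
        · left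
          omega
        · right
          have hA := out1 X jn hT (P' := z (i0 + (f : ZMod p) * ρ))
            (J' := i0 + (f : ZMod p) * ρ) (o' := (o : ℤ) - (1 - c) - w + c) (v' := (v : ℤ) + κ)
            (by
              rw [ho] at zC
              push_cast [Nat.cast_sub hc] at zA zC ⊢
              linear_combination zA - zC)
            (by push_cast; linear_combination hv + ht1)
            (by omega)
            (by
              have : (0 : ℤ) ≤ v * q := by positivity
              have : (0 : ℤ) ≤ κ * q := by positivity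
              have e9 : (q : ℤ) * (a - κ) = a * q - κ * q := by ring
              rw [e9] at hbig
              omega)
            (by omega) (by omega) hout
          have e2 : ((v : ℤ) + κ) * q = q * ((v : ℤ) + κ) := by ring
          rw [e2]
          push_cast [Nat.cast_sub hκa.le] at hA
          have e9 : (q : ℤ) * (a - κ) = (a - κ) * q := by ring
          rw [e9] at hA
          omega
  · -- a right corner is inside
    obtain ⟨o, v, ho, hv, hvp, hov⟩ := in1 X jn hT hin
    have hva : v ≤ a - κ := by
      by_contra h3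
      have h4 : q * (a - κ + 1) ≤ q * v := Nat.mul_le_mul_left _ (by omega)
      have h5 : q * (a - κ + 1) = q * (a - κ) + q := by ring
      omega
    obtain ⟨g1, g2, g3⟩ := hspec v hva (Or.inr hv)
    have h5 := twoA h hln hn hf hfn g1 (o := o) ho
    obtain ⟨h6, h7⟩ := box_lt h5 hov
    have h8 : o % q ≤ o := Nat.mod_le _ _
    refine ⟨f, (o : ℤ) - c, (v : ℤ) - a, hf, hfn, g1, g2, g3, ?_, ?_, ?_⟩
    · rw [ho] at zA
      push_cast at zA ⊢
      linear_combination -zA
    · rw [hrho]
      push_cast
      linear_combination hv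
    · rw [← hw]
      right
      rw [Nat.cast_sub hκa.le] at h7
      have e1 : (q : ℤ) * ((a : ℤ) - κ - v) = a * q - κ * q - v * q := by ring
      rw [e1] at h7
      have e2 : ((v : ℤ) - a) * q = v * q - a * q := by ring
      have e3 : -(κ : ℤ) * q = -(κ * q) := by ring
      rw [e2, e3]
      refine ⟨by omega, by omega, by omega, ?_⟩
      by_cases hvκ : v < κ
      · left
        omega
      · right
        by_cases hx : (o : ℤ) - c + (1 - c) + w < 0
        · left
          omega
        · right
          have hD := out1 X jn hT (P' := z (i0 + (f : ZMod p) * ρ - t) - b * q)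
            (J' := i0 + (f : ZMod p) * ρ - t + a + b) (o' := (o : ℤ) - c + (1 - c) + w)
            (v' := (v : ℤ) - κ)
            (by
              rw [ho] at zA
              rw [zC]
              push_cast [Nat.cast_sub hc] at zA ⊢
              linear_combination -zA)
            (by push_cast; linear_combination hv - ht1)
            (by omega)
            (by
              have : (0 : ℤ) ≤ v * q := by positivity
              have : (0 : ℤ) ≤ κ * q := by positivity
              have e9 : (q : ℤ) * (a - κ) = a * q - κ * q := by ring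
              rw [e9] at hbig
              omega)
            (by omega) (by omega) hout
          push_cast [Nat.cast_sub hκa.le] at hD
          have e9 : (q : ℤ) * (a - κ) = a * q - κ * q := by ring
          have e10 : (q : ℤ) * ((v : ℤ) - κ) = v * q - κ * q := by ring
          rw [e9, e10] at hD
          omega

theorem trN (h : SG p q a b c z i0 ρ θ δ l k s ds J) {κ : ℕ} (hk : k = -κ) (hκ : 1 ≤ κ)
    (hκa : κ < a) (h2 : 2 * a ≤ b) (h2b : 2 * b < p) {n : ℕ} (hln : l ≤ n) (hn : n < p) :
    ∃ (f : ℕ) (x r : ℤ), f < p ∧ f ≠ n ∧ f + l ≠ n ∧ f ≠ n + l ∧ f + p ≠ n + l ∧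
      (((f : ℤ) - n : ℤ) : ZMod (p * q)) * θ = (x : ZMod (p * q)) ∧
      (((f : ℤ) - n : ℤ) : ZMod p) * ρ = (r : ZMod p) ∧
      DipN q a κ (if f < l then ds * s * p else 0) x r := by
  have hls := h.ls
  have hP := hls.hP
  have ha := hP.ha
  have hb2 := hP.hb
  have hab := hP.hab
  have hc := hls.hB.hc
  have hpq := hls.hpq
  have hlp := hls.hl
  set jn := i0 + (n : ZMod p) * ρ with hjn
  set X := bx q c z jn with hX
  have hX0 : rp p q X = 0 := bx_rp hls.hB jn
  set t : ZMod p := ((k + b : ℤ) : ZMod p) with ht
  have ht1 : t = (b : ZMod p) - κ := by rw [ht, hk]; push_cast; ring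
  have hzn : z jn = X + (c : ZMod (p * q)) := by
    rw [hX]; unfold bx; ring
  have hzm : z (jn - t) = X + ((1 - c : ℕ) : ZMod (p * q)) +
      (b : ZMod (p * q)) * (q : ZMod (p * q)) := by
    have h1 := hls.mg hn (by omega) (hls.mgl hln)
    have h3 : jn - t = i0 + ((n - l : ℕ) : ZMod p) * ρ := by
      rw [hjn, ht, ← hls.hrl, Nat.cast_sub hln]
      ring
    rw [hX, ← h1, h3]
    unfold byy
    ring
  obtain ⟨j, hj, hdip⟩ := dip_neg hP hpq hc hκ hκa.le ht1 hzn hzm (hls.hF _ _ _ hX0)
  obtain ⟨f, hf, rfl⟩ := ap_row hls.hAP j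
  have hfn : f ≠ n := by
    rintro rfl
    exact hj rfl
  obtain ⟨zA, zC⟩ := sgBase h hln hn hf
  rw [← hjn, ← hX] at zA
  rw [← hjn, ← hX, ← ht] at zC
  obtain ⟨w, hw⟩ : ∃ w : ℤ, w = if f < l then ds * s * p else 0 := ⟨_, rfl⟩
  rw [← hw] at zC
  obtain ⟨-, hw2, hw3⟩ := shift_bd h f hw
  have hT : q * (a - κ) + 2 < p * q := by
    have h5 : q * (a - κ + 1) ≤ q * p := Nat.mul_le_mul_left _ (by omega)
    have h6 : q * (a - κ + 1) = q * (a - κ) + q := by ring
    have h7 : q * p = p * q := Nat.mul_comm _ _
    omega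
  -- the row of `f` relative to `n`
  have hrho : (((f : ℤ) - n : ℤ) : ZMod p) * ρ = i0 + (f : ZMod p) * ρ - jn := by
    rw [hjn]; push_cast; ring
  have hrl := hls.hrl
  rw [← ht] at hrl
  -- large bound
  have hbig : (q : ℤ) * (a - κ) + 2 + |w| + 2 < p * q := by
    have e1 : (4 * a : ℤ) < p := by omega
    have e2 : (q : ℤ) * (4 * a) ≤ q * (p - 1) := mul_le_mul_of_nonneg_left (by omega) (by omega)
    have e3 : (q : ℤ) * (a - κ) ≤ q * a := mul_le_mul_of_nonneg_left (by omega) (by omega)
    have e4 : (9 : ℤ) ≤ p := by omega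
    have e5 : (9 : ℤ) * q ≤ p * q := mul_le_mul_of_nonneg_right e4 (by omega)
    have e6 : (q : ℤ) * (p - 1) = p * q - q := by ring
    have e7 : (q : ℤ) * (4 * a) = 4 * (q * a) := by ring
    omega
  have habs1 := neg_abs_le w
  have habs2 := le_abs_self w
  -- the special dipoles are excluded by their rows
  have hspec : ∀ (v : ℕ), v ≤ a - κ →
      (i0 + (f : ZMod p) * ρ = jn + κ + (v : ZMod p) ∨
        i0 + (f : ZMod p) * ρ - t + a + b = jn + κ + (v : ZMod p)) →
      f + l ≠ n ∧ f ≠ n + l ∧ f + p ≠ n + l := by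
    intro v hv hor
    have key : ∀ ε : ℤ, (ε = 1 ∨ ε = -1) → i0 + (f : ZMod p) * ρ = jn + (ε : ZMod p) * t →
        False := by
      intro ε hε he
      rcases hor with h3 | h3
      · rw [he, ht1] at h3
        rcases hε with rfl | rfl
        · apply nz (p := p) (t := (b : ℤ) - 2 * κ - v) (by omega) (by omega)
          push_cast at h3 ⊢
          linear_combination h3
        · apply nz (p := p) (t := (b : ℤ) + v) (by omega) (by omega)
          push_cast at h3 ⊢
          linear_combination -h3
      · rw [he, ht1] at h3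
        rcases hε with rfl | rfl
        · apply nz (p := p) (t := (b : ℤ) + a - κ - v) (by omega) (by omega)
          push_cast at h3 ⊢
          linear_combination h3
        · apply nz (p := p) (t := (b : ℤ) - κ - a + v) (by omega) (by omega)
          push_cast at h3 ⊢
          linear_combination -h3
    refine ⟨fun h4 => key (-1) (Or.inr rfl) ?_, fun h4 => key 1 (Or.inl rfl) ?_,
      fun h4 => key 1 (Or.inl rfl) ?_⟩
    · rw [hjn, ← h4, ← hrl]
      push_cast
      ring
    · rw [hjn, h4, ← hrl]
      push_cast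
      ring
    · have h5 : (f : ZMod p) = (n : ZMod p) + (l : ZMod p) := by
        have := congrArg (fun t : ℕ => (t : ZMod p)) h4
        simpa using this
      rw [hjn, h5, ← hrl]
      push_cast
      ring
  have hq4 : 2 < q := by omega
  rcases hdip with ⟨hin, hout⟩ | ⟨hin, hout⟩
  · -- a right corner is inside
    obtain ⟨o, v, ho, hv, hvp, hov⟩ := in1 X (jn + κ) hT hin
    have hva : v ≤ a - κ := by
      by_contra h3
      have h4 : q * (a - κ + 1) ≤ q * v := Nat.mul_le_mul_left _ (by omega)
      have h5 : q * (a - κ + 1) = q * (a - κ) + q := by ring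
      omega
    obtain ⟨g1, g2, g3⟩ := hspec v hva (Or.inl hv)
    have h5 := twoA h hln hn hf hfn g1 (o := o) ho
    obtain ⟨h6, h7⟩ := box_lt h5 hov
    have h8 : o % q ≤ o := Nat.mod_le _ _
    refine ⟨f, (o : ℤ) - c, (v : ℤ) + κ, hf, hfn, g1, g2, g3, ?_, ?_, ?_⟩
    · rw [ho] at zA
      push_cast at zA ⊢
      linear_combination -zA
    · rw [hrho]
      push_cast
      linear_combination hv
    · rw [← hw]
      left
      rw [Nat.cast_sub hκa.le] at h7
      have e1 : (q : ℤ) * ((a : ℤ) - κ - v) = a * q - κ * q - v * q := by ring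
      rw [e1] at h7
      have e2 : ((v : ℤ) + κ) * q = v * q + κ * q := by ring
      have e3 : ((a : ℤ) - κ) * q = a * q - κ * q := by ring
      rw [e2, e3]
      refine ⟨by omega, by omega, by omega, ?_⟩
      by_cases hx : (o : ℤ) - c + (1 - c) + w < 0
      · left
        omega
      · right
        have hC := out1 X (jn + κ) hT (P' := z (i0 + (f : ZMod p) * ρ - t) - b * q)
          (J' := i0 + (f : ZMod p) * ρ - t + b) (o' := (o : ℤ) - c + (1 - c) + w)
          (v' := (v : ℤ) + κ)
          (by
            rw [ho] at zA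
            rw [zC]
            push_cast [Nat.cast_sub hc] at zA ⊢
            linear_combination -zA)
          (by push_cast; linear_combination hv - ht1)
          (by omega)
          (by
            have : (0 : ℤ) ≤ v * q := by positivity
            have : (0 : ℤ) ≤ κ * q := by positivity
            have e9 : (q : ℤ) * (a - κ) = a * q - κ * q := by ring
            rw [e9] at hbig
            omega)
          (by omega) (by omega) hout
        push_cast [Nat.cast_sub hκa.le] at hC
        have e9 : (q : ℤ) * (a - κ) = a * q - κ * q := by ring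
        have e10 : (q : ℤ) * ((v : ℤ) + κ) = v * q + κ * q := by ring
        rw [e9, e10] at hC
        omega
  · -- a left corner is inside
    obtain ⟨o, v, ho, hv, hvp, hov⟩ := in1 X (jn + κ) hT hin
    have hva : v ≤ a - κ := by
      by_contra h3
      have h4 : q * (a - κ + 1) ≤ q * v := Nat.mul_le_mul_left _ (by omega)
      have h5 : q * (a - κ + 1) = q * (a - κ) + q := by ring
      omega
    obtain ⟨g1, g2, g3⟩ := hspec v hva (Or.inr hv)
    have h5 := twoC h hln hn hf hfn g2 g3 (o := o) ho
    obtain ⟨h6, h7⟩ := box_lt h5 hov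
    have h8 : o % q ≤ o := Nat.mod_le _ _
    refine ⟨f, (o : ℤ) - (1 - c) - w, (v : ℤ) - a, hf, hfn, g1, g2, g3, ?_, ?_, ?_⟩
    · rw [ho] at zC
      push_cast [Nat.cast_sub hc] at zC ⊢
      linear_combination -zC
    · rw [hrho]
      push_cast
      linear_combination hv + ht1
    · rw [← hw]
      right
      rw [Nat.cast_sub hκa.le] at h7
      have e1 : (q : ℤ) * ((a : ℤ) - κ - v) = a * q - κ * q - v * q := by ring
      rw [e1] at h7
      have e2 : ((v : ℤ) - a) * q = v * q - a * q := by ring
      have e3 : -(κ : ℤ) * q = -(κ * q) := by ring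
      rw [e2, e3]
      refine ⟨by omega, by omega, by omega, ?_⟩
      by_cases hvκ : v < κ
      · left
        omega
      · right
        by_cases hx : (o : ℤ) - (1 - c) - w + c < 0
        · left
          omega
        · right
          have hB := out1 X (jn + κ) hT (P' := z (i0 + (f : ZMod p) * ρ))
            (J' := i0 + (f : ZMod p) * ρ + a) (o' := (o : ℤ) - (1 - c) - w + c)
            (v' := (v : ℤ) - κ)
            (by
              rw [ho] at zC
              push_cast [Nat.cast_sub hc] at zA zC ⊢
              linear_combination zA - zC)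
            (by push_cast; linear_combination hv + ht1)
            (by omega)
            (by
              have : (0 : ℤ) ≤ v * q := by positivity
              have : (0 : ℤ) ≤ κ * q := by positivity
              have e9 : (q : ℤ) * (a - κ) = a * q - κ * q := by ring
              rw [e9] at hbig
              omega)
            (by omega) (by omega) hout
          push_cast [Nat.cast_sub hκa.le] at hB
          have e9 : (q : ℤ) * (a - κ) = a * q - κ * q := by ring
          have e10 : (q : ℤ) * ((v : ℤ) - κ) = v * q - κ * q := by ring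
          rw [e9, e10] at hB
          omega

end

end Helper55.TR
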